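import Mathlib
import Pool.Agent.Lib.MP_4ca46c_ag.Std.Statement

/-!
# The nilpotence conjecture

`V` is a smooth projective variety `X` of dimension `n` over an algebraically closed field,
`D` are Chow groups and a cohomology theory, see `Std/Statement.lean`.
-/

namespace Pool.Agent.Lib.MP_4ca46c_ag.Std

open CategoryTheory Limits AlgebraicGeometry
open Pool.Agent.Lib.MP_4ca46c_ag.Sign Pool.Agent.Lib.MP_4ca46c_ag.Hyp

variable {k₀ : Type} [Field k₀] {K : Type} [Field K]

namespace PrVar

variable (D : CohData k₀ K) (V : PrVar k₀)

/-- The cycle `a` on `X × X` is numerically equivalent to zero: the intersection numbers of `a`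
with the cycles of codimension `n` on `X × X` vanish. -/
def NumTrivial (a : D.CH V.sq) : Prop :=
  ∀ b, D.Codim V.n b → D.trace (D.cls (D.mul a b)) = 0

/-- The operator `φ` on `H(X)` is given by the correspondence `a`, that is,
`φ v = p₁_* (cl a ∪ p₂^* v)`. This is expressed by Poincaré duality. -/
def Acts (a : D.CH V.sq) (φ : D.H V.X →ₗ[K] D.H V.X) : Prop :=
  ∀ v w, D.trace (D.cup (φ v) w) = V.pair D a v w

/-- The nilpotence conjecture: every algebraic self-correspondence of degree `0` of `X` with
rational coefficients which is numerically equivalent to zero acts nilpotently on the cohomology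
`H(X)`. -/
def NilConj : Prop :=
  ∀ a, D.Codim V.n a → V.NumTrivial D a → ∃ φ, V.Acts D a φ ∧ IsNilpotent φ

end PrVar

end Pool.Agent.Lib.MP_4ca46c_ag.Std
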