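import Pool.Agent.Lib.MP_4ca46c_ag.NilGeo.NilOp
import Pool.Agent.Lib.MP_4ca46c_ag.NilGeo.Statement2
import Pool.Agent.Lib.MP_4ca46c_ag.Std.Bridge2

/-!
# The compact form of the nilpotence conjecture
-/

set_option autoImplicit false

open CategoryTheory Limits AlgebraicGeometry MonoidalCategory CartesianMonoidalCategory
  TensorProduct

namespace Pool.Agent.Lib.MP_4ca46c_ag.NilGeo

open Pool.Agent.Lib.MP_4ca46c_ag.Sign Pool.Agent.Lib.MP_4ca46c_ag.Nil
open Pool.Agent.Lib.MP_4ca46c_ag.Hyp Pool.Agent.Lib.MP_4ca46c_ag.Std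

variable {k₀ K : Type} [Field k₀] [Field K] [CharZero K] {D : CohData k₀ K}

/-- The object of the category `Var`. -/
noncomputable def pvar {k : Type} [Field k] [Algebra k₀ k] (V : ProjVar k₀ k) : Var k₀ k :=
  ⟨V.X, V.str, V.n, V.isVar⟩

variable (h : D.IsTheory) {k : Type} [Field k] [Algebra k₀ k] [IsAlgClosed k] (V : ProjVar k₀ k)

omit [CharZero K] [IsAlgClosed k] in
theorem bridge_mul (a b : (D.weil h).CH (pvar V ⊗ pvar V).X) :
    (D.weil h).cl (pvar V ⊗ pvar V).X (a * b) =
      (D.weil h).cl (pvar V ⊗ pvar V).X a * (D.weil h).cl (pvar V ⊗ pvar V).X b :=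
  map_mul _ a b

theorem nilConj_iff : (ofProj V).NilConj D ↔ NilX (weil (D.weil h) k) (pvar V) := by
  constructor
  · rintro H _ ⟨a, ha, rfl⟩ h0
    obtain ⟨φ, h1, h2⟩ := H a ha (fun b hb => by
      have h3 := h0 ((D.weil h).cl _ b) ⟨b, hb, rfl⟩
      have h4 := bridge_mul h V a b
      exact (congrArg ((D.weil h).tr _) h4).trans h3)
    have h5 : (weil (D.weil h) k).op (X := pvar V) (Y := pvar V) ((D.weil h).cl _ a) = φ := by
      refine LinearMap.ext fun v => ?_
      refine (weil (D.weil h) k).ext_tr (X := pvar V) fun w => ?_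
      rw [(weil (D.weil h) k).op_spec]
      exact (h1 v w).symm
    change IsNilpotent ((weil (D.weil h) k).op (X := pvar V) (Y := pvar V) ((D.weil h).cl _ a) :
      Module.End K _)
    rw [h5]
    exact h2
  · intro H a ha h0
    refine ⟨(weil (D.weil h) k).op (X := pvar V) (Y := pvar V) ((D.weil h).cl _ a),
      fun v w => ?_, ?_⟩
    · exact (weil (D.weil h) k).op_spec (X := pvar V) (Y := pvar V) ((D.weil h).cl _ a) v w
    · refine H _ ⟨a, ha, rfl⟩ ?_
      rintro _ ⟨b, hb, rfl⟩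
      have h3 := h0 b hb
      have h4 := bridge_mul h V a b
      exact (congrArg ((D.weil h).tr _) h4).symm.trans h3

end Pool.Agent.Lib.MP_4ca46c_ag.NilGeo
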