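import Pool.Agent.Lib.MP_4ca46c_ag.NilGeo.Spec2

/-!
# The class of the generic hyperplane section over the function field, and base change of classes
-/

set_option autoImplicit false

namespace Pool.Agent.Lib.MP_4ca46c_ag.NilGeo

open CategoryTheory Limits AlgebraicGeometry TensorProduct MonoidalCategory
  CartesianMonoidalCategory
open Pool.Agent.Lib.MP_4ca46c_ag.Sign Pool.Agent.Lib.MP_4ca46c_ag.Hyp
open Pool.Agent.Lib.MP_4ca46c_ag.Std Pool.Agent.Lib.MP_4ca46c_ag.Nil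
open Pool.Agent.Lib.MP_4ca46c_ag.Nil.PreWeil

variable {k₀ : Type} [Field k₀] {K : Type} [Field K] {k : Type} [Field k] [Algebra k₀ k]

section

variable [IsAlgClosed k] {T : WeilTheory k₀ K} (E : Extra T) (V : ProjVar k₀ k) (m : ℕ)
  (hm : 1 ≤ m) (hn : V.n = m + 1)

include E hn in
theorem gR_push' : T.push (pullback.lift V.r₀ V.y₀ V.r₀_str) 1 =
    T.pull (pullback.fst V.str (ptMap k₀ (IsScalarTower.toAlgHom k₀ k V.F))) (V.h T) := by
  have hU := fUnivX k₀ K T E k V.κ V.i V.X V.str V.n V.emb V.emb_str V.isVar V.closed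
  obtain ⟨N, hN⟩ : ∃ N, Fintype.card V.κ = N + 1 := by
    have : 0 < Fintype.card V.κ := Fintype.card_pos
    exact ⟨Fintype.card V.κ - 1, by omega⟩
  obtain ⟨-, sA, -, sF⟩ := tAffSm k₀ k V.X V.str V.κ V.n N V.isVar.isSm V.isVar.smooth hN
  have sI := (sF V.C).1
  have sX : Sm V.X := V.isVar.sm
  obtain ⟨gA, gA1, gA2⟩ := genclass_gA V.str V.F (κ := V.κ)
  obtain ⟨i₀, i1, i2⟩ := genclass_i₀ V.C V.fibre gA2
  have hi : i₀ = pullback.lift V.r₀ V.y₀ V.r₀_str := by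
    apply pullback.hom_ext
    · rw [pullback.lift_fst, ← gA1, ← Category.assoc, ← i2.w, Category.assoc]
      rfl
    · rw [pullback.lift_snd, i1]
  have vXF : IsVar (pullback.snd V.str (ptMap k₀ (IsScalarTower.toAlgHom k₀ k V.F))) V.n :=
    genclass_var (IsPullback.of_hasPullback _ _) V.isVar
  have fA : Flat gA.left := MorphismProperty.of_isPullback (P := @Flat)
    (gA2.map (Over.forget _)).flip
    (genclass_flat_frac (k₀ := k₀) (F := V.F) (MvPolynomial V.κ k))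
  have cI : IsClosedImmersion (Fam.inc V.C).left := inferInstanceAs (IsClosedImmersion V.C.inc)
  have h3 := T.push_baseChange (Fam.inc V.C) i₀ V.toI gA i2 ⟨_, _, _, _, sI⟩ ⟨_, _, _, _, sA⟩
    ⟨_, _, _, _, V.isSm₀ m hn⟩ vXF.sm inferInstance fA 1
  rw [map_one (T.pull V.toI)] at h3
  rw [← hi, ← h3, hU, ← T.pull_comp gA (Aff.pr V.κ V.X) vXF.sm ⟨_, _, _, _, sA⟩ sX, gA1]
  rfl

/-- The class of the generic hyperplane section in the Chow group over the function field. -/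
theorem gR_push : T.push (gR E V m hm hn).hom 1 = T.pull (bcPr V.F (pv V)) (V.h T) :=
  gR_push' E V m hn

variable [CharZero K]

/-- **(G1)** -/
theorem gR_tr (t : (pre T V.L).H (gZ V)) : (pre T V.L).tr (gY E V m hm hn)
    ((pre T V.L).pull (gR E V m hm hn) t) = (pre T V.L).tr (gZ V)
      (cls T V.L (gZ V) (T.pull (bcPr V.F (pv V)) (V.h T)) * t) := by
  rw [← gR_push E V m hm hn, cls_push, push_spec, map_one, one_mul]

end

section beta

variable [CharZero K] (T : WeilTheory k₀ K) (V : ProjVar k₀ k)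

/-- The base change of classes from `V` to `Z`. -/
noncomputable def beta : T.H V.X →ₐ[K] (pre T V.L).H (gZ V) :=
  T.pullH (bcPr V.L (gZ V) ≫ bcPr V.F (pv V))

/-- The base change of classes from `V × V` to `Z × Z`. -/
noncomputable def beta₂ : T.H (pullback V.str V.str) →ₐ[K] (pre T V.L).H (gZ V ⊗ gZ V) :=
  T.pullH (bcPr V.L (gZ V ⊗ gZ V) ≫ uZZ V)

theorem beta_sq : IsPullback (bcPr V.L (gZ V) ≫ bcPr V.F (pv V)) (bcStr V.L (gZ V)) V.str
    (ptMap k₀ (IsScalarTower.toAlgHom k₀ k V.L)) := by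
  have h := (bc_sq V.L (gZ V)).paste_horiz (bc_sq V.F (pv V))
  rw [ProjVar.pt_comp] at h
  exact h

theorem beta_sq₂ : IsPullback (bcPr V.L (gZ V ⊗ gZ V) ≫ uZZ V) (bcStr V.L (gZ V ⊗ gZ V))
    (pullback.fst V.str V.str ≫ V.str) (ptMap k₀ (IsScalarTower.toAlgHom k₀ k V.L)) := by
  have h := (bc_sq V.L (gZ V ⊗ gZ V)).paste_horiz
    (isPullback_prod (bc_sq V.F (pv V)) (bc_sq V.F (pv V)))
  rw [ProjVar.pt_comp] at h
  exact h

end beta

section beta'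

variable [IsAlgClosed k] [CharZero K] {T : WeilTheory k₀ K} (E : Extra T) (V : ProjVar k₀ k)

theorem beta_cl (a : T.CH V.X) :
    beta T V (T.cl V.X a) = cls T V.L (gZ V) (T.pull (bcPr V.F (pv V)) a) := by
  change T.pullH _ _ = T.cl (bcX V.L (gZ V)) (T.pull (bcPr V.L (gZ V)) _)
  rw [← T.cl_pull _ (bc_var V.L (gZ V)).isWeil V.isVar.isWeil]
  congr 1
  exact T.pull_comp _ _ (bc_var V.L (gZ V)).sm (gZ V).isVar.sm V.isVar.sm a

theorem beta₂_cl (a : T.CH (pullback V.str V.str)) :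
    beta₂ T V (T.cl _ a) = cls T V.L (gZ V ⊗ gZ V) (T.pull (uZZ V) a) := by
  change T.pullH _ _ = T.cl (bcX V.L (gZ V ⊗ gZ V)) (T.pull (bcPr V.L (gZ V ⊗ gZ V)) _)
  rw [← T.cl_pull _ (bc_var V.L (gZ V ⊗ gZ V)).isWeil (Var.isVar_prod V.isVar V.isVar).isWeil]
  congr 1
  exact T.pull_comp _ _ (bc_var V.L (gZ V ⊗ gZ V)).sm (gZ V ⊗ gZ V).isVar.sm
    (Var.isVar_prod V.isVar V.isVar).sm a

omit [IsAlgClosed k] [CharZero K] in
theorem pullH_comm {A B C D : Sch k₀} (f : A ⟶ B) (g : B ⟶ D) (f' : A ⟶ C) (g' : C ⟶ D)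
    (h : f ≫ g = f' ≫ g') (hA : IsWeil A) (hB : IsWeil B) (hC : IsWeil C) (hD : IsWeil D)
    (z : T.H D) : T.pullH f (T.pullH g z) = T.pullH f' (T.pullH g' z) := by
  rw [← T.pullH_comp f g hA hB hD, ← T.pullH_comp f' g' hA hC hD, h]

omit [IsAlgClosed k] in
theorem uZZ_fst : uZZ V ≫ pullback.fst V.str V.str =
    (fst (gZ V) (gZ V)).hom ≫ bcPr V.F (pv V) := pullback.lift_fst _ _ _

omit [IsAlgClosed k] in
theorem uZZ_snd : uZZ V ≫ pullback.snd V.str V.str =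
    (snd (gZ V) (gZ V)).hom ≫ bcPr V.F (pv V) := pullback.lift_snd _ _ _

omit [IsAlgClosed k] [CharZero K] in
theorem clsg_comp {A B C D G A' : Sch k₀} (p : A ⟶ B) (u : B ⟶ D) (q : D ⟶ G) (f : B ⟶ C)
    (g : C ⟶ G) (p' : A ⟶ A') (b : A' ⟶ C) (h1 : u ≫ q = f ≫ g) (h2 : p' ≫ b = p ≫ f) :
    (p ≫ u) ≫ q = p' ≫ (b ≫ g) := by
  rw [Category.assoc, h1, ← Category.assoc, ← h2, Category.assoc]

theorem beta₂_fst (z : T.H V.X) : beta₂ T V (T.pullH (pullback.fst V.str V.str) z) =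
    (pre T V.L).pull (fst (gZ V) (gZ V)) (beta T V z) :=
  pullH_comm _ _ _ _ (clsg_comp (bcPr V.L (gZ V ⊗ gZ V)) (uZZ V) (pullback.fst V.str V.str)
    (fst (gZ V) (gZ V)).hom (bcPr V.F (pv V)) (bcM V.L (fst (gZ V) (gZ V))) (bcPr V.L (gZ V))
    (uZZ_fst V) (bcM_pr V.L (fst (gZ V) (gZ V)))) (bc_var V.L (gZ V ⊗ gZ V)).isWeil
    (Var.isVar_prod V.isVar V.isVar).isWeil (bc_var V.L (gZ V)).isWeil V.isVar.isWeil z

theorem beta₂_snd (z : T.H V.X) : beta₂ T V (T.pullH (pullback.snd V.str V.str) z) =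
    (pre T V.L).pull (snd (gZ V) (gZ V)) (beta T V z) :=
  pullH_comm _ _ _ _ (clsg_comp (bcPr V.L (gZ V ⊗ gZ V)) (uZZ V) (pullback.snd V.str V.str)
    (snd (gZ V) (gZ V)).hom (bcPr V.F (pv V)) (bcM V.L (snd (gZ V) (gZ V))) (bcPr V.L (gZ V))
    (uZZ_snd V) (bcM_pr V.L (snd (gZ V) (gZ V)))) (bc_var V.L (gZ V ⊗ gZ V)).isWeil
    (Var.isVar_prod V.isVar V.isVar).isWeil (bc_var V.L (gZ V)).isWeil V.isVar.isWeil z

theorem beta_gr (i : ℕ) (z : T.H V.X) (hz : z ∈ T.deg V.X i) :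
    beta T V z ∈ (pre T V.L).gr (gZ V) i :=
  T.pullH_mem _ (bc_var V.L (gZ V)).isWeil V.isVar.isWeil i z hz

include E in
theorem beta_tr (z : T.H V.X) : (pre T V.L).tr (gZ V) (beta T V z) = T.tr V.X z :=
  E.tr_field V.str (bcStr V.L (gZ V)) _ V.n V.isVar (beta_sq V) z

include E in
theorem beta₂_tr (z : T.H (pullback V.str V.str)) :
    (pre T V.L).tr (gZ V ⊗ gZ V) (beta₂ T V z) = T.tr (pullback V.str V.str) z :=
  E.tr_field (pullback.fst V.str V.str ≫ V.str) (bcStr V.L (gZ V ⊗ gZ V)) _ (V.n + V.n)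
    (Var.isVar_prod V.isVar V.isVar) (beta_sq₂ V) z

/-- **(G5)** in cohomology. -/
theorem beta₂_desc (hD : StDescG k₀ K) (c : ℕ) (u : (pre T V.L).H (gZ V ⊗ gZ V))
    (hu : u ∈ (pre T V.L).Alg (gZ V ⊗ gZ V) c) :
    ∃ w ∈ T.codim (pullback V.str V.str) c, beta₂ T V (T.cl _ w) = u := by
  obtain ⟨a, ha, rfl⟩ := hu
  obtain ⟨w, hw, rfl⟩ := hD T k V c a ha
  exact ⟨w, hw, beta₂_cl V w⟩

end beta'

end Pool.Agent.Lib.MP_4ca46c_ag.NilGeo
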