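import Pool.Agent.Lib.MP_4ca46c_ag.NilGeo.NilOp
import Pool.Agent.Lib.MP_4ca46c_ag.Nil.Conv
import Pool.Agent.Lib.MP_4ca46c_ag.Sign.Local

/-!
# The sign conjecture implies the nilpotence conjecture
-/

set_option autoImplicit false

open CategoryTheory Limits AlgebraicGeometry MonoidalCategory CartesianMonoidalCategory
  TensorProduct

namespace Pool.Agent.Lib.MP_4ca46c_ag.NilGeo

open Pool.Agent.Lib.MP_4ca46c_ag.Sign Pool.Agent.Lib.MP_4ca46c_ag.Nil

section Abstract

variable {K : Type} [Field K] [CharZero K] {𝒱 : Type 1} [Category.{0} 𝒱]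
  [CartesianMonoidalCategory 𝒱] (W : Geo.WeilCohomology K 𝒱) {X : 𝒱}

/-- A numerically trivial class gives a numerically trivial operator. -/
theorem convn_snum {u : W.H (X ⊗ X)} (hu : u ∈ W.Alg (X ⊗ X) (W.dim X))
    (h0 : ∀ v ∈ W.Alg (X ⊗ X) (W.dim X), W.tr (X ⊗ X) (u * v) = 0) :
    SNum (fun r => W.Cor X X r) (W.eps X) 0 (W.op u : Module.End K (W.H X)) := by
  have hf : (W.op u : Module.End K (W.H X)) ∈ W.Cor X X 0 :=
    W.mem_cor.2 (Or.inr ⟨W.dim X, u, by omega, hu, rfl⟩)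
  refine ⟨hf, fun g hg => ?_⟩
  rcases W.mem_cor.1 hg with rfl | ⟨c, v, hc, hv, rfl⟩
  · rw [zero_mul, zero_mul, map_zero]
  obtain rfl : c = W.dim X := by omega
  have h1 := nilop_pair W u v
  rw [h0 _ (W.alg_pull _ hv)] at h1
  have h3 : LinearMap.trace K (W.H X) (W.op u ∘ₗ W.op v ∘ₗ W.eps X) =
      LinearMap.trace K (W.H X) ((W.op v : Module.End K (W.H X)) *
        (W.op u : Module.End K (W.H X)) * W.eps X) := by
    change LinearMap.trace K (W.H X) ((W.op u : Module.End K (W.H X)) *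
      ((W.op v : Module.End K (W.H X)) * W.eps X)) = _
    rw [LinearMap.trace_mul_comm, mul_assoc, mul_assoc, ← nilop_comm W hf]
  rw [← h3, ← h1]

end Abstract

variable {k₀ K : Type} [Field k₀] [Field K] [CharZero K]

/-- **`C⁺` implies nilpotence.** -/
theorem nilX_of_sign {T : WeilTheory k₀ K} (V : PVar T) (h : V.SignConj) :
    NilX (weil T V.k) V.var := by
  intro u hu h0
  have h1 : sgn V.n V.proj ∈ V.opA 0 := ((tTrans k₀ K) T V).2.2.1.1 h
  have hO := tOpV k₀ K T V
  have h2 : sgn V.n V.proj = (weil T V.k).eps V.var := opv_sgn (weil T V.k) (X := V.var)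
  have h3 : SNum V.opA (sgn V.n V.proj) 0
      ((weil T V.k).op (X := V.var) (Y := V.var) u : Module.End K V.HX) := by
    rw [h2]
    exact convn_snum (weil T V.k) (X := V.var) hu h0
  exact tConv K V.HX V.n V.proj V.lef V.opA hO.lef hO.ratA h1 _ h3

end Pool.Agent.Lib.MP_4ca46c_ag.NilGeo
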