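import Mathlib
import Pool.Agent.Lib.MP_4ca46c_ag.Std.GenV

/-!
# Specification: several points on the generic hyperplane section

`IsPow y x p`: `P` with the projections `p a`, `a ∈ ι`, is the fibre power `Y^ι` over `S`
(`y : Y ⟶ S`, `x : P ⟶ S`). `V.Comp4`: at most four different points of `V` impose independent
conditions on hyperplane sections.
-/

namespace Pool.Agent.Lib.MP_4ca46c_ag.NilGeo

open CategoryTheory Limits AlgebraicGeometry TensorProduct
open Pool.Agent.Lib.MP_4ca46c_ag.Sign Pool.Agent.Lib.MP_4ca46c_ag.Hyp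
open Pool.Agent.Lib.MP_4ca46c_ag.Std

universe v u

/-- `P` is the fibre power `Y^ι` over `S`. -/
structure IsPow {C : Type u} [Category.{v} C] {Y S P : C} (y : Y ⟶ S) (x : P ⟶ S) {ι : Type}
    (p : ι → (P ⟶ Y)) : Prop where
  comm : ∀ a, p a ≫ y = x
  exists_lift : ∀ (T : C) (s : T ⟶ S) (t : ι → (T ⟶ Y)), (∀ a, t a ≫ y = s) →
    ∃ l : T ⟶ P, l ≫ x = s ∧ ∀ a, l ≫ p a = t a
  hom_ext : ∀ (T : C) (l l' : T ⟶ P), l ≫ x = l' ≫ x → (∀ a, l ≫ p a = l' ≫ p a) → l = l'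

section pow

/-- Existence of the powers.

PROOF. Induction on `ι` (`Finite.induction_empty_option`): `S` for the empty set,
`pullback x y` for `Option ι`; transport along an equivalence of index sets. -/
def StPowEx : Prop := ∀ (C : Type 1) [Category.{0} C] [HasPullbacks C] (Y S : C) (y : Y ⟶ S)
  (ι : Type) [Finite ι], ∃ (P : C) (x : P ⟶ S) (p : ι → (P ⟶ Y)), IsPow y x p

/-- Powers commute with base change.

PROOF. Universal property: given `a : T ⟶ P'` and `b : T ⟶ S'` with `a ≫ x' = b ≫ g`, the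
morphisms `a ≫ p' i : T ⟶ Y'` and `b` define `T ⟶ Y` (`h.lift`), so `T ⟶ P`. Uniqueness: `hom_ext`
and `h.hom_ext`. -/
def StPowBC : Prop := ∀ (C : Type 1) [Category.{0} C] (Y S P Y' S' P' : C) (y : Y ⟶ S)
  (y' : Y' ⟶ S') (t : Y ⟶ Y') (g : S ⟶ S') (_ : IsPullback t y y' g) (ι : Type) (x : P ⟶ S)
  (p : ι → (P ⟶ Y)) (x' : P' ⟶ S') (p' : ι → (P' ⟶ Y')), IsPow y x p → IsPow y' x' p' →
  ∀ q : P ⟶ P', (∀ a, q ≫ p' a = p a ≫ t) → q ≫ x' = x ≫ g → IsPullback q x x' g

variable (k₀ : Type) [Field k₀]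

/-- Powers of smooth schemes are smooth.

PROOF. Induction on `ι` (`Finite.induction_empty_option`; powers are unique up to isomorphism and
exist by `StPowEx`): for `Option ι` the power is isomorphic to `pullback x y`; compare `isVar_prod`
(`Sign/VarCat.lean`) and `sms_prod` (`Sign/SmS.lean`). For the empty set `x` is an isomorphism. -/
def StPowSm : Prop := ∀ (F : Type) [Field F] [Algebra k₀ F] (Y P : Sch k₀) (y : Y ⟶ pt k₀ F)
  (x : P ⟶ pt k₀ F) (ι : Type) [Finite ι] (p : ι → (P ⟶ Y)), IsPow y x p →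
  ∀ m : ℕ, IsSm y → SmoothOfRelativeDimension m y.left → IsSm x ∧
    SmoothOfRelativeDimension (Nat.card ι * m) x.left ∧ (IsProper y.left → IsProper x.left)

/-- The diagonals of the powers. `T` is the power with index set `ι \ {b}` and `δ` is the map with
`y_b = y_a`.

PROOF. The square `δ`, `T ⟶ Y` (the projection `a`), `pullback.lift (p a) (p b) : P ⟶ Y × Y`,
`pullback.diagonal y` is cartesian (universal property). The diagonal is a closed
immersion (`diag_closed`, `Std/HypSec.lean`, for `str`; `y` is separated). Ranges: `compl_range`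
(`Std/Compl.lean` or `Sign/Compl.lean`): the range of a base change is the preimage of the range. -/
def StPowDiag : Prop := ∀ (F : Type) [Field F] [Algebra k₀ F] (Y P : Sch k₀) (y : Y ⟶ pt k₀ F)
  (x : P ⟶ pt k₀ F) (ι : Type) (p : ι → (P ⟶ Y)) (hP : IsPow y x p), IsSeparated y.left →
  ∀ (a b : ι) (hab : a ≠ b) (T : Sch k₀) (x' : T ⟶ pt k₀ F) (p' : {c // c ≠ b} → (T ⟶ Y)),
  IsPow y x' p' → ∀ δ : T ⟶ P, (∀ c, δ ≫ p c.1 = p' c) → δ ≫ p b = p' ⟨a, hab⟩ →
  IsClosedImmersion δ.left ∧ Set.range δ.left = (pullback.lift (p a) (p b)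
    ((hP.comm a).trans (hP.comm b).symm)).left ⁻¹' Set.range (pullback.diagonal y).left

end pow

/-- The set of the points of `Y^ι` with different coordinates. -/
def offD {k₀ : Type} [Field k₀] {Y S P : Sch k₀} {y : Y ⟶ S} {x : P ⟶ S} {ι : Type}
    {p : ι → (P ⟶ Y)} (hP : IsPow y x p) : Set P.left :=
  {z | ∀ a b, a ≠ b → (pullback.lift (p a) (p b) ((hP.comm a).trans (hP.comm b).symm)).left z ∉
    Set.range (pullback.diagonal y).left}

section ProjVar

variable {k₀ : Type} [Field k₀] {k : Type} [Field k] [Algebra k₀ k]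

/-- At most four points of `V` which are pairwise different impose independent conditions on the
hyperplane sections: the space of hyperplane sections containing them is an affine bundle. -/
def Comp4 (V : ProjVar k₀ k) : Prop := ∀ (ι : Type) [Fintype ι] [Nonempty ι],
  Fintype.card ι ≤ 4 → ∀ (U : Sch k₀) (z : ι → (U ⟶ V.X)),
  (∀ a b, z a ≫ V.str = z b ≫ V.str) →
  (∀ (u : U.left) (a b : ι), a ≠ b → U.left.fromSpecResidueField u ≫ (z a).left ≠
    U.left.fromSpecResidueField u ≫ (z b).left) →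
  ∀ (W : Sch k₀) (f : W ⟶ U) (c : ι → (W ⟶ Fam V.C)),
  (∀ a, c a ≫ Fam.inc V.C ≫ Aff.pr V.κ V.X = f ≫ z a) → (∀ a b, c a ≫ V.toB = c b ≫ V.toB) →
  (∀ (T : Sch k₀) (u : T ⟶ U) (t : ι → (T ⟶ Fam V.C)),
    (∀ a, t a ≫ Fam.inc V.C ≫ Aff.pr V.κ V.X = u ≫ z a) → (∀ a b, t a ≫ V.toB = t b ≫ V.toB) →
    ∃ l : T ⟶ W, l ≫ f = u ∧ ∀ a, l ≫ c a = t a) →
  (∀ (T : Sch k₀) (l l' : T ⟶ W), l ≫ f = l' ≫ f → (∀ a, l ≫ c a = l' ≫ c a) → l = l') →
  IsAffineBundle f.left

end ProjVar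

section Chow

variable (k₀ K : Type) [Field k₀] [Field K]

/-- **Localization for several closed subschemes.**

PROOF. Induction on `ι` (`Finite.induction_empty_option`, or on a finite subset of `ι`).
Empty set: `j` is a surjective open immersion, so an isomorphism, and `pull j` is injective.
Step: let `U₁ ⟶ X` be the complement of the `D i`, `i ∈ ι`, an open subscheme
(`Scheme.Opens.ι`, as `dincl` in `Std/HypSec.lean`), `T' = pullback (δ none) (U₁ ⟶ X)`; `U ⟶ U₁` is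
the complement of the closed immersion `T' ⟶ U₁`. The restriction of `a` to `U₁` vanishes on `U`,
so by `T.localization` it is `push (T' ⟶ U₁) b'`, `b'` of codimension `p`; `b'` is the restriction
of some `b` on `D none` (`pull_surjective_of_mono`, the open immersion `T' ⟶ D none`), and
`push (T' ⟶ U₁) (pull b) = pull (push (δ none) b)` by flat base change (`push_baseChange`). So
`a - push (δ none) b` vanishes on `U₁`; `push_mem` for its codimension; use the induction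
hypothesis. `IsSm` and quasi-compactness of open subschemes: `sms_open` (`Sign/SmS.lean`). -/
def StLoc : Prop := ∀ (T : WeilTheory k₀ K) (F : Type) [Field F] [Algebra k₀ F] (X : Sch k₀)
  (x : X ⟶ pt k₀ F) (m c : ℕ), IsSm x → SmoothOfRelativeDimension (m + c) x.left →
  ∀ (ι : Type) [Fintype ι] (D : ι → Sch k₀) (δ : ∀ i, D i ⟶ X), (∀ i, IsSm (δ i ≫ x)) →
  (∀ i, SmoothOfRelativeDimension m (δ i ≫ x).left) → (∀ i, IsClosedImmersion (δ i).left) →
  ∀ (U : Sch k₀) (j : U ⟶ X), IsOpenImmersion j.left →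
  Set.range j.left = (⋃ i, Set.range (δ i).left)ᶜ → ∀ p, ∀ a ∈ T.codim X (p + c),
  T.pull j a = 0 → ∃ b : ∀ i, T.CH (D i), (∀ i, b i ∈ T.codim (D i) p) ∧
    a = ∑ i, T.push (δ i) (b i)

/-- **Cycles on the open stratum.** `PY = Y₀^ι` over `F`, `PZ = V^ι` over `k`, `ρ : PY ⟶ PZ`.

PROOF. As `StStep0` (`Std/Step0.lean`, `Sign/Step0.lean`, and `PreSec.generic_*` in
`Std/PreSec.lean`). Let `PI` be the power of `V.toB : Fam V.C ⟶ sp k₀ V.R` (`StPowEx`),
`q : PI ⟶ PZ` the map given by `Fam.inc V.C ≫ Aff.pr V.κ V.X`, `t : PY ⟶ PI` the map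
given by `V.toI`; `t ≫ q = ρ`; `t` is the base change of `spG k₀ V.R V.F` (`StPowBC` and
`V.fibre`). Let `incl : U ⟶ PZ` be the open subscheme with range `offD hZ` (it is open, since the
diagonal of `V` is closed), `W₀ = pullback q incl`, `Q₀ = pullback ρ incl`. `W₀ ⟶ U` is an affine
bundle by `V.Comp4` (`z a = incl ≫ pZ a`, `c a = pullback.fst q incl ≫ pI a`; the points are
different on residue fields: as in `h_bundle`, `Std/HypSec.lean`). The map `Q₀ ⟶ W₀` is a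
base change of `t`, so of `spG`, so flat, mono and quasi-compact (`spG_flat`, `spG_mono`, `spG_qc`).
`Q₀ ⟶ PY` is an open immersion with range `ρ ⁻¹' (offD hZ) = offD hY = range j` (the square
`diagonal y₀`, `V.r₀`, `Y₀ × Y₀ ⟶ V × V`, `diagonal V.str` is cartesian:
`PreSec.compl_isPullback`), so `j` factors through `Q₀ ⟶ PY` by an isomorphism
(`IsOpenImmersion.lift`). Now for `a` on `PY`: its restriction to `Q₀` is the
pull-back of `b` on `W₀` (`pull_surjective_of_mono`), `b` is the pull-back of `b'` on `U`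
(`pull_surjective_of_affineBundle`), `b'` is the restriction of `w` on `PZ`
(`pull_surjective_of_mono`). So `a` and `pull ρ w` have the same restriction to `Q₀`. Smoothness:
`StPowSm`, `sms_open`, `sms_bundle_smooth`, `sms_bundle_affine` (`Sign/SmS.lean`). -/
def StPowRes : Prop := ∀ (T : WeilTheory k₀ K) (k : Type) [Field k] [Algebra k₀ k]
  (V : ProjVar k₀ k), Comp4 V → ∀ m : ℕ, V.n = m + 1 →
  ∀ (ι : Type) [Fintype ι] [Nonempty ι], Fintype.card ι ≤ 4 →
  ∀ (PZ : Sch k₀) (xZ : PZ ⟶ pt k₀ k) (pZ : ι → (PZ ⟶ V.X)), IsPow V.str xZ pZ →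
  ∀ (PY : Sch k₀) (xY : PY ⟶ pt k₀ V.F) (pY : ι → (PY ⟶ V.Y₀)) (hY : IsPow V.y₀ xY pY)
  (ρ : PY ⟶ PZ), (∀ a, ρ ≫ pZ a = pY a ≫ V.r₀) →
  ∀ (Q : Sch k₀) (j : Q ⟶ PY), IsOpenImmersion j.left → Set.range j.left = offD hY →
  ∀ p, ∀ a ∈ T.codim PY p, ∃ w ∈ T.codim PZ p, T.pull j a = T.pull j (T.pull ρ w)

/-- **Cycles on the powers of the generic hyperplane section.** For `q = (a, b)`, `a ≠ b`,
`δ q : Y₀^(ι \ {b}) ⟶ Y₀^ι` is the diagonal `y_b = y_a`. The statements `StPowSm`, `StPowDiag`,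
`StLoc`, `StPowRes` are hypotheses.

PROOF. `StPowRes` gives `w` such that `α - pull ρ w` vanishes on the complement
of the ranges of the `δ q` (`offD hY` is this complement, by `StPowDiag`; take for `j` the open
subscheme). `StLoc` with the closed immersions `δ q`, of codimension `m`:
`dim Y₀^ι = card ι * m`, `dim Y₀^(ι \ {b}) = (card ι - 1) * m`. `Y₀` is proper and smooth:
`V.proper₀`, `V.smooth₀`, `V.isSm₀`. -/
def StFil : Prop := ∀ (T : WeilTheory k₀ K) (k : Type) [Field k] [Algebra k₀ k]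
  (V : ProjVar k₀ k), Comp4 V → ∀ m : ℕ, V.n = m + 1 →
  ∀ (ι : Type) [Fintype ι] [DecidableEq ι] [Nonempty ι], Fintype.card ι ≤ 4 →
  ∀ (PZ : Sch k₀) (xZ : PZ ⟶ pt k₀ k) (pZ : ι → (PZ ⟶ V.X)), IsPow V.str xZ pZ →
  ∀ (PY : Sch k₀) (xY : PY ⟶ pt k₀ V.F) (pY : ι → (PY ⟶ V.Y₀)), IsPow V.y₀ xY pY →
  ∀ (ρ : PY ⟶ PZ), (∀ a, ρ ≫ pZ a = pY a ≫ V.r₀) →
  ∀ (PD : {q : ι × ι // q.1 ≠ q.2} → Sch k₀) (xD : ∀ q, PD q ⟶ pt k₀ V.F)
  (pD : ∀ q : {q : ι × ι // q.1 ≠ q.2}, {c // c ≠ q.1.2} → (PD q ⟶ V.Y₀)),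
  (∀ q, IsPow V.y₀ (xD q) (pD q)) → ∀ (δ : ∀ q, PD q ⟶ PY),
  (∀ q c, δ q ≫ pY c.1 = pD q c) → (∀ q, δ q ≫ pY q.1.2 = pD q ⟨q.1.1, q.2⟩) →
  ∀ p, ∀ α ∈ T.codim PY (p + m), ∃ w ∈ T.codim PZ (p + m),
    ∃ b : ∀ q, T.CH (PD q), (∀ q, b q ∈ T.codim (PD q) p) ∧
      α = T.pull ρ w + ∑ q, T.push (δ q) (b q)

end Chow

end Pool.Agent.Lib.MP_4ca46c_ag.NilGeo
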