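import Mathlib
import Pool.Agent.Lib.MP_4ca46c_ag.NilGeo.Spec1
import Pool.Agent.Lib.MP_4ca46c_ag.Hyp.Cube
import Pool.Agent.Lib.MP_4ca46c_ag.Std.Facts

/-!
# The cube of an embedding
-/

namespace Pool.Agent.Lib.MP_4ca46c_ag.NilGeo

open CategoryTheory Limits AlgebraicGeometry TensorProduct MvPolynomial
open Pool.Agent.Lib.MP_4ca46c_ag.Sign Pool.Agent.Lib.MP_4ca46c_ag.Hyp
open Pool.Agent.Lib.MP_4ca46c_ag.Std

attribute [local instance] MvPolynomial.gradedAlgebra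

section scheme

variable {k : Type} [Field k] {κ : Type}

theorem cube_val {T X : Scheme.{0}} (e : X ⟶ PS k κ) (e' : X ⟶ PS k ((κ × κ) × κ))
    (he' : e' = segre (segre e e) e) (t : T ⟶ X) (i : κ) (h : ⊤ ≤ (t ≫ e) ⁻¹ᵁ psD i) :
    ∃ h' : ⊤ ≤ (t ≫ e') ⁻¹ᵁ psD ((i, i), i), ∀ l : (κ × κ) × κ,
      (t ≫ e').appLE (psD ((i, i), i)) ⊤ h' (psf ((i, i), i) l) =
        (t ≫ e).appLE (psD i) ⊤ h (psf i l.1.1) * (t ≫ e).appLE (psD i) ⊤ h (psf i l.1.2) *
          (t ≫ e).appLE (psD i) ⊤ h (psf i l.2) := by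
  subst he'
  have h1 : ⊤ ≤ (t ≫ segre e e) ⁻¹ᵁ psD (i, i) := by
    rw [Scheme.Hom.comp_preimage, segre_pre]
    exact fun x hx => ⟨h hx, h hx⟩
  have h2 : ⊤ ≤ (t ≫ segre (segre e e) e) ⁻¹ᵁ psD ((i, i), i) := by
    rw [Scheme.Hom.comp_preimage, segre_pre]
    exact fun x hx => ⟨h1 hx, h hx⟩
  refine ⟨h2, fun l => ?_⟩
  rw [segre_app (segre e e) e t ((i, i), i) l ⊤ h2 h1 h, segre_app e e t (i, i) l.1 ⊤ h1 h h]

end scheme

section ov

variable (k₀ k : Type) [Field k₀] [Field k] [Algebra k₀ k] (κ κ' : Type)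

/-- The Segre embedding and hyperplanes (as in `tSegreGeo`). -/
theorem segO_geo [Fintype κ] [Fintype κ'] (i : κ) (a : κ') :
    (∃ (s : PSo k₀ k κ' ⟶ pullback (PSo.str k₀ k κ) (PSo.str k₀ k κ'))
      (p : pt k₀ k ⟶ PSo k₀ k κ) (u : PSo k₀ k {b // b ≠ a} ⟶ PSo k₀ k {b // b ≠ (i, a)}),
      s ≫ pullback.snd _ _ = 𝟙 _ ∧ s ≫ pullback.fst _ _ = PSo.str k₀ k κ' ≫ p ∧
      (∀ z, p.left z ∉ Set.range (PSo.hyp k₀ k κ i).left) ∧
      IsPullback u (PSo.hyp k₀ k κ' a) (PSo.hyp k₀ k (κ × κ') (i, a))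
        (s ≫ segO k₀ k κ κ')) ∧
    (∃ (s : PSo k₀ k κ ⟶ pullback (PSo.str k₀ k κ) (PSo.str k₀ k κ'))
      (p : pt k₀ k ⟶ PSo k₀ k κ') (u : PSo k₀ k {b // b ≠ i} ⟶ PSo k₀ k {b // b ≠ (i, a)}),
      s ≫ pullback.fst _ _ = 𝟙 _ ∧ s ≫ pullback.snd _ _ = PSo.str k₀ k κ ≫ p ∧
      (∀ z, p.left z ∉ Set.range (PSo.hyp k₀ k κ' a).left) ∧
      IsPullback u (PSo.hyp k₀ k κ i) (PSo.hyp k₀ k (κ × κ') (i, a))
        (s ≫ segO k₀ k κ κ')) := by
  refine ⟨?_, ?_⟩
  · obtain ⟨p, hp, hi, hr⟩ := geo_point k₀ k i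
    let s : PSo k₀ k κ' ⟶ pullback (PSo.str k₀ k κ) (PSo.str k₀ k κ') :=
      pullback.lift (PSo.str k₀ k κ' ≫ p) (𝟙 _) (by
        rw [Category.assoc, hp, Category.comp_id, Category.id_comp])
    have h1 : s ≫ pullback.fst _ _ = PSo.str k₀ k κ' ≫ p := pullback.lift_fst _ _ _
    have h2 : s ≫ pullback.snd _ _ = 𝟙 _ := pullback.lift_snd _ _ _
    have h3 := segO_left' s (PSo.str k₀ k κ' ≫ p).left (𝟙 (PS k κ')) (by rw [h1]) (by rw [h2]; rfl)
    have h4 : ⊤ ≤ (PSo.str k₀ k κ' ≫ p).left ⁻¹ᵁ psD i := fun x _ => hi (Set.mem_univ _)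
    obtain ⟨u, hu⟩ := segre_isPullback (PSo.str k₀ k κ' ≫ p).left (𝟙 (PS k κ')) h4 a
      (IsPullback.id_horiz (hypMap k a))
    obtain ⟨u', hu'⟩ := geo_exists (PSo.hyp k₀ k (κ × κ') (i, a)) (s ≫ segO k₀ k κ κ')
      (PSo.hyp k₀ k κ' a) (geo_congr h3.symm hu)
    exact ⟨s, p, u', h2, h1, hr, hu'⟩
  · obtain ⟨p, hp, hi, hr⟩ := geo_point k₀ k a
    let s : PSo k₀ k κ ⟶ pullback (PSo.str k₀ k κ) (PSo.str k₀ k κ') :=
      pullback.lift (𝟙 _) (PSo.str k₀ k κ ≫ p) (by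
        rw [Category.assoc, hp, Category.comp_id, Category.id_comp])
    have h1 : s ≫ pullback.fst _ _ = 𝟙 _ := pullback.lift_fst _ _ _
    have h2 : s ≫ pullback.snd _ _ = PSo.str k₀ k κ ≫ p := pullback.lift_snd _ _ _
    have h3 := segO_left' s (𝟙 (PS k κ)) (PSo.str k₀ k κ ≫ p).left (by rw [h1]; rfl) (by rw [h2])
    have h4 : ⊤ ≤ (PSo.str k₀ k κ ≫ p).left ⁻¹ᵁ psD a := fun x _ => hi (Set.mem_univ _)
    obtain ⟨u, hu⟩ := segre_isPullback' (𝟙 (PS k κ)) (PSo.str k₀ k κ ≫ p).left h4 i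
      (IsPullback.id_horiz (hypMap k i))
    obtain ⟨u', hu'⟩ := geo_exists (PSo.hyp k₀ k (κ × κ') (i, a)) (s ≫ segO k₀ k κ κ')
      (PSo.hyp k₀ k κ i) (geo_congr h3.symm hu)
    exact ⟨s, p, u', h1, h2, hr, hu'⟩

variable {k₀ k κ κ'} {X : Sch k₀} (e : X ⟶ PSo k₀ k κ) (e' : X ⟶ PSo k₀ k κ')
  (h : e ≫ PSo.str k₀ k κ = e' ≫ PSo.str k₀ k κ')

/-- The morphism to the product. -/
noncomputable def two : X ⟶ PSo k₀ k (κ × κ') := pullback.lift e e' h ≫ segO k₀ k κ κ'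

theorem two_str : two e e' h ≫ PSo.str k₀ k (κ × κ') = e ≫ PSo.str k₀ k κ := by
  rw [two, Category.assoc, segO_str, ← Category.assoc, pullback.lift_fst]

theorem two_left : (two e e' h).left = segre e.left e'.left :=
  segO_left (pullback.lift e e' h) e e' (pullback.lift_fst _ _ _) (pullback.lift_snd _ _ _)

theorem two_closed [Finite κ] [Finite κ'] (hc : IsClosedImmersion e'.left) :
    IsClosedImmersion (two e e' h).left := by
  have pb : IsPullback (pullback.fst (PSo.str k₀ k κ) (PSo.str k₀ k κ')).left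
      (pullback.snd (PSo.str k₀ k κ) (PSo.str k₀ k κ')).left (psStr k κ) (psStr k κ') :=
    (IsPullback.of_hasPullback (PSo.str k₀ k κ) (PSo.str k₀ k κ')).map (Over.forget _)
  have i1 : IsProper (psStr k κ) := inferInstance
  have h1 : IsProper (pullback.snd (PSo.str k₀ k κ) (PSo.str k₀ k κ')).left :=
    MorphismProperty.of_isPullback (P := @IsProper) pb i1
  have h2 : (pullback.lift e e' h).left ≫
      (pullback.snd (PSo.str k₀ k κ) (PSo.str k₀ k κ')).left = e'.left := by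
    rw [← Over.comp_left, pullback.lift_snd]
  have h3 : IsClosedImmersion ((pullback.lift e e' h).left ≫
      (pullback.snd (PSo.str k₀ k κ) (PSo.str k₀ k κ')).left) := by rw [h2]; exact hc
  have h4 : IsClosedImmersion (pullback.lift e e' h).left :=
    IsClosedImmersion.of_comp _ (pullback.snd (PSo.str k₀ k κ) (PSo.str k₀ k κ')).left
  have h5 : IsClosedImmersion (segO k₀ k κ κ').left := segO_closed k₀ k κ κ'
  have h6 : (two e e' h).left = (pullback.lift e e' h).left ≫ (segO k₀ k κ κ').left := rfl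
  rw [h6]
  infer_instance

end ov

section ProjVar

variable {k₀ : Type} [Field k₀] {k : Type} [Field k] [Algebra k₀ k]

/-- The square of the embedding. -/
noncomputable def sqEmb (V : ProjVar k₀ k) : V.X ⟶ PSo k₀ k (V.κ × V.κ) := two V.emb V.emb rfl

theorem sqEmb_str (V : ProjVar k₀ k) : sqEmb V ≫ PSo.str k₀ k (V.κ × V.κ) = V.str :=
  (two_str _ _ _).trans V.emb_str

/-- The cube of the embedding. -/
noncomputable def cubeEmb (V : ProjVar k₀ k) : V.X ⟶ PSo k₀ k ((V.κ × V.κ) × V.κ) :=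
  two (sqEmb V) V.emb ((sqEmb_str V).trans V.emb_str.symm)

theorem cubeEmb_str (V : ProjVar k₀ k) :
    cubeEmb V ≫ PSo.str k₀ k ((V.κ × V.κ) × V.κ) = V.str :=
  (two_str _ _ _).trans (sqEmb_str V)

end ProjVar

end Pool.Agent.Lib.MP_4ca46c_ag.NilGeo

namespace Pool.Agent.Lib.MP_4ca46c_ag.Std.ProjVar

open CategoryTheory Limits AlgebraicGeometry
open Pool.Agent.Lib.MP_4ca46c_ag.Sign Pool.Agent.Lib.MP_4ca46c_ag.Hyp
open Pool.Agent.Lib.MP_4ca46c_ag.NilGeo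

variable {k₀ : Type} [Field k₀] {k : Type} [Field k] [Algebra k₀ k]

/-- The variety `V` with the cube of its embedding. -/
noncomputable def cube (V : ProjVar k₀ k) : ProjVar k₀ k where
  X := V.X
  str := V.str
  n := V.n
  isVar := V.isVar
  κ := (V.κ × V.κ) × V.κ
  i := ((V.i, V.i), V.i)
  emb := cubeEmb V
  closed := two_closed _ _ _ V.closed
  emb_str := cubeEmb_str V

end Pool.Agent.Lib.MP_4ca46c_ag.Std.ProjVar

namespace Pool.Agent.Lib.MP_4ca46c_ag.NilGeo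

open CategoryTheory Limits AlgebraicGeometry TensorProduct MvPolynomial
open Pool.Agent.Lib.MP_4ca46c_ag.Sign Pool.Agent.Lib.MP_4ca46c_ag.Hyp
open Pool.Agent.Lib.MP_4ca46c_ag.Std

attribute [local instance] MvPolynomial.gradedAlgebra

variable {k₀ : Type} [Field k₀] {k : Type} [Field k] [Algebra k₀ k]

theorem cubeEmb_left (V : ProjVar k₀ k) :
    (cubeEmb V).left = segre (segre V.emb.left V.emb.left) V.emb.left := by
  rw [cubeEmb, two_left, sqEmb, two_left]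

theorem isCube (V : ProjVar k₀ k) : IsCube (hC V.C) (hC V.cube.C) := by
  intro T t i h
  obtain ⟨h', H⟩ := cube_val V.emb.left (cubeEmb V).left (cubeEmb_left V) t i h
  refine ⟨h', fun l => ?_⟩
  have e1 : ∀ l, (hC V.C).val t i h l = (t ≫ V.emb.left).appLE (psD i) ⊤ h (psf i l) :=
    fun l => PreCoord.comap_appLE (PreCoord.ps k V.κ) V.emb.left t i l ⊤ h h
  have e2 : (hC V.cube.C).val t ((i, i), i) h' l =
      (t ≫ (cubeEmb V).left).appLE (psD ((i, i), i)) ⊤ h' (psf ((i, i), i) l) :=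
    PreCoord.comap_appLE (PreCoord.ps k _) (cubeEmb V).left t ((i, i), i) l ⊤ h' h'
  refine e2.trans ?_
  rw [e1, e1, e1]
  exact H l

theorem comp4_cube (V : ProjVar k₀ k) : Comp4 V.cube := by
  intro ι _ _ hι U z hz hne W f c h1 h2 ex un
  classical
  have w : ∀ {X Y : Sch k₀} {f g : X ⟶ Y}, f = g → f.left = g.left := fun h => by rw [h]
  refine bundle_cube (isCube V) hι (fun a => (z a).left) (fun a b => w (hz a b)) hne f.left
    (fun a => (c a).left) (fun a => w (h1 a)) (fun a b => ?_) ?_ ?_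
  · exact (((hC V.cube.C).toA_iff _ _).1 (w (h2 a b))).2
  · intro T u t ht₁ ht₃
    let X : Sch k₀ := Over.mk (u ≫ U.hom)
    let x : X ⟶ U := Over.homMk u rfl
    have hx : ∀ a, t a ≫ (Fam V.cube.C).hom = u ≫ U.hom := fun a =>
      (congrArg (fun φ => t a ≫ φ) (Over.w (hZ V.cube.C))).symm.trans
        ((Category.assoc _ _ _).symm.trans
        ((congrArg (fun φ => φ ≫ V.X.hom) (ht₁ a)).trans ((Category.assoc _ _ _).trans (congrArg
          (fun φ => u ≫ φ) (Over.w (z a))))))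
    let x' : ι → (X ⟶ Fam V.cube.C) := fun a => Over.homMk (t a) (hx a)
    have e₁ : ∀ a, x' a ≫ hZ V.cube.C = x ≫ z a := fun a => by
      apply Over.OverMorphism.ext
      exact ht₁ a
    have e₃ : ∀ a b, x' a ≫ hB V.cube.C = x' b ≫ hB V.cube.C := fun a b => by
      apply Over.OverMorphism.ext
      refine ((hC V.cube.C).toA_iff (t a) (t b)).2 ⟨?_, ht₃ a b⟩
      have hzz : z a ≫ V.str = z b ≫ V.str := hz a b
      have h : (x' a ≫ hZ V.cube.C) ≫ V.str = (x' b ≫ hZ V.cube.C) ≫ V.str := by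
        rw [e₁, e₁, Category.assoc, Category.assoc, hzz]
      exact w h
    obtain ⟨l, hl₁, hl₂⟩ := ex X x x' e₁ e₃
    exact ⟨l.left, w hl₁, fun a => w (hl₂ a)⟩
  · intro T t t' h3 h4
    have h0 : t' ≫ W.hom = t ≫ W.hom := by
      rw [← Over.w f, ← Category.assoc, ← Category.assoc, h3]
    let X : Sch k₀ := Over.mk (t ≫ W.hom)
    let x : X ⟶ W := Over.homMk t rfl
    let x' : X ⟶ W := Over.homMk t' h0
    have e : x = x' := un X x x' (Over.OverMorphism.ext h3) fun a =>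
      Over.OverMorphism.ext (h4 a)
    exact w e

section class_

variable [IsAlgClosed k] {K : Type} [Field K] {T : WeilTheory k₀ K} (E : Extra T)

include E in
theorem pull_two {κ κ' : Type} [Fintype κ] [Nontrivial κ] [Fintype κ'] [Nontrivial κ']
    {X : Sch k₀} (hX : Sm X) (e : X ⟶ PSo k₀ k κ) (e' : X ⟶ PSo k₀ k κ')
    (h : e ≫ PSo.str k₀ k κ = e' ≫ PSo.str k₀ k κ') (i : κ) (a : κ') :
    T.pull (two e e' h) (hypClass T k (i, a)) =
      T.pull e (hypClass T k i) + T.pull e' (hypClass T k a) := by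
  obtain ⟨M, hM⟩ := exists_card κ
  obtain ⟨N, hN⟩ := exists_card κ'
  obtain ⟨P, hP⟩ := exists_card (κ × κ')
  have h1 := tPS k₀ k κ (M + 1) hM
  have h2 := tPS k₀ k κ' (N + 1) hN
  have h3 := tPS k₀ k (κ × κ') (P + 1) hP
  have h12 := Var.isVar_prod h1 h2
  have key := fSegre k₀ K T E k κ κ' i a (segO k₀ k κ κ') (segO_str k₀ k κ κ')
    (segO_geo k₀ k κ κ' i a).1 (segO_geo k₀ k κ κ' i a).2
  rw [two, T.pull_comp _ _ hX h12.sm h3.sm, key, map_add, ← T.pull_comp _ _ hX h12.sm h1.sm,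
    ← T.pull_comp _ _ hX h12.sm h2.sm, pullback.lift_fst, pullback.lift_snd]

include E in
theorem h_cube (V : ProjVar k₀ k) : V.cube.h T = (3 : ℚ) • V.h T := by
  have h1 := pull_two E V.isVar.sm (sqEmb V) V.emb ((sqEmb_str V).trans V.emb_str.symm)
    (V.i, V.i) V.i
  have h2 := pull_two E V.isVar.sm V.emb V.emb rfl V.i V.i
  have h3 : V.cube.h T = T.pull (sqEmb V) (hypClass T k (V.i, V.i)) +
      T.pull V.emb (hypClass T k V.i) := h1
  have h4 : T.pull (sqEmb V) (hypClass T k (V.i, V.i)) = T.pull V.emb (hypClass T k V.i) +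
      T.pull V.emb (hypClass T k V.i) := h2
  rw [h3, h4, ProjVar.h]
  have h5 : ∀ a : T.CH V.X, a + a + a = (3 : ℚ) • a := fun a => by
    rw [show (3 : ℚ) = 1 + 1 + 1 by norm_num, add_smul, add_smul, one_smul]
  exact h5 _

end class_

end Pool.Agent.Lib.MP_4ca46c_ag.NilGeo
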