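import Pool.Agent.Lib.MP_4ca46c_ag.NilGeo.Spec2
import Pool.Agent.Lib.MP_4ca46c_ag.Std.AffSm

/-!
# Cycles on `Z × Z` come from `V × V`
-/

namespace Pool.Agent.Lib.MP_4ca46c_ag.NilGeo

open CategoryTheory Limits AlgebraicGeometry TensorProduct MonoidalCategory
  CartesianMonoidalCategory
open Pool.Agent.Lib.MP_4ca46c_ag.Sign Pool.Agent.Lib.MP_4ca46c_ag.Hyp
open Pool.Agent.Lib.MP_4ca46c_ag.Std Pool.Agent.Lib.MP_4ca46c_ag.Nil
open Pool.Agent.Lib.MP_4ca46c_ag.Nil.PreWeil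

variable {k₀ : Type} [Field k₀] {k : Type} [Field k] [Algebra k₀ k] (V : ProjVar k₀ k)

/-- The structure morphism of `V × V`. -/
noncomputable abbrev descg_x : pullback V.str V.str ⟶ pt k₀ k :=
  pullback.fst V.str V.str ≫ V.str

theorem descg_sq : IsPullback (uZZ V) (gZ V ⊗ gZ V).str (descg_x V) (bcS k₀ k V.F) :=
  isPullback_prod (bc_sq V.F (pv V)) (bc_sq V.F (pv V))

theorem descg_g : ∃ g : (gZ V ⊗ gZ V).X ⟶ Aff V.κ (pullback V.str V.str),
    g ≫ Aff.pr V.κ (pullback V.str V.str) = uZZ V ∧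
    IsPullback g (gZ V ⊗ gZ V).str (Aff.toSp V.κ (descg_x V)) (spG k₀ V.R V.F) := by
  have hA := Aff.isPullback_toSp V.κ (descg_x V)
  have h0 := descg_sq V
  have hw : ((gZ V ⊗ gZ V).str ≫ spG k₀ V.R V.F) ≫ spB k₀ k (MvPolynomial V.κ k) =
      uZZ V ≫ descg_x V := by
    rw [Category.assoc, spG_spB]
    exact h0.w.symm
  refine ⟨hA.lift _ _ hw, hA.lift_snd _ _ _, ?_⟩
  have h1 : IsPullback (hA.lift _ _ hw ≫ Aff.pr V.κ (pullback V.str V.str))
      (gZ V ⊗ gZ V).str (descg_x V)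
      (spG k₀ V.R V.F ≫ spB k₀ k (MvPolynomial V.κ k)) := by
    rw [hA.lift_snd, spG_spB]
    exact h0
  exact IsPullback.of_right h1 (hA.lift_fst _ _ _) hA.flip

theorem tDescG (k₀ K : Type) [Field k₀] [Field K] [CharZero K] : StDescG k₀ K := by
  intro T k _ _ V c a ha
  obtain ⟨g, hg, hsq⟩ := descg_g V
  obtain ⟨-, sP, dP⟩ := sms_prod V.isVar.smooth V.isVar.proper
  obtain ⟨N, hN⟩ : ∃ N, Fintype.card V.κ = N + 1 := by
    have h1 : 0 < Fintype.card V.κ := Fintype.card_pos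
    exact ⟨Fintype.card V.κ - 1, by omega⟩
  obtain ⟨bA, sA, -, -⟩ := tAffSm k₀ k (pullback V.str V.str) (descg_x V) V.κ (V.n + V.n) N
    sP dP hN
  have s1 : Sm (gZ V ⊗ gZ V).X := sms_sm (gZ V ⊗ gZ V).isVar
  have s2 : Sm (pullback V.str V.str) := ⟨_, _, _, _, sP⟩
  have s3 : Sm (Aff V.κ (pullback V.str V.str)) := ⟨_, _, _, _, sA⟩
  have h := (hsq.map (Over.forget _)).flip
  have g1 : Flat g.left :=
    MorphismProperty.of_isPullback (P := @Flat) h (spG_flat (k₀ := k₀) V.R V.F)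
  have g2 : Mono g.left :=
    MorphismProperty.of_isPullback (P := MorphismProperty.monomorphisms Scheme) h
      (spG_mono (k₀ := k₀) V.R V.F)
  have g3 : QuasiCompact g.left :=
    MorphismProperty.of_isPullback (P := @QuasiCompact) h (spG_qc (k₀ := k₀) V.R V.F)
  obtain ⟨b, hb, e1⟩ := T.pull_surjective_of_mono g s1 s3 g1 g2 g3 c a ha
  obtain ⟨w, hw, e2⟩ := T.pull_surjective_of_affineBundle (Aff.pr V.κ (pullback V.str V.str))
    s3 s2 bA c b hb
  refine ⟨w, hw, ?_⟩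
  rw [← hg, T.pull_comp g (Aff.pr V.κ (pullback V.str V.str)) s1 s3 s2, e2, e1]

end Pool.Agent.Lib.MP_4ca46c_ag.NilGeo
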