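import Pool.Agent.Lib.MP_4ca46c_ag.NilGeo.Spec2

/-!
# The classes of the diagonals
-/

set_option autoImplicit false

namespace Pool.Agent.Lib.MP_4ca46c_ag.NilGeo

open CategoryTheory Limits AlgebraicGeometry TensorProduct MonoidalCategory
  CartesianMonoidalCategory
open Pool.Agent.Lib.MP_4ca46c_ag.Sign Pool.Agent.Lib.MP_4ca46c_ag.Hyp
open Pool.Agent.Lib.MP_4ca46c_ag.Std Pool.Agent.Lib.MP_4ca46c_ag.Nil
open Pool.Agent.Lib.MP_4ca46c_ag.Nil.PreWeil

universe v u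

section

variable {K : Type} [Field K] [CharZero K] {𝒱 : Type u} [Category.{v} 𝒱]
  [CartesianMonoidalCategory 𝒱] (W : PreWeil K 𝒱) (Y : 𝒱)

theorem dg_graph_alg : W.graph (𝟙 Y) ∈ W.Alg (Y ⊗ Y) (W.dim Y) :=
  W.push_alg _ (W.alg_one Y) (by rw [W.dim_tensor]; omega)

theorem dg_graph_tr (z : W.H (Y ⊗ Y)) :
    W.tr (Y ⊗ Y) (W.graph (𝟙 Y) * z) = W.tr Y (W.pull (lift (𝟙 Y) (𝟙 Y)) z) := by
  rw [graph, push_spec, one_mul]

theorem dg_graph_comm (z : W.H (Y ⊗ Y)) : W.graph (𝟙 Y) * z = z * W.graph (𝟙 Y) :=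
  W.Ev_comm (W.Ev_of_gr (W.alg_gr (dg_graph_alg W Y)) ⟨W.dim Y, by ring⟩) z

/-- The exchange of the factors. -/
def dg_swap : Y ⊗ Y ≅ Y ⊗ Y where
  hom := lift (snd Y Y) (fst Y Y)
  inv := lift (snd Y Y) (fst Y Y)
  hom_inv_id := by
    ext
    · rw [Category.assoc, lift_fst, lift_snd, Category.id_comp]
    · rw [Category.assoc, lift_snd, lift_fst, Category.id_comp]
  inv_hom_id := by
    ext
    · rw [Category.assoc, lift_fst, lift_snd, Category.id_comp]
    · rw [Category.assoc, lift_snd, lift_fst, Category.id_comp]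

theorem dg_graph_swap : W.pull (lift (snd Y Y) (fst Y Y)) (W.graph (𝟙 Y)) = W.graph (𝟙 Y) := by
  refine W.ext_tr fun y => ?_
  have h1 : W.pull (lift (snd Y Y) (fst Y Y)) (W.graph (𝟙 Y)) * y =
      W.pull (dg_swap Y).hom (W.graph (𝟙 Y) * W.pull (dg_swap Y).inv y) := by
    rw [map_mul, ← W.pull_comp, Iso.hom_inv_id, W.pull_id]
    rfl
  have h2 : lift (𝟙 Y) (𝟙 Y) ≫ (dg_swap Y).inv = lift (𝟙 Y) (𝟙 Y) := by
    change lift (𝟙 Y) (𝟙 Y) ≫ lift (snd Y Y) (fst Y Y) = _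
    rw [comp_lift, lift_fst, lift_snd]
  rw [h1, W.tr_iso (dg_swap Y), dg_graph_tr, dg_graph_tr, ← W.pull_comp, h2]

theorem dg_graph_move (v : W.H Y) :
    W.graph (𝟙 Y) * W.pull (snd Y Y) v = W.graph (𝟙 Y) * W.pull (fst Y Y) v := by
  refine W.ext_tr fun y => ?_
  rw [mul_assoc, mul_assoc, dg_graph_tr, dg_graph_tr, map_mul (W.pull (lift (𝟙 Y) (𝟙 Y))),
    map_mul (W.pull (lift (𝟙 Y) (𝟙 Y))), ← W.pull_comp, ← W.pull_comp, lift_fst, lift_snd]

theorem dg_push_fst_tm (p q : W.H Y) :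
    W.push (fst Y Y) (W.tm p q) = W.tr Y q • p := by
  refine W.push_eq _ _ _ fun y => ?_
  rw [tm, W.tr_snd, smul_mul_assoc, map_smul, smul_eq_mul, mul_comm]

theorem dg_push_fst_graph : W.push (fst Y Y) (W.graph (𝟙 Y)) = 1 := by
  refine W.push_eq _ _ _ fun y => ?_
  rw [dg_graph_tr, ← W.pull_comp, lift_fst, W.pull_id, one_mul]

variable {J : Type} [Finite J]

theorem dg_two (a' : J) (x : W.H (pw Y J)) (w : W.H (Y ⊗ Y)) :
    W.tr (pw Y (J ⊕ Unit)) (W.pull (lift (pj Y (Sum.inl a')) (pj Y (Sum.inr ()))) w *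
      W.pull (pm Y Sum.inl) x) =
    W.tr (pw Y J) (W.pull (pj Y a') (W.push (fst Y Y) w) * x) := by
  refine W.ind_tm (P := fun w => W.tr (pw Y (J ⊕ Unit))
      (W.pull (lift (pj Y (Sum.inl a')) (pj Y (Sum.inr ()))) w * W.pull (pm Y Sum.inl) x) =
      W.tr (pw Y J) (W.pull (pj Y a') (W.push (fst Y Y) w) * x)) w ?_ (fun p q => ?_)
    (fun u v hu hv => ?_)
  · simp only [map_zero, zero_mul]
  · have h1 : W.pull (pj Y (Sum.inl a' : J ⊕ Unit)) p =
        W.pull (pm Y Sum.inl) (W.pull (pj Y a') p) := by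
      rw [← W.pull_comp, pm_pj]
    have h2 : W.pull (pj Y (Sum.inr () : J ⊕ Unit)) q =
        W.pull (pm Y Sum.inr) (W.pull (pj Y ()) q) := by
      rw [← W.pull_comp, pm_pj]
    have h3 : W.tr _ (W.pull (pj Y ()) q) = W.tr Y q := W.tr_iso (pwUnit Y) q
    rw [W.pull_tm, h1, h2, W.tr_pwSum, h3, dg_push_fst_tm, map_smul, smul_mul_assoc, map_smul,
      smul_eq_mul, mul_comm]
  · simp only [map_add, add_mul, hu, hv]

theorem dg_sum (a' : J) (y : W.H (pw Y (J ⊕ Unit))) :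
    W.tr (pw Y (J ⊕ Unit)) (W.dg Y (Sum.inl a') (Sum.inr ()) * y) =
      W.tr (pw Y J) (W.pull (pm Y (Sum.elim id fun _ => a')) y) := by
  refine W.ind_sum Y (P := fun y => W.tr (pw Y (J ⊕ Unit))
      (W.dg Y (Sum.inl a') (Sum.inr ()) * y) =
      W.tr (pw Y J) (W.pull (pm Y (Sum.elim id fun _ => a')) y)) y ?_ (fun u v => ?_)
    (fun u v hu hv => ?_)
  · simp only [map_zero, mul_zero]
  · obtain ⟨v₀, rfl⟩ : ∃ v₀ : W.H Y, W.pull (pj Y ()) v₀ = v := by
      refine ⟨W.pull (pwUnit Y).inv v, ?_⟩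
      have h := W.pull_comp (pwUnit Y).hom (pwUnit Y).inv v
      rw [Iso.hom_inv_id, W.pull_id] at h
      exact h.symm
    have h1 : pm Y (Sum.elim id fun _ : Unit => a') ≫ pm Y (Sum.inl : J → J ⊕ Unit) = 𝟙 _ := by
      rw [pm_comp, ← pm_id]
      rfl
    have h2 : pm Y (Sum.elim id fun _ : Unit => a') ≫ pm Y (Sum.inr : Unit → J ⊕ Unit) ≫
        pj Y () = pj Y a' := by
      rw [pm_pj, pm_pj]
      rfl
    have h3 : W.pull (pm Y (Sum.inr : Unit → J ⊕ Unit)) (W.pull (pj Y ()) v₀) =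
        W.pull (lift (pj Y (Sum.inl a')) (pj Y (Sum.inr ()))) (W.pull (snd Y Y) v₀) := by
      rw [← W.pull_comp, ← W.pull_comp, lift_snd, pm_pj]
    have h4 : W.pull (lift (pj Y (Sum.inl a' : J ⊕ Unit)) (pj Y (Sum.inr ())))
        (W.pull (fst Y Y) v₀) = W.pull (pm Y Sum.inl) (W.pull (pj Y a') v₀) := by
      rw [← W.pull_comp, ← W.pull_comp, lift_fst, pm_pj]
    have h5 : W.dg Y (Sum.inl a') (Sum.inr ()) * W.pull (pm Y Sum.inl) u =
        W.pull (pm Y Sum.inl) u * W.dg Y (Sum.inl a' : J ⊕ Unit) (Sum.inr ()) :=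
      W.Ev_comm (W.Ev_of_gr (W.alg_gr (W.alg_pull _ (dg_graph_alg W Y))) ⟨W.dim Y, by ring⟩) _
    have h6 : W.dg Y (Sum.inl a' : J ⊕ Unit) (Sum.inr ()) *
        (W.pull (pm Y Sum.inl) u * W.pull (pm Y Sum.inr) (W.pull (pj Y ()) v₀)) =
        W.pull (CartesianMonoidalCategory.lift (pj Y (Sum.inl a')) (pj Y (Sum.inr ())))
          (W.graph (𝟙 Y)) * W.pull (pm Y Sum.inl) (u * W.pull (pj Y a') v₀) := by
      rw [← mul_assoc, h5, mul_assoc, h3, dg,
        ← map_mul (W.pull (CartesianMonoidalCategory.lift (pj Y (Sum.inl a')) (pj Y (Sum.inr ())))),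
        dg_graph_move,
        map_mul (W.pull (CartesianMonoidalCategory.lift (pj Y (Sum.inl a')) (pj Y (Sum.inr ())))),
        h4, ← mul_assoc, ← dg, ← h5, dg, mul_assoc, ← map_mul (W.pull (pm Y Sum.inl))]
    rw [h6, dg_two, dg_push_fst_graph, map_one, one_mul,
      map_mul (W.pull (pm Y (Sum.elim id fun _ : Unit => a'))), ← W.pull_comp, h1, W.pull_id,
      ← W.pull_comp, ← W.pull_comp, Category.assoc, h2]
  · simp only [map_add, mul_add, hu, hv]

end

theorem tDg : StDg := by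
  intro K _ _ 𝒱 _ _ W Y ι _ a b
  refine ⟨fun h => ?_, ?_, W.alg_pull _ (dg_graph_alg W Y)⟩
  · classical
    let e : ι ≃ {c // c ≠ b} ⊕ Unit :=
      { toFun := fun c => if hc : c = b then Sum.inr () else Sum.inl ⟨c, hc⟩
        invFun := Sum.elim (fun c => c.1) (fun _ => b)
        left_inv := by
          intro c
          by_cases hc : c = b
          · simp only [dif_pos hc, Sum.elim_inr]
            exact hc.symm
          · simp only [dif_neg hc, Sum.elim_inl]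
        right_inv := by
          rintro (c | c)
          · simp only [Sum.elim_inl, dif_neg c.2]
          · simp only [Sum.elim_inr, dif_pos] }
    have ea : e a = Sum.inl ⟨a, h⟩ := dif_neg h
    have eb : e b = Sum.inr () := dif_pos rfl
    refine W.push_eq _ _ _ fun y => ?_
    rw [one_mul, ← W.tr_iso (pmIso Y e), map_mul]
    have h1 : W.pull (pmIso Y e).hom (W.dg Y a b) = W.dg Y (Sum.inl ⟨a, h⟩) (Sum.inr ()) := by
      have h3 : (pmIso Y e).hom ≫ CartesianMonoidalCategory.lift (pj Y a) (pj Y b) =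
          CartesianMonoidalCategory.lift (pj Y (Sum.inl ⟨a, h⟩)) (pj Y (Sum.inr ())) := by
        change pm Y e ≫ CartesianMonoidalCategory.lift (pj Y a) (pj Y b) = _
        rw [comp_lift, pm_pj, pm_pj, ea, eb]
      rw [dg, dg, ← W.pull_comp, h3]
    rw [h1, dg_sum, ← W.pull_comp]
    have h4 : pm Y (Sum.elim id fun _ : Unit => (⟨a, h⟩ : {c // c ≠ b})) ≫ (pmIso Y e).hom =
        pm Y (dl a b h) := by
      change pm Y _ ≫ pm Y e = _
      rw [pm_comp]
      refine congrArg (pm Y) ?_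
      funext c
      by_cases hc : c = b
      · subst hc
        rw [Function.comp_apply, eb, dl, dif_pos rfl]
        rfl
      · have ec : e c = Sum.inl ⟨c, hc⟩ := dif_neg hc
        rw [Function.comp_apply, ec, dl, dif_neg hc]
        rfl
    rw [h4]
  · have h1 : (lift (pj Y b) (pj Y a) : pw Y ι ⟶ Y ⊗ Y) =
        lift (pj Y a) (pj Y b) ≫ lift (snd Y Y) (fst Y Y) := by
      rw [comp_lift, lift_fst, lift_snd]
    rw [dg, dg, h1, W.pull_comp, dg_graph_swap]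

end Pool.Agent.Lib.MP_4ca46c_ag.NilGeo
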