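import Mathlib
import Pool.Agent.Lib.MP_4ca46c_ag.Sign.ToWeil
import Pool.Agent.Lib.MP_4ca46c_ag.Sign.SmS
import Pool.Agent.Lib.MP_4ca46c_ag.Std.GenV

/-!
# The category of smooth projective varieties over a field `F`, with their base change to the
algebraic closure `L`
-/

namespace Pool.Agent.Lib.MP_4ca46c_ag.NilGeo

open CategoryTheory Limits AlgebraicGeometry TensorProduct MonoidalCategory
  CartesianMonoidalCategory
open Pool.Agent.Lib.MP_4ca46c_ag.Sign Pool.Agent.Lib.MP_4ca46c_ag.Hyp
open Pool.Agent.Lib.MP_4ca46c_ag.Std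

variable {k₀ : Type} [Field k₀]

/-- `X` has a closed immersion in a projective space over `L`. -/
def IsProj {L : Type} [Field L] [Algebra k₀ L] {X : Sch k₀} (x : X ⟶ pt k₀ L) : Prop :=
  ∃ (κ : Type) (_ : Fintype κ) (_ : Nontrivial κ) (e : X ⟶ PSo k₀ L κ),
    IsClosedImmersion e.left ∧ e ≫ PSo.str k₀ L κ = x

/-- The projective variety. -/
noncomputable def IsProj.toProj {L : Type} [Field L] [Algebra k₀ L] {X : Sch k₀}
    {x : X ⟶ pt k₀ L} (h : IsProj x) {n : ℕ} (hx : IsVar x n) : ProjVar k₀ L :=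
  { X := X
    str := x
    n := n
    isVar := hx
    κ := h.choose
    fintype := h.choose_spec.choose
    nontrivial := h.choose_spec.choose_spec.choose
    i := h.choose_spec.choose_spec.choose.to_nonempty.some
    emb := h.choose_spec.choose_spec.choose_spec.choose
    closed := h.choose_spec.choose_spec.choose_spec.choose_spec.1
    emb_str := h.choose_spec.choose_spec.choose_spec.choose_spec.2 }

theorem ProjVar.isProj {L : Type} [Field L] [Algebra k₀ L] (V : ProjVar k₀ L) : IsProj V.str :=
  ⟨V.κ, inferInstance, inferInstance, V.emb, V.closed, V.emb_str⟩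

theorem IsProj.prod {L : Type} [Field L] [Algebra k₀ L] [IsAlgClosed L] {X Y : Sch k₀}
    {x : X ⟶ pt k₀ L} {y : Y ⟶ pt k₀ L} (hx : IsProj x) (hy : IsProj y) {m n : ℕ}
    (hx' : IsVar x m) (hy' : IsVar y n) : IsProj (pullback.fst x y ≫ x) :=
  ProjVar.isProj ((hx.toProj hx').prod (hy.toProj hy') tSegreGeo)

theorem isProj_pt {L : Type} [Field L] [Algebra k₀ L] : IsProj (𝟙 (pt k₀ L)) := by
  obtain ⟨p, hp, -, -⟩ := geo_point k₀ L (0 : Fin 2)
  refine ⟨Fin 2, inferInstance, inferInstance, p, ?_, hp⟩
  have h1 : IsClosedImmersion (p.left ≫ (PSo.str k₀ L (Fin 2)).left) := by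
    rw [← Over.comp_left, hp, Over.id_left]
    infer_instance
  have h2 : IsSeparated (PSo.str k₀ L (Fin 2)).left := inferInstanceAs (IsSeparated (psStr L _))
  exact IsClosedImmersion.of_comp p.left (PSo.str k₀ L (Fin 2)).left

/-- The product of two cartesian squares. -/
theorem isPullback_prod {C : Type*} [Category C] [HasPullbacks C] {X Y S X' Y' S' : C}
    {x : X ⟶ S} {y : Y ⟶ S} {x' : X' ⟶ S'} {y' : Y' ⟶ S'} {g : X' ⟶ X} {h : Y' ⟶ Y} {φ : S' ⟶ S}
    (hx : IsPullback g x' x φ) (hy : IsPullback h y' y φ) :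
    IsPullback (pullback.map x' y' x y g h φ hx.w.symm hy.w.symm)
      (pullback.fst x' y' ≫ x') (pullback.fst x y ≫ x) φ := by
  refine ⟨⟨?_⟩, ⟨PullbackCone.IsLimit.mk _ (fun s => pullback.lift
    (hx.lift (s.fst ≫ pullback.fst x y) s.snd (by rw [Category.assoc, s.condition]))
    (hy.lift (s.fst ≫ pullback.snd x y) s.snd
      (by rw [Category.assoc, ← pullback.condition, s.condition]))
    (by rw [hx.lift_snd, hy.lift_snd])) ?_ ?_ ?_⟩⟩
  · rw [pullback.lift_fst_assoc, Category.assoc, Category.assoc, hx.w]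
  · intro s
    apply pullback.hom_ext
    · rw [Category.assoc, pullback.lift_fst, pullback.lift_fst_assoc, hx.lift_fst]
    · rw [Category.assoc, pullback.lift_snd, pullback.lift_snd_assoc, hy.lift_fst]
  · intro s
    rw [pullback.lift_fst_assoc, hx.lift_snd]
  · intro s m h1 h2
    apply pullback.hom_ext
    · rw [pullback.lift_fst]
      apply hx.hom_ext
      · rw [hx.lift_fst, ← h1, Category.assoc, Category.assoc, pullback.lift_fst]
      · rw [hx.lift_snd, ← h2, Category.assoc]
    · rw [pullback.lift_snd]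
      apply hy.hom_ext
      · rw [hy.lift_fst, ← h1, Category.assoc, Category.assoc, pullback.lift_snd]
      · rw [hy.lift_snd, ← h2, Category.assoc, ← pullback.condition]

/-- Smooth projective geometrically connected varieties over `F`, with a base change to `L`. -/
structure FVar (k₀ F L : Type) [Field k₀] [Field F] [Algebra k₀ F] [Field L] [Algebra k₀ L]
    [Algebra F L] [IsScalarTower k₀ F L] where
  X : Sch k₀
  str : X ⟶ pt k₀ F
  dim : ℕ
  smooth : SmoothOfRelativeDimension dim str.left
  proper : IsProper str.left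
  X' : Sch k₀
  str' : X' ⟶ pt k₀ L
  g : X' ⟶ X
  isPullback : IsPullback g str' str (ptMap k₀ (IsScalarTower.toAlgHom k₀ F L))
  isVar : IsVar str' dim
  proj : IsProj str'

namespace FVar

variable {F L : Type} [Field F] [Algebra k₀ F] [Field L] [Algebra k₀ L] [Algebra F L]
  [IsScalarTower k₀ F L]

theorem isSm (X : FVar k₀ F L) : IsSm X.str := by
  have h1 := X.smooth
  have h2 := X.proper
  exact ⟨h1.smooth, inferInstance, inferInstance⟩

theorem sm (X : FVar k₀ F L) : Sm X.X := ⟨_, _, _, _, X.isSm⟩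

/-- Morphisms over `F`. -/
@[ext]
structure Hom (X Y : FVar k₀ F L) where
  hom : X.X ⟶ Y.X
  comm : hom ≫ Y.str = X.str

noncomputable instance : Category (FVar k₀ F L) where
  Hom := Hom
  id X := ⟨𝟙 _, Category.id_comp _⟩
  comp f g := ⟨f.hom ≫ g.hom, by rw [Category.assoc, g.comm, f.comm]⟩

@[simp] theorem id_hom (X : FVar k₀ F L) : (𝟙 X : X ⟶ X).hom = 𝟙 X.X := rfl

@[simp] theorem comp_hom {X Y Z : FVar k₀ F L} (f : X ⟶ Y) (g : Y ⟶ Z) :
    (f ≫ g).hom = f.hom ≫ g.hom := rfl

@[ext] theorem hom_ext' {X Y : FVar k₀ F L} {f g : X ⟶ Y} (h : f.hom = g.hom) : f = g :=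
  Hom.ext h

/-- The base change of a morphism. -/
noncomputable def hom' {X Y : FVar k₀ F L} (f : X ⟶ Y) : X.X' ⟶ Y.X' :=
  Y.isPullback.lift (X.g ≫ f.hom) X.str' (by rw [Category.assoc, f.comm, X.isPullback.w])

theorem hom'_g {X Y : FVar k₀ F L} (f : X ⟶ Y) : hom' f ≫ Y.g = X.g ≫ f.hom :=
  Y.isPullback.lift_fst _ _ _

theorem hom'_str {X Y : FVar k₀ F L} (f : X ⟶ Y) : hom' f ≫ Y.str' = X.str' :=
  Y.isPullback.lift_snd _ _ _

theorem hom'_ext {Y : FVar k₀ F L} {T : Sch k₀} {a b : T ⟶ Y.X'} (h1 : a ≫ Y.g = b ≫ Y.g)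
    (h2 : a ≫ Y.str' = b ≫ Y.str') : a = b := Y.isPullback.hom_ext h1 h2

theorem hom'_id (X : FVar k₀ F L) : hom' (𝟙 X) = 𝟙 X.X' := by
  apply X.isPullback.hom_ext
  · rw [hom'_g, id_hom, Category.comp_id, Category.id_comp]
  · rw [hom'_str, Category.id_comp]

theorem hom'_comp {X Y Z : FVar k₀ F L} (f : X ⟶ Y) (g : Y ⟶ Z) :
    hom' (f ≫ g) = hom' f ≫ hom' g := by
  apply Z.isPullback.hom_ext
  · rw [hom'_g, comp_hom, Category.assoc, hom'_g, ← Category.assoc, ← Category.assoc, hom'_g]
  · rw [hom'_str, Category.assoc, hom'_str, hom'_str]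

theorem isPullback_hom' {X Y : FVar k₀ F L} (f : X ⟶ Y) : IsPullback X.g (hom' f) f.hom Y.g := by
  have h1 : IsPullback X.g (hom' f ≫ Y.str') (f.hom ≫ Y.str)
      (ptMap k₀ (IsScalarTower.toAlgHom k₀ F L)) := by
    rw [hom'_str, f.comm]
    exact X.isPullback
  exact IsPullback.of_bot h1 (hom'_g f).symm Y.isPullback

theorem isProper_hom {X Y : FVar k₀ F L} (f : X ⟶ Y) : IsProper f.hom.left := by
  have h1 : IsProper (f.hom ≫ Y.str).left := by rw [f.comm]; exact X.proper
  have h2 := Y.proper
  rw [Over.comp_left] at h1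
  exact IsProper.of_comp f.hom.left Y.str.left

theorem isIso_hom' {X Y : FVar k₀ F L} (f : X ≅ Y) : IsIso (hom' f.hom) :=
  ⟨hom' f.inv, by rw [← hom'_comp, f.hom_inv_id, hom'_id], by
    rw [← hom'_comp, f.inv_hom_id, hom'_id]⟩

theorem flat_ptMap : Flat (ptMap k₀ (IsScalarTower.toAlgHom k₀ F L)).left := by
  change Flat (Spec.map (CommRingCat.ofHom (algebraMap F L)))
  rw [HasRingHomProperty.Spec_iff (P := @Flat)]
  exact (RingHom.flat_algebraMap_iff).2 inferInstance

theorem flat_g (X : FVar k₀ F L) : Flat X.g.left :=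
  MorphismProperty.of_isPullback (P := @Flat) (X.isPullback.map (Over.forget _)).flip flat_ptMap

section prod

variable [IsAlgClosed L]

/-- The product. -/
noncomputable def prod (X Y : FVar k₀ F L) : FVar k₀ F L where
  X := pullback X.str Y.str
  str := pullback.fst X.str Y.str ≫ X.str
  dim := X.dim + Y.dim
  smooth := by
    have hP : IsPullback (pullback.fst X.str Y.str).left (pullback.snd X.str Y.str).left
        X.str.left Y.str.left := (IsPullback.of_hasPullback X.str Y.str).map (Over.forget _)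
    have h1 := X.smooth
    have h2 := Y.smooth
    have := smoothOfRelativeDimension_isStableUnderBaseChange Y.dim
    have h5 : SmoothOfRelativeDimension Y.dim (pullback.fst X.str Y.str).left :=
      MorphismProperty.of_isPullback (P := @SmoothOfRelativeDimension Y.dim) hP.flip h2
    rw [Over.comp_left, add_comm]
    infer_instance
  proper := by
    have hP : IsPullback (pullback.fst X.str Y.str).left (pullback.snd X.str Y.str).left
        X.str.left Y.str.left := (IsPullback.of_hasPullback X.str Y.str).map (Over.forget _)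
    have h1 := X.proper
    have h2 := Y.proper
    have h6 : IsProper (pullback.fst X.str Y.str).left :=
      MorphismProperty.of_isPullback (P := @IsProper) hP.flip h2
    rw [Over.comp_left]
    infer_instance
  X' := pullback X.str' Y.str'
  str' := pullback.fst X.str' Y.str' ≫ X.str'
  g := pullback.map X.str' Y.str' X.str Y.str X.g Y.g (ptMap k₀ (IsScalarTower.toAlgHom k₀ F L))
    X.isPullback.w.symm Y.isPullback.w.symm
  isPullback := isPullback_prod X.isPullback Y.isPullback
  isVar := Var.isVar_prod X.isVar Y.isVar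
  proj := X.proj.prod Y.proj X.isVar Y.isVar

variable (k₀ F L) in
/-- The point. -/
noncomputable def unit : FVar k₀ F L where
  X := pt k₀ F
  str := 𝟙 _
  dim := 0
  smooth := by rw [Over.id_left]; infer_instance
  proper := by rw [Over.id_left]; infer_instance
  X' := pt k₀ L
  str' := 𝟙 _
  g := ptMap k₀ (IsScalarTower.toAlgHom k₀ F L)
  isPullback := IsPullback.id_vert _
  isVar := Var.isVar_pt
  proj := isProj_pt

/-- First projection. -/
noncomputable def fst' (X Y : FVar k₀ F L) : prod X Y ⟶ X := ⟨pullback.fst X.str Y.str, rfl⟩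

/-- Second projection. -/
noncomputable def snd' (X Y : FVar k₀ F L) : prod X Y ⟶ Y :=
  ⟨pullback.snd X.str Y.str, pullback.condition.symm⟩

/-- The product is a product. -/
noncomputable def prodLimit (X Y : FVar k₀ F L) : LimitCone (pair X Y) where
  cone := BinaryFan.mk (fst' X Y) (snd' X Y)
  isLimit := BinaryFan.IsLimit.mk _
    (fun {T} f g => ⟨pullback.lift f.hom g.hom (f.comm.trans g.comm.symm), by
      change pullback.lift f.hom g.hom _ ≫ pullback.fst X.str Y.str ≫ X.str = T.str
      rw [pullback.lift_fst_assoc, f.comm]⟩)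
    (fun f g => by
      apply hom_ext'
      exact pullback.lift_fst _ _ _)
    (fun f g => by
      apply hom_ext'
      exact pullback.lift_snd _ _ _)
    (fun f g m hf hg => by
      apply hom_ext'
      apply pullback.hom_ext
      · have := congrArg Hom.hom hf
        exact this.trans (pullback.lift_fst _ _ _).symm
      · have := congrArg Hom.hom hg
        exact this.trans (pullback.lift_snd _ _ _).symm)

/-- The point is terminal. -/
noncomputable def unitLimit : LimitCone (Functor.empty.{0} (FVar k₀ F L)) where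
  cone := asEmptyCone (unit k₀ F L)
  isLimit := IsTerminal.ofUniqueHom (fun X => ⟨X.str, Category.comp_id _⟩) fun X f => by
    apply hom_ext'
    have := f.comm
    exact (Category.comp_id _).symm.trans this

noncomputable instance : CartesianMonoidalCategory (FVar k₀ F L) :=
  .ofChosenFiniteProducts unitLimit prodLimit

theorem tensor_X (X Y : FVar k₀ F L) : (X ⊗ Y).X = pullback X.str Y.str := rfl

theorem tensor_X' (X Y : FVar k₀ F L) : (X ⊗ Y).X' = pullback X.str' Y.str' := rfl

theorem tensor_str (X Y : FVar k₀ F L) : (X ⊗ Y).str = pullback.fst X.str Y.str ≫ X.str := rfl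

theorem tensor_str' (X Y : FVar k₀ F L) : (X ⊗ Y).str' = pullback.fst X.str' Y.str' ≫ X.str' := rfl

theorem tensor_dim (X Y : FVar k₀ F L) : (X ⊗ Y).dim = X.dim + Y.dim := rfl

theorem fst_hom (X Y : FVar k₀ F L) : (fst X Y).hom = pullback.fst X.str Y.str := rfl

theorem snd_hom (X Y : FVar k₀ F L) : (snd X Y).hom = pullback.snd X.str Y.str := rfl

theorem fst_hom' (X Y : FVar k₀ F L) : hom' (fst X Y) = pullback.fst X.str' Y.str' :=
  hom'_ext ((hom'_g (fst X Y)).trans (pullback.lift_fst _ _ _)) (hom'_str (fst X Y))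

theorem snd_hom' (X Y : FVar k₀ F L) : hom' (snd X Y) = pullback.snd X.str' Y.str' :=
  hom'_ext ((hom'_g (snd X Y)).trans (pullback.lift_snd _ _ _))
    ((hom'_str (snd X Y)).trans pullback.condition)

theorem isPullback_tensor' (X Y : FVar k₀ F L) :
    IsPullback (hom' (fst X Y)) (hom' (snd X Y)) X.str' Y.str' := by
  rw [fst_hom', snd_hom']
  exact IsPullback.of_hasPullback _ _

end prod

end FVar

end Pool.Agent.Lib.MP_4ca46c_ag.NilGeo
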