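import Mathlib
import Pool.Agent.Lib.MP_4ca46c_ag.NilGeo.FVar
import Pool.Agent.Lib.MP_4ca46c_ag.Nil.P.Weil

/-!
# The Weil cohomology theory on the category of varieties over `F`

The cohomology of a variety over `F` is the one of its base change to `L`, and the algebraic classes
are the classes of cycles defined over `F`.
-/

namespace Pool.Agent.Lib.MP_4ca46c_ag.NilGeo

open CategoryTheory Limits AlgebraicGeometry TensorProduct MonoidalCategory
  CartesianMonoidalCategory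
open Pool.Agent.Lib.MP_4ca46c_ag.Sign Pool.Agent.Lib.MP_4ca46c_ag.Hyp
open Pool.Agent.Lib.MP_4ca46c_ag.Std

variable {k₀ : Type} [Field k₀] {K : Type} [Field K]

theorem one_ne {k : Type} [Field k] [Algebra k₀ k] [IsAlgClosed k] (T : WeilTheory k₀ K)
    {X : Sch k₀} {x : X ⟶ pt k₀ k} {n : ℕ} (h : IsVar x n) : (1 : T.H X) ≠ 0 := by
  intro h1
  obtain ⟨p, hp⟩ := h.exists_point
  have h2 := T.tr_pt (k := k)
  have h3 : (1 : T.H (pt k₀ k)) = 0 := by
    rw [← map_one (T.pullH p), h1, map_zero]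
  rw [h3, map_zero] at h2
  exact zero_ne_one h2

/-- There is a class with trace `1`, of degree `2n`. -/
theorem exists_top {k : Type} [Field k] [Algebra k₀ k] [IsAlgClosed k] (T : WeilTheory k₀ K)
    {X : Sch k₀} {x : X ⟶ pt k₀ k} {n : ℕ} (h : IsVar x n) :
    ∃ u ∈ T.deg X (2 * n), T.tr X u ≠ 0 := by
  by_contra hcon
  push Not at hcon
  apply one_ne T h
  refine T.poincare X h.isWeil 1 fun v => ?_
  rw [one_mul]
  have hint := T.internal X h.isWeil
  have hv : v ∈ ⨆ i, T.deg X i := by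
    rw [hint.submodule_iSup_eq_top]
    trivial
  refine Submodule.iSup_induction (T.deg X) (motive := fun v => T.tr X v = 0) hv ?_ (map_zero _)
    (fun a b ha hb => by rw [map_add, ha, hb, add_zero])
  intro i u hu
  by_cases hi : i = 2 * n
  · subst hi
    exact hcon u hu
  · exact T.tr_eq_zero x n h i hi u hu

/-- The dimension is invariant under isomorphisms. -/
theorem dim_unique {k : Type} [Field k] [Algebra k₀ k] [IsAlgClosed k] (T : WeilTheory k₀ K)
    {X Y : Sch k₀} {x : X ⟶ pt k₀ k} {y : Y ⟶ pt k₀ k} {m n : ℕ} (hx : IsVar x m)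
    (hy : IsVar y n) (f : X ⟶ Y) (hf : IsIso f) : m = n := by
  obtain ⟨u, hu, hu'⟩ := exists_top T hy
  by_contra hmn
  apply hu'
  rw [← T.tr_iso f hf hx.isWeil hy.isWeil u]
  exact T.tr_eq_zero x m hx (2 * n) (by omega) _ (T.pullH_mem f hx.isWeil hy.isWeil _ _ hu)

variable [CharZero K] (T : WeilTheory k₀ K) (F L : Type) [Field F] [Algebra k₀ F] [Field L]
  [Algebra k₀ L] [Algebra F L] [IsScalarTower k₀ F L] [IsAlgClosed L]

/-- The class over `L` of a cycle over `F`. -/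
noncomputable def fcl (X : FVar k₀ F L) : T.CH X.X →+ T.H X.X' :=
  (T.cl X.X').toAddMonoidHom.comp (T.pull X.g).toLinearMap.toAddMonoidHom

omit [CharZero K] in
variable {F L} in
theorem fcl_apply (X : FVar k₀ F L) (a : T.CH X.X) :
    fcl T F L X a = T.cl X.X' (T.pull X.g a) := rfl

omit [CharZero K] in
variable {F L} in
theorem fcl_mul (X : FVar k₀ F L) (a b : T.CH X.X) :
    fcl T F L X (a * b) = fcl T F L X a * fcl T F L X b := by
  rw [fcl_apply, map_mul, map_mul]
  rfl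

omit [CharZero K] in
variable {F L} in
theorem fcl_one (X : FVar k₀ F L) : fcl T F L X 1 = 1 := by
  rw [fcl_apply, map_one, map_one]

variable {F L} in
theorem fcl_smul (X : FVar k₀ F L) (q : ℚ) (a : T.CH X.X) :
    fcl T F L X (q • a) = (q : K) • fcl T F L X a := by
  rw [fcl_apply, map_smul, cl_smul]
  rfl

omit [CharZero K] in
variable {F L} in
theorem fcl_mem (X : FVar k₀ F L) {c : ℕ} {a : T.CH X.X} (ha : a ∈ T.codim X.X c) :
    fcl T F L X a ∈ T.deg X.X' (2 * c) :=
  T.cl_mem _ X.isVar.isWeil c _ (T.pull_mem X.g X.isVar.sm X.sm c a ha)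

omit [CharZero K] in
variable {F L} in
theorem fcl_pull {X Y : FVar k₀ F L} (f : X ⟶ Y) (a : T.CH Y.X) :
    fcl T F L X (T.pull f.hom a) = T.pullH (FVar.hom' f) (fcl T F L Y a) := by
  rw [fcl_apply, fcl_apply, ← T.cl_pull _ X.isVar.isWeil Y.isVar.isWeil,
    ← T.pull_comp _ _ X.isVar.sm X.sm Y.sm, ← T.pull_comp _ _ X.isVar.sm Y.isVar.sm Y.sm,
    FVar.hom'_g]

omit [CharZero K] in
variable {F L} in
theorem fcl_push {X Y : FVar k₀ F L} (f : X ⟶ Y) (a : T.CH X.X) (v : T.H Y.X') :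
    T.tr Y.X' (fcl T F L Y (T.push f.hom a) * v) =
      T.tr X.X' (fcl T F L X a * T.pullH (FVar.hom' f) v) := by
  rw [fcl_apply, fcl_apply, T.push_baseChange f.hom (FVar.hom' f) X.g Y.g
    (FVar.isPullback_hom' f) X.sm Y.sm X.isVar.sm Y.isVar.sm (FVar.isProper_hom f) Y.flat_g]
  exact T.cl_push X.str' Y.str' (FVar.hom' f) (FVar.hom'_str f) X.dim Y.dim X.isVar Y.isVar _ v

/-- The Weil cohomology theory on the category of varieties over `F`. -/
noncomputable def fweil : Nil.PreWeil K (FVar k₀ F L) where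
  dim X := X.dim
  dim_tensor _ _ := rfl
  dim_iso {X Y} f := dim_unique T X.isVar Y.isVar (FVar.hom' f.hom) (FVar.isIso_hom' f)
  H X := T.H X.X'
  ring X := T.ringH X.X'
  algebra X := T.algebraH X.X'
  finite X := T.finite _ X.isVar.isWeil
  gr X := T.deg X.X'
  graded X :=
    letI : SetLike.GradedMonoid (T.deg X.X') :=
      { one_mem := T.oneH_mem _ X.isVar.isWeil
        mul_mem := fun {i j u v} hu hv => T.mulH_mem _ X.isVar.isWeil i j u hu v hv }
    letI : DirectSum.Decomposition (T.deg X.X') :=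
      (T.internal _ X.isVar.isWeil).chooseDecomposition
    { }
  comm {X i j x y} hx hy := T.comm _ X.isVar.isWeil i j x hx y hy
  pull f := T.pullH (FVar.hom' f)
  pull_id {X} x := by
    rw [FVar.hom'_id]
    exact T.pullH_id X.isVar.isWeil x
  pull_comp {X Y Z} f g z := by
    rw [FVar.hom'_comp]
    exact T.pullH_comp _ _ X.isVar.isWeil Y.isVar.isWeil Z.isVar.isWeil z
  pull_gr {X Y} f {i y} hy := T.pullH_mem _ X.isVar.isWeil Y.isVar.isWeil i y hy
  tr X := T.tr X.X'
  tr_gr {X i x} hx hi := T.tr_eq_zero X.str' X.dim X.isVar i hi x hx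
  duality {X} := T.poincare _ X.isVar.isWeil
  connected {X x} hx := by
    obtain ⟨c, hc⟩ := T.deg_zero _ X.isVar.isWeil x hx
    exact ⟨c, by rw [hc, Algebra.smul_def, mul_one]⟩
  kunneth X Y := T.kunneth X.str' Y.str' _ _ X.dim Y.dim X.isVar Y.isVar
    (FVar.isPullback_tensor' X Y)
  tr_tensor {X Y} x y := T.tr_kunneth X.str' Y.str' _ _ X.dim Y.dim X.isVar Y.isVar
    (FVar.isPullback_tensor' X Y) x y
  tr_unit := T.tr_pt
  tr_iso {X Y} f y := T.tr_iso _ (FVar.isIso_hom' f) X.isVar.isWeil Y.isVar.isWeil y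
  Alg X p := (T.codim X.X p).toAddSubgroup.map (fcl T F L X)
  alg_gr {X c x} := by
    rintro ⟨a, ha, rfl⟩
    exact fcl_mem T X ha
  alg_rat {X c x} q := by
    rintro ⟨a, ha, rfl⟩
    exact ⟨q • a, (T.codim X.X c).smul_mem q ha, fcl_smul T X q a⟩
  alg_one X := ⟨1, T.one_mem _, fcl_one T X⟩
  alg_mul {X c d x y} := by
    rintro ⟨a, ha, rfl⟩ ⟨b, hb, rfl⟩
    exact ⟨a * b, T.mul_mem _ _ _ _ ha _ hb, fcl_mul T X a b⟩
  alg_pull {X Y} f {c y} := by
    rintro ⟨a, ha, rfl⟩
    exact ⟨T.pull f.hom a, T.pull_mem f.hom X.sm Y.sm c a ha, fcl_pull T f a⟩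
  alg_push {X Y} f {c e x z} := by
    rintro ⟨a, ha, rfl⟩ h hz
    refine ⟨T.push f.hom a, T.push_mem X.str Y.str f.hom f.comm X.isSm Y.isSm
      (FVar.isProper_hom f) X.dim Y.dim X.smooth Y.smooth c e h a ha, ?_⟩
    rw [← sub_eq_zero]
    refine T.poincare _ Y.isVar.isWeil _ fun v => ?_
    rw [sub_mul, map_sub, fcl_push, sub_eq_zero]
    exact (hz v).symm
  alg_tr {X x} := by
    rintro ⟨a, ha, rfl⟩
    exact T.tr_cl _ X.isVar.isWeil _

end Pool.Agent.Lib.MP_4ca46c_ag.NilGeo
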