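import Pool.Agent.Lib.MP_4ca46c_ag.NilGeo.Spec1

/-!
# Cycles on the powers of the generic hyperplane section
-/

namespace Pool.Agent.Lib.MP_4ca46c_ag.NilGeo

open CategoryTheory Limits AlgebraicGeometry TensorProduct
open Pool.Agent.Lib.MP_4ca46c_ag.Sign Pool.Agent.Lib.MP_4ca46c_ag.Hyp
open Pool.Agent.Lib.MP_4ca46c_ag.Std

/-- an open subset of a scheme over `k₀` as a scheme over `k₀` -/
theorem fil_open {k₀ : Type} [Field k₀] (X : Sch k₀) (s : Set X.left) (hs : IsOpen s) :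
    ∃ (Q : Sch k₀) (j : Q ⟶ X), IsOpenImmersion j.left ∧ Set.range j.left = s := by
  let U : X.left.Opens := ⟨s, hs⟩
  refine ⟨Over.mk (U.ι ≫ X.hom), Over.homMk U.ι rfl, inferInstanceAs (IsOpenImmersion U.ι), ?_⟩
  change Set.range U.ι = _
  rw [Scheme.Opens.range_ι]
  rfl

theorem fil_card {ι : Type} [Fintype ι] (b : ι) :
    ∃ N : ℕ, Nat.card {c // c ≠ b} = N ∧ Nat.card ι = N + 1 := by
  classical
  refine ⟨Nat.card {c // c ≠ b}, rfl, ?_⟩
  have h0 : 0 < Fintype.card ι := Fintype.card_pos_iff.2 ⟨b⟩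
  rw [Nat.card_eq_fintype_card, Nat.card_eq_fintype_card, Fintype.card_subtype_compl,
    Fintype.card_subtype_eq]
  omega

theorem tFil (k₀ K : Type) [Field k₀] [Field K] (h1 : StPowSm k₀) (h2 : StPowDiag k₀)
    (h3 : StLoc k₀ K) (h4 : StPowRes k₀ K) : StFil k₀ K := by
  intro T k _ _ V hV m hn ι _ _ _ hι PZ xZ pZ hZ PY xY pY hY ρ hρ PD xD pD hD δ hδ1 hδ2 p α hα
  have hsm0 := V.isSm₀ m hn
  have hdim0 := V.smooth₀ m hn
  have hsep : IsSeparated V.y₀.left := hsm0.separated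
  obtain ⟨hY1, hY2, -⟩ := h1 V.F V.Y₀ PY V.y₀ xY ι pY hY m hsm0 hdim0
  have hZ1 := (h1 k V.X PZ V.str xZ ι pZ hZ V.n (sms_isSm V.isVar) V.isVar.smooth).1
  have hDsm := fun q => h1 V.F V.Y₀ (PD q) V.y₀ (xD q) {c // c ≠ q.1.2} (pD q) (hD q) m hsm0 hdim0
  have hdiag := fun q : {q : ι × ι // q.1 ≠ q.2} => h2 V.F V.Y₀ PY V.y₀ xY ι pY hY hsep q.1.1 q.1.2
    q.2 (PD q) (xD q) (pD q) (hD q) (δ q) (hδ1 q) (hδ2 q)
  have hcomp : ∀ q, δ q ≫ xY = xD q := by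
    intro q
    rw [← hY.comm q.1.2, ← Category.assoc, hδ2 q, (hD q).comm]
  -- the open stratum
  have hoff : offD hY = (⋃ q, Set.range (δ q).left)ᶜ := by
    ext z
    simp only [offD, Set.mem_compl_iff, Set.mem_iUnion, not_exists]
    constructor
    · intro h q hq
      rw [(hdiag q).2] at hq
      exact h q.1.1 q.1.2 q.2 hq
    · intro h a b hab hz
      refine h ⟨(a, b), hab⟩ ?_
      rw [(hdiag ⟨(a, b), hab⟩).2]
      exact hz
  have hopen : IsOpen (offD hY) := by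
    rw [hoff, isOpen_compl_iff]
    refine isClosed_iUnion_of_finite fun q => ?_
    have := (hdiag q).1
    exact (δ q).left.isClosedEmbedding.isClosed_range
  obtain ⟨Q, j, hj1, hj2⟩ := fil_open PY (offD hY) hopen
  obtain ⟨w, hw, hw2⟩ := h4 T k V hV m hn ι hι PZ xZ pZ hZ PY xY pY hY ρ hρ Q j hj1 hj2 (p + m) α hα
  have hρw : T.pull ρ w ∈ T.codim PY (p + m) :=
    T.pull_mem ρ ⟨V.F, _, _, xY, hY1⟩ ⟨k, _, _, xZ, hZ1⟩ (p + m) w hw
  -- the dimensions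
  obtain ⟨N, hN⟩ : ∃ N : ℕ, Nat.card ι = N + 1 := by
    obtain ⟨b⟩ := (inferInstance : Nonempty ι)
    obtain ⟨N, -, h⟩ := fil_card b
    exact ⟨N, h⟩
  have hdimY : SmoothOfRelativeDimension (N * m + m) xY.left := by
    rw [hN, Nat.succ_mul] at hY2
    exact hY2
  have hdimD : ∀ q, SmoothOfRelativeDimension (N * m) (δ q ≫ xY).left := by
    intro q
    rw [hcomp q]
    have h5 := (hDsm q).2.1
    obtain ⟨M, hM1, hM2⟩ := fil_card q.1.2
    have hNM : M = N := by omega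
    rw [hM1, hNM] at h5
    exact h5
  obtain ⟨b, hb1, hb2⟩ := h3 T V.F PY xY (N * m) m hY1 hdimY {q : ι × ι // q.1 ≠ q.2} PD δ
    (fun q => by rw [hcomp q]; exact (hDsm q).1) hdimD (fun q => (hdiag q).1) Q j hj1
    (hj2.trans hoff) p (α - T.pull ρ w) (Submodule.sub_mem _ hα hρw) (by rw [map_sub, hw2, sub_self])
  exact ⟨w, hw, b, hb1, by rw [← hb2, add_sub_cancel]⟩

end Pool.Agent.Lib.MP_4ca46c_ag.NilGeo
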