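import Pool.Agent.Lib.MP_4ca46c_ag.NilGeo.Spec2

/-!
# Cycles on the powers of the generic hyperplane section, in cohomology
-/

namespace Pool.Agent.Lib.MP_4ca46c_ag.NilGeo

open CategoryTheory Limits AlgebraicGeometry TensorProduct MonoidalCategory
  CartesianMonoidalCategory
open Pool.Agent.Lib.MP_4ca46c_ag.Sign Pool.Agent.Lib.MP_4ca46c_ag.Hyp
open Pool.Agent.Lib.MP_4ca46c_ag.Std Pool.Agent.Lib.MP_4ca46c_ag.Nil
open Pool.Agent.Lib.MP_4ca46c_ag.Nil.PreWeil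

theorem filg_dl_ne {ι : Type} (a b : ι) (h : a ≠ b) (c : {c // c ≠ b}) : dl a b h c.1 = c := by
  rw [dl, dif_neg c.2]

theorem filg_dl_eq {ι : Type} (a b : ι) (h : a ≠ b) : dl a b h b = ⟨a, h⟩ := by
  rw [dl, dif_pos rfl]

section gen

variable {k₀ : Type} [Field k₀] {F k : Type} [Field F] [Algebra k₀ F] [Field k] [Algebra k₀ k]

theorem filg_d1 (Y : Var k₀ F) {ι : Type} [Finite ι] (a b : ι) (h : a ≠ b) (c : {c // c ≠ b}) :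
    (pm Y (dl a b h)).hom ≫ (pj Y c.1).hom = (pj Y c).hom := by
  rw [← Var.comp_hom, pm_pj, filg_dl_ne]

theorem filg_d2 (Y : Var k₀ F) {ι : Type} [Finite ι] (a b : ι) (h : a ≠ b) :
    (pm Y (dl a b h)).hom ≫ (pj Y b).hom = (pj Y ⟨a, h⟩).hom := by
  rw [← Var.comp_hom, pm_pj, filg_dl_eq]

theorem filg_rho (Y : Var k₀ F) (V' : Var k₀ k) (P : pt k₀ F ⟶ pt k₀ k) (r0 : Y.X ⟶ V'.X)
    (h : r0 ≫ V'.str = Y.str ≫ P) (ι : Type) [Finite ι]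
    (hZ : IsPow V'.str (pw V' ι).str (fun a => (pj V' a).hom)) :
    ∃ ρ : (pw Y ι).X ⟶ (pw V' ι).X, ρ ≫ (pw V' ι).str = (pw Y ι).str ≫ P ∧
      ∀ c, ρ ≫ (pj V' c).hom = (pj Y c).hom ≫ r0 := by
  refine hZ.exists_lift _ _ _ fun c => ?_
  rw [Category.assoc, h, ← Category.assoc, (pj Y c).comm]

theorem filg_comp (Y Z : Var k₀ F) (V' : Var k₀ k) (P : pt k₀ F ⟶ pt k₀ k) (r0 : Y.X ⟶ V'.X)
    (z0 : Z.X ⟶ V'.X) (g : Y ⟶ Z) (hg : g.hom ≫ z0 = r0) (ι : Type) [Finite ι]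
    (hZ : IsPow V'.str (pw V' ι).str (fun a => (pj V' a).hom)) (ρ : (pw Y ι).X ⟶ (pw V' ι).X)
    (hρ1 : ρ ≫ (pw V' ι).str = (pw Y ι).str ≫ P)
    (hρ2 : ∀ c, ρ ≫ (pj V' c).hom = (pj Y c).hom ≫ r0) (v : (pw Z ι).X ⟶ (pw V' ι).X)
    (hv1 : v ≫ (pw V' ι).str = (pw Z ι).str ≫ P)
    (hv2 : ∀ c, v ≫ (pj V' c).hom = (pj Z c).hom ≫ z0) : ρ = (pwr g ι).hom ≫ v := by
  refine hZ.hom_ext _ _ _ ?_ fun c => ?_
  · rw [hρ1, Category.assoc, hv1, ← Category.assoc, (pwr g ι).comm]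
  · rw [hρ2, Category.assoc, hv2, ← Category.assoc, ← Var.comp_hom, pwr, pl_pj, Var.comp_hom,
      Category.assoc, hg]

end gen

section cls

variable {k₀ : Type} [Field k₀] {K : Type} [Field K] [CharZero K] (T : WeilTheory k₀ K)
  {F k : Type} [Field F] [Algebra k₀ F] (F' : Type) [Field F'] [Field k] [Algebra k₀ k]
  [Algebra k₀ F'] [Algebra F F'] [IsScalarTower k₀ F F'] [IsAlgClosed F']

theorem filg_fin (Y Z : Var k₀ F) (V' : Var k₀ k) (g : Y ⟶ Z) (ι : Type) [Fintype ι]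
    [DecidableEq ι] (ρ : (pw Y ι).X ⟶ (pw V' ι).X) (v : (pw Z ι).X ⟶ (pw V' ι).X)
    (hρv : ρ = (pwr g ι).hom ≫ v) (p d : ℕ) (w : T.CH (pw V' ι).X)
    (hw : w ∈ T.codim (pw V' ι).X (p + d))
    (b : ∀ q : {q : ι × ι // q.1 ≠ q.2}, T.CH (pw Y {c // c ≠ q.1.2}).X)
    (hb : ∀ q, b q ∈ T.codim (pw Y {c // c ≠ q.1.2}).X p) (a : T.CH (pw Y ι).X)
    (hab : a = T.pull ρ w + ∑ q : {q : ι × ι // q.1 ≠ q.2},
      T.push (pm Y (dl q.1.1 q.1.2 q.2)).hom (b q)) :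
    ∃ w ∈ (pre T F').Alg (pw Z ι) (p + d),
    ∃ b : ∀ q : {q : ι × ι // q.1 ≠ q.2}, (pre T F').H (pw Y {c // c ≠ q.1.2}),
      (∀ q, b q ∈ (pre T F').Alg (pw Y {c // c ≠ q.1.2}) p) ∧
      cls T F' (pw Y ι) a = (pre T F').pull (pwr g ι) w +
        ∑ q, (pre T F').push (pm Y (dl q.1.1 q.1.2 q.2)) (b q) := by
  refine ⟨cls T F' (pw Z ι) (T.pull v w), (mem_alg T F').2
    ⟨_, T.pull_mem v (pw Z ι).isVar.sm (pw V' ι).isVar.sm _ w hw, rfl⟩,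
    fun q => cls T F' (pw Y {c // c ≠ q.1.2}) (b q), fun q => (mem_alg T F').2
    ⟨_, hb q, rfl⟩, ?_⟩
  have e1 : cls T F' (pw Y ι) (T.pull ρ w) = (pre T F').pull (pwr g ι)
      (cls T F' (pw Z ι) (T.pull v w)) := by
    rw [← cls_pull, hρv, T.pull_comp _ _ (pw Y ι).isVar.sm (pw Z ι).isVar.sm
      (pw V' ι).isVar.sm]
  have e2 : ∀ q : {q : ι × ι // q.1 ≠ q.2},
      cls T F' (pw Y ι) (T.push (pm Y (dl q.1.1 q.1.2 q.2)).hom (b q)) =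
      (pre T F').push (pm Y (dl q.1.1 q.1.2 q.2)) (cls T F' (pw Y {c // c ≠ q.1.2}) (b q)) :=
    fun q => cls_push T F' _ _
  rw [hab, map_add, map_sum, e1]
  exact congrArg₂ (· + ·) rfl (Finset.sum_congr rfl fun q _ => e2 q)

end cls

theorem tFilG (k₀ K : Type) [Field k₀] [Field K] [CharZero K] (h1 : StFil k₀ K)
    (h2 : StPwPow k₀) : StFilG k₀ K := by
  intro T E k _ _ _ V hC m hm hn ι _ _ _ hι p α hα
  obtain ⟨a, ha, rfl⟩ := (mem_alg T V.L).1 hα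
  have hZ := h2 k (pv V) ι
  obtain ⟨ρ, hρ1, hρ2⟩ := filg_rho (gY E V m hm hn) (pv V)
    (ptMap k₀ (IsScalarTower.toAlgHom k₀ k V.F)) V.r₀ V.r₀_str ι hZ
  obtain ⟨v, hv1, hv2⟩ := filg_rho (gZ V) (pv V)
    (ptMap k₀ (IsScalarTower.toAlgHom k₀ k V.F)) (bcPr V.F (pv V)) (bc_sq V.F (pv V)).w ι hZ
  have hρv : ρ = (pwr (gR E V m hm hn) ι).hom ≫ v :=
    filg_comp (gY E V m hm hn) (gZ V) (pv V) _ V.r₀ (bcPr V.F (pv V)) (gR E V m hm hn)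
      (gR_pr E V m hm hn) ι hZ ρ hρ1 hρ2 v hv1 hv2
  obtain ⟨w, hw, b, hb, hab⟩ := h1 T k V hC m hn ι hι (pw (pv V) ι).X (pw (pv V) ι).str
    (fun c => (pj (pv V) c).hom) hZ (pw (gY E V m hm hn) ι).X (pw (gY E V m hm hn) ι).str
    (fun c => (pj (gY E V m hm hn) c).hom) (h2 V.F (gY E V m hm hn) ι) ρ hρ2
    (fun q => (pw (gY E V m hm hn) {c // c ≠ q.1.2}).X)
    (fun q => (pw (gY E V m hm hn) {c // c ≠ q.1.2}).str)
    (fun q c => (pj (gY E V m hm hn) c).hom) (fun q => h2 V.F (gY E V m hm hn) _)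
    (fun q => (pm (gY E V m hm hn) (dl q.1.1 q.1.2 q.2)).hom)
    (fun q c => filg_d1 (gY E V m hm hn) q.1.1 q.1.2 q.2 c)
    (fun q => filg_d2 (gY E V m hm hn) q.1.1 q.1.2 q.2) p a ha
  exact filg_fin T V.L (gY E V m hm hn) (gZ V) (pv V) (gR E V m hm hn) ι ρ v hρv p m w hw b hb a
    hab

end Pool.Agent.Lib.MP_4ca46c_ag.NilGeo
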