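import Pool.Agent.Lib.MP_4ca46c_ag.NilGeo.Spec2

/-!
# Four points: the form of the algebraic classes
-/

set_option autoImplicit false

namespace Pool.Agent.Lib.MP_4ca46c_ag.NilGeo

open CategoryTheory Limits AlgebraicGeometry TensorProduct MonoidalCategory
  CartesianMonoidalCategory
open Pool.Agent.Lib.MP_4ca46c_ag.Sign Pool.Agent.Lib.MP_4ca46c_ag.Hyp
open Pool.Agent.Lib.MP_4ca46c_ag.Std Pool.Agent.Lib.MP_4ca46c_ag.Nil
open Pool.Agent.Lib.MP_4ca46c_ag.Nil.PreWeil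

universe v u

section

variable {K : Type} [Field K] [CharZero K] {𝒱 : Type u} [Category.{v} 𝒱]
  [CartesianMonoidalCategory 𝒱] (W : PreWeil K 𝒱)

/-- projection formula -/
theorem fourf_proj {X Y : 𝒱} (f : X ⟶ Y) (x : W.H Y) :
    W.push f (W.pull f x) = W.push f 1 * x := by
  refine W.push_eq _ _ _ fun y => ?_
  rw [mul_assoc, push_spec, one_mul, map_mul]

/-- every map to a power of `Z` which is built from `r` factors through `th r i` -/
theorem fourf_fac {Y Z : 𝒱} (r : Y ⟶ Z) (i : Fin 4) {ι : Type} [Finite ι] (f : ι → Fin 4) :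
    ∃ g : pw Y (Fin 3) ⊗ Z ⟶ pw Z ι,
      (pl fun c => pj Y (f c) ≫ r : pw Y (Fin 4) ⟶ pw Z ι) = PreWeil.th r i ≫ g := by
  have h : ∀ c, ∃ g : pw Y (Fin 3) ⊗ Z ⟶ Z, pj Y (f c) ≫ r = PreWeil.th r i ≫ g := by
    intro c
    by_cases hc : f c = i
    · refine ⟨snd _ _, ?_⟩
      rw [hc]
      exact (lift_snd _ _).symm
    · obtain ⟨z, hz⟩ := Fin.exists_succAbove_eq hc
      refine ⟨fst _ _ ≫ pj Y z ≫ r, ?_⟩
      unfold PreWeil.th
      rw [lift_fst_assoc, ← Category.assoc, pm_pj, hz]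
  choose g hg using h
  refine ⟨pl g, pw_ext _ fun c => ?_⟩
  rw [pl_pj, Category.assoc, pl_pj, hg]

/-- the pull-back of the class of a diagonal -/
theorem fourf_dg {Y : 𝒱} {ι κ : Type} [Finite ι] [Finite κ] (f : ι → κ) (a b : ι) :
    W.pull (pm Y f) (W.dg Y a b) = W.dg Y (f a) (f b) := by
  unfold PreWeil.dg
  rw [← W.pull_comp, comp_lift, pm_pj, pm_pj]

/-- the elements of the required form -/
noncomputable def fourf_S {Y Z : 𝒱} (r : Y ⟶ Z) : Submodule K (W.H (pw Y (Fin 4))) where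
  carrier := {a | ∃ (x : Fin 3 → K)
    (b : Fin 4 → W.H (pw Y (Fin 3) ⊗ Z)), (∀ i, b i ∈ W.AK _ (2 * W.dim Y)) ∧
    a = x 0 • (W.dg Y 0 1 * W.dg Y 2 3) + x 1 • (W.dg Y 0 2 * W.dg Y 1 3) +
      x 2 • (W.dg Y 0 3 * W.dg Y 1 2) + ∑ i, W.pull (PreWeil.th r i) (b i)}
  add_mem' := by
    rintro _ _ ⟨x, b, hb, rfl⟩ ⟨x', b', hb', rfl⟩
    refine ⟨x + x', b + b', fun i => Submodule.add_mem _ (hb i) (hb' i), ?_⟩
    simp only [Pi.add_apply, add_smul, map_add, Finset.sum_add_distrib]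
    abel
  zero_mem' := ⟨0, 0, fun i => Submodule.zero_mem _, by simp⟩
  smul_mem' := by
    rintro c _ ⟨x, b, hb, rfl⟩
    refine ⟨c • x, c • b, fun i => Submodule.smul_mem _ _ (hb i), ?_⟩
    simp only [Pi.smul_apply, smul_add, smul_smul, smul_eq_mul, map_smul, Finset.smul_sum]

theorem fourf_mem {Y Z : 𝒱} (r : Y ⟶ Z) (i : Fin 4) {b : W.H (pw Y (Fin 3) ⊗ Z)} {c : ℕ}
    (hb : b ∈ W.Alg _ c) (hc : c = 2 * W.dim Y) :
    W.pull (PreWeil.th r i) b ∈ fourf_S W r := by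
  classical
  subst hc
  refine ⟨0, Pi.single i b, fun j => ?_, ?_⟩
  · by_cases hj : j = i
    · subst hj
      rw [Pi.single_eq_same]
      exact Submodule.subset_span hb
    · rw [Pi.single_eq_of_ne hj]
      exact Submodule.zero_mem _
  · rw [Finset.sum_eq_single i, Pi.single_eq_same]
    · simp
    · intro j _ hj
      rw [Pi.single_eq_of_ne hj, map_zero]
    · intro h
      exact absurd (Finset.mem_univ i) h

theorem fourf_e0 {Y Z : 𝒱} (r : Y ⟶ Z) : W.dg Y (0 : Fin 4) 1 * W.dg Y 2 3 ∈ fourf_S W r :=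
  ⟨![1, 0, 0], 0, fun i => Submodule.zero_mem _, by simp⟩

theorem fourf_e1 {Y Z : 𝒱} (r : Y ⟶ Z) : W.dg Y (0 : Fin 4) 2 * W.dg Y 1 3 ∈ fourf_S W r :=
  ⟨![0, 1, 0], 0, fun i => Submodule.zero_mem _, by simp⟩

theorem fourf_e2 {Y Z : 𝒱} (r : Y ⟶ Z) : W.dg Y (0 : Fin 4) 3 * W.dg Y 1 2 ∈ fourf_S W r :=
  ⟨![0, 0, 1], 0, fun i => Submodule.zero_mem _, by simp⟩

end

/-- the pairs are equal up to the order -/
def fourf_b (a b x y : Fin 4) : Bool := (a == x && b == y) || (a == y && b == x)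

theorem fourf_b_iff {a b x y : Fin 4} (h : fourf_b a b x y = true) :
    (a = x ∧ b = y) ∨ (a = y ∧ b = x) := by
  simpa [fourf_b] using h

theorem fourf_dec : ∀ a b c d : Fin 4, a ≠ b → a ≠ c → a ≠ d → b ≠ c → b ≠ d → c ≠ d →
    (fourf_b a b 0 1 && fourf_b c d 2 3) = true ∨ (fourf_b a b 2 3 && fourf_b c d 0 1) = true ∨
    (fourf_b a b 0 2 && fourf_b c d 1 3) = true ∨ (fourf_b a b 1 3 && fourf_b c d 0 2) = true ∨
    (fourf_b a b 0 3 && fourf_b c d 1 2) = true ∨ (fourf_b a b 1 2 && fourf_b c d 0 3) = true := by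
  decide

theorem fourf_two : ∀ a b : Fin 4, ∃ i : Fin 4, a ≠ i ∧ b ≠ i := by decide

section

variable {K : Type} [Field K] [CharZero K] {𝒱 : Type 1} [Category.{0} 𝒱]
  [CartesianMonoidalCategory 𝒱] (W : PreWeil K 𝒱)

/-- products of the classes of two diagonals -/
theorem fourf_prod (h : StDg) {Y Z : 𝒱} (r : Y ⟶ Z) (a b c d : Fin 4) (hab : a ≠ b)
    (hcd : c ≠ d) : W.dg Y a b * W.dg Y c d ∈ fourf_S W r := by
  have hsym : ∀ x y : Fin 4, W.dg Y x y = W.dg Y y x := fun x y => (h K 𝒱 W Y (Fin 4) x y).2.1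
  have hcomm : ∀ (x y : Fin 4) (z : W.H (pw Y (Fin 4))), W.dg Y x y * z = z * W.dg Y x y := by
    intro x y z
    exact W.Ev_comm (W.Ev_of_gr (W.alg_gr (h K 𝒱 W Y (Fin 4) x y).2.2) (even_two_mul _)) z
  have key : ∀ a b x y : Fin 4, (a = x ∧ b = y) ∨ (a = y ∧ b = x) →
      W.dg Y a b = W.dg Y x y := by
    rintro a b x y (⟨rfl, rfl⟩ | ⟨rfl, rfl⟩)
    · rfl
    · exact hsym _ _
  by_cases hex : ∃ i, a ≠ i ∧ b ≠ i ∧ c ≠ i ∧ d ≠ i
  · obtain ⟨i, ha, hb, hc, hd⟩ := hex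
    obtain ⟨a', rfl⟩ := Fin.exists_succAbove_eq ha
    obtain ⟨b', rfl⟩ := Fin.exists_succAbove_eq hb
    obtain ⟨c', rfl⟩ := Fin.exists_succAbove_eq hc
    obtain ⟨d', rfl⟩ := Fin.exists_succAbove_eq hd
    have h1 : W.dg Y (i.succAbove a') (i.succAbove b') * W.dg Y (i.succAbove c') (i.succAbove d') =
        W.pull (PreWeil.th r i) (W.pull (fst _ _) (W.dg Y a' b' * W.dg Y c' d')) := by
      have h2 : PreWeil.th r i ≫ fst _ _ = pm Y i.succAbove := lift_fst _ _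
      rw [← W.pull_comp, h2, map_mul, fourf_dg, fourf_dg]
    rw [h1]
    refine fourf_mem W r i (W.alg_pull _ (W.alg_mul (h K 𝒱 W Y (Fin 3) a' b').2.2
      (h K 𝒱 W Y (Fin 3) c' d').2.2)) (by ring)
  · have hd : a ≠ c ∧ a ≠ d ∧ b ≠ c ∧ b ≠ d := by
      revert hex hab hcd
      clear hsym hcomm key
      revert a b c d
      decide
    obtain ⟨h1, h2, h3, h4⟩ := hd
    rcases fourf_dec a b c d hab h1 h2 h3 h4 hcd with p | p | p | p | p | p
    · rw [Bool.and_eq_true] at p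
      rw [key _ _ _ _ (fourf_b_iff p.1), key _ _ _ _ (fourf_b_iff p.2)]
      exact fourf_e0 W r
    · rw [Bool.and_eq_true] at p
      rw [key _ _ _ _ (fourf_b_iff p.1), key _ _ _ _ (fourf_b_iff p.2), hcomm]
      exact fourf_e0 W r
    · rw [Bool.and_eq_true] at p
      rw [key _ _ _ _ (fourf_b_iff p.1), key _ _ _ _ (fourf_b_iff p.2)]
      exact fourf_e1 W r
    · rw [Bool.and_eq_true] at p
      rw [key _ _ _ _ (fourf_b_iff p.1), key _ _ _ _ (fourf_b_iff p.2), hcomm]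
      exact fourf_e1 W r
    · rw [Bool.and_eq_true] at p
      rw [key _ _ _ _ (fourf_b_iff p.1), key _ _ _ _ (fourf_b_iff p.2)]
      exact fourf_e2 W r
    · rw [Bool.and_eq_true] at p
      rw [key _ _ _ _ (fourf_b_iff p.1), key _ _ _ _ (fourf_b_iff p.2), hcomm]
      exact fourf_e2 W r

theorem fourf_dl {ι : Type} (a b : ι) (h : a ≠ b) (c : {c // c ≠ b}) : dl a b h c.1 = c := by
  unfold dl
  rw [dif_neg c.2]

end

theorem tFourF (h : StDg) : StFourF := by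
  intro K _ _ 𝒱 _ _ W Y Z r hF a ha
  suffices hs : a ∈ fourf_S W r from hs
  classical
  obtain ⟨w, hw, b, hb, rfl⟩ := hF (Fin 4) (by simp) (W.dim Y) a (by rw [← two_mul]; exact ha)
  refine Submodule.add_mem _ ?_ (Submodule.sum_mem _ fun q _ => ?_)
  · obtain ⟨g, hg⟩ := fourf_fac r (0 : Fin 4) (id : Fin 4 → Fin 4)
    have h1 : pwr r (Fin 4) = PreWeil.th r 0 ≫ g := hg
    rw [h1, W.pull_comp]
    exact fourf_mem W r 0 (W.alg_pull g hw) (by ring)
  · obtain ⟨⟨x, y⟩, hxy⟩ := q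
    have hxy' : x ≠ y := hxy
    have : Nonempty {c : Fin 4 // c ≠ y} := ⟨⟨x, hxy'⟩⟩
    have hq := hb ⟨(x, y), hxy⟩
    obtain ⟨w', hw', b', hb', heq⟩ := hF {c : Fin 4 // c ≠ y}
      ((Fintype.card_subtype_le _).trans (by simp)) 0 (b ⟨(x, y), hxy⟩) (by rw [zero_add]; exact hq)
    rw [heq, map_add, map_sum]
    have hδ : ∀ c : {c : Fin 4 // c ≠ y}, pm Y (dl x y hxy') ≫ pj Y c.1 = pj Y c := by
      intro c
      rw [pm_pj, fourf_dl]
    have hp1 : W.push (pm Y (dl x y hxy')) 1 = W.dg Y x y := (h K 𝒱 W Y (Fin 4) x y).1 hxy'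
    refine Submodule.add_mem _ ?_ (Submodule.sum_mem _ fun q' _ => ?_)
    · have h1 : pwr r {c : Fin 4 // c ≠ y} = pm Y (dl x y hxy') ≫
          (pl fun c => pj Y c.1 ≫ r : pw Y (Fin 4) ⟶ pw Z {c : Fin 4 // c ≠ y}) := by
        refine pw_ext _ fun c => ?_
        unfold pwr
        rw [pl_pj, Category.assoc, pl_pj, ← Category.assoc, hδ]
      obtain ⟨i, hxi, hyi⟩ := fourf_two x y
      obtain ⟨x', rfl⟩ := Fin.exists_succAbove_eq hxi
      obtain ⟨y', rfl⟩ := Fin.exists_succAbove_eq hyi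
      obtain ⟨g, hg⟩ := fourf_fac r i
        (Subtype.val : {c : Fin 4 // c ≠ i.succAbove y'} → Fin 4)
      have h2 : PreWeil.th r i ≫ fst _ _ = pm Y i.succAbove := lift_fst _ _
      change W.push (pm Y (dl (i.succAbove x') (i.succAbove y') hxy')) _ ∈ _
      rw [h1, W.pull_comp, fourf_proj, hp1, hg, W.pull_comp, ← fourf_dg, ← h2, W.pull_comp,
        ← map_mul]
      exact fourf_mem W r i (W.alg_mul (W.alg_pull _ (h K 𝒱 W Y (Fin 3) x' y').2.2)
        (W.alg_pull g hw')) (by ring)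
    · obtain ⟨⟨c, d⟩, hcd⟩ := q'
      have hcd' : c ≠ d := hcd
      obtain ⟨t, ht⟩ := W.connected (W.alg_gr (hb' ⟨(c, d), hcd⟩))
      change W.push (pm Y (dl x y hxy')) (W.push (pm Y (dl c d hcd')) (b' ⟨(c, d), hcd⟩)) ∈ _
      rw [ht, Algebra.algebraMap_eq_smul_one, map_smul, map_smul,
        (h K 𝒱 W Y {c : Fin 4 // c ≠ y} c d).1 hcd']
      refine Submodule.smul_mem _ _ ?_
      have h3 : W.dg Y c d = W.pull (pm Y (dl x y hxy')) (W.dg Y c.1 d.1) := by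
        rw [fourf_dg, fourf_dl, fourf_dl]
      rw [h3, fourf_proj, hp1]
      exact fourf_prod W h r x y c.1 d.1 hxy' (fun h => hcd' (Subtype.ext h))

end Pool.Agent.Lib.MP_4ca46c_ag.NilGeo
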