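import Mathlib
import Pool.Agent.Lib.MP_4ca46c_ag.NilGeo.Spec1
import Pool.Agent.Lib.MP_4ca46c_ag.Sign.SmS
import Pool.Agent.Lib.MP_4ca46c_ag.Sign.Compl

/-!
# Localization for several closed subschemes
-/

set_option autoImplicit false

namespace Pool.Agent.Lib.MP_4ca46c_ag.NilGeo

open CategoryTheory Limits AlgebraicGeometry TensorProduct
open Pool.Agent.Lib.MP_4ca46c_ag.Sign Pool.Agent.Lib.MP_4ca46c_ag.Hyp
open Pool.Agent.Lib.MP_4ca46c_ag.Std

section lift

variable {k₀ : Type} [Field k₀]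

/-- Factorization through an open immersion. -/
theorem loc_lift {U X Y : Sch k₀} (j : U ⟶ X) (hj : IsOpenImmersion j.left) (g : Y ⟶ X)
    (h : Set.range g.left ⊆ Set.range j.left) : ∃ l : Y ⟶ U, l ≫ j = g := by
  have h0 : IsOpenImmersion.lift j.left g.left h ≫ j.left = g.left :=
    IsOpenImmersion.lift_fac _ _ _
  refine ⟨Over.homMk (IsOpenImmersion.lift j.left g.left h) ?_, ?_⟩
  · rw [← Over.w j, ← Over.w g, ← Category.assoc, h0]
  · apply Over.OverMorphism.ext
    rw [Over.comp_left]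
    exact h0

/-- The open subscheme with a given range. -/
theorem loc_open {X : Sch k₀} (s : Set X.left) (hs : IsOpen s) :
    ∃ (U : Sch k₀) (j : U ⟶ X), IsOpenImmersion j.left ∧ Set.range j.left = s := by
  refine ⟨Over.mk (Scheme.Opens.ι ⟨s, hs⟩ ≫ X.hom), Over.homMk (Scheme.Opens.ι ⟨s, hs⟩) rfl,
    inferInstanceAs (IsOpenImmersion (Scheme.Opens.ι ⟨s, hs⟩)), ?_⟩
  change Set.range (Scheme.Opens.ι (⟨s, hs⟩ : X.left.Opens)) = _
  rw [Scheme.Opens.range_ι]
  rfl

end lift

variable (k₀ K : Type) [Field k₀] [Field K]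

theorem loc_aux (T : WeilTheory k₀ K) (F : Type) [Field F] [Algebra k₀ F] (X : Sch k₀)
    (x : X ⟶ pt k₀ F) (m c : ℕ) (hx : IsSm x) (hm : SmoothOfRelativeDimension (m + c) x.left)
    (ι : Type) [DecidableEq ι] (D : ι → Sch k₀) (δ : ∀ i, D i ⟶ X)
    (hδ : ∀ i, IsSm (δ i ≫ x)) (hδm : ∀ i, SmoothOfRelativeDimension m (δ i ≫ x).left)
    (hδc : ∀ i, IsClosedImmersion (δ i).left) (s : Finset ι) :
    ∀ (U : Sch k₀) (j : U ⟶ X), IsOpenImmersion j.left →
    Set.range j.left = (⋃ i ∈ s, Set.range (δ i).left)ᶜ → ∀ p, ∀ a ∈ T.codim X (p + c),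
    T.pull j a = 0 → ∃ b : ∀ i, T.CH (D i), (∀ i, b i ∈ T.codim (D i) p) ∧
      a = ∑ i ∈ s, T.push (δ i) (b i) := by
  have SX : Sm X := ⟨F, _, _, x, hx⟩
  induction s using Finset.induction_on with
  | empty =>
    intro U j hj hr p a _ ha0
    refine ⟨fun _ => 0, fun _ => zero_mem _, ?_⟩
    rw [Finset.sum_empty]
    obtain ⟨l, hl⟩ := loc_lift j hj (𝟙 X) (by
      rw [hr]
      simp)
    have SU : Sm U := ⟨F, _, _, _, (sms_open hx j hj).1⟩
    rw [← T.pull_id SX a, ← hl, T.pull_comp l j SX SU SX, ha0, map_zero]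
  | insert i₀ s hi₀ ih =>
    intro U j hj hr p a ha ha0
    -- the complement of the other closed subschemes
    have hcl : IsClosed (⋃ i ∈ s, Set.range (δ i).left) := by
      refine isClosed_biUnion_finset fun i _ => ?_
      have := hδc i
      exact (δ i).left.isClosedEmbedding.isClosed_range
    obtain ⟨U₁, u₁, hu₁, hu₁r⟩ := loc_open (X := X) _ hcl.isOpen_compl
    obtain ⟨j', hj'⟩ := loc_lift u₁ hu₁ j (by
      rw [hr, hu₁r, Finset.set_biUnion_insert]
      exact Set.compl_subset_compl.mpr Set.subset_union_right)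
    have hP : IsPullback (pullback.fst (δ i₀) u₁) (pullback.snd (δ i₀) u₁) (δ i₀) u₁ :=
      IsPullback.of_hasPullback _ _
    have hPl : IsPullback (pullback.fst (δ i₀) u₁).left (pullback.snd (δ i₀) u₁).left
        (δ i₀).left u₁.left := hP.map (Over.forget _)
    have hfo : IsOpenImmersion (pullback.fst (δ i₀) u₁).left :=
      MorphismProperty.of_isPullback (P := @IsOpenImmersion) hPl.flip hu₁
    have hsc : IsClosedImmersion (pullback.snd (δ i₀) u₁).left :=
      MorphismProperty.of_isPullback (P := @IsClosedImmersion) hPl (hδc i₀)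
    have hu₁inj : Function.Injective u₁.left := u₁.left.isOpenEmbedding.injective
    have hj'o : IsOpenImmersion j'.left := by
      have h1 : IsOpenImmersion (j'.left ≫ u₁.left) := by
        rw [← Over.comp_left, hj']
        exact hj
      exact IsOpenImmersion.of_comp j'.left u₁.left
    have hrange : Set.range j'.left = (Set.range (pullback.snd (δ i₀) u₁).left)ᶜ := by
      have h1 : Set.range (pullback.snd (δ i₀) u₁).left = u₁.left ⁻¹' Set.range (δ i₀).left :=
        compl_range hPl.flip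
      have h2 : Set.range j.left = u₁.left '' Set.range j'.left := by
        rw [← hj', Over.comp_left]
        ext z
        constructor
        · rintro ⟨w, rfl⟩
          exact ⟨j'.left w, ⟨w, rfl⟩, by rw [Scheme.Hom.comp_apply]⟩
        · rintro ⟨_, ⟨w, rfl⟩, rfl⟩
          exact ⟨w, by rw [Scheme.Hom.comp_apply]⟩
      rw [h1, ← Set.preimage_compl]
      ext z
      rw [Set.mem_preimage, Set.mem_compl_iff]
      have h3 : z ∈ Set.range j'.left ↔ u₁.left z ∈ Set.range j.left := by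
        rw [h2]
        exact (hu₁inj.mem_set_image).symm
      rw [h3, hr, Finset.set_biUnion_insert, Set.mem_compl_iff, Set.mem_union, not_or]
      have h4 : u₁.left z ∉ ⋃ i ∈ s, Set.range (δ i).left := by
        have : u₁.left z ∈ Set.range u₁.left := ⟨z, rfl⟩
        rw [hu₁r] at this
        exact this
      exact ⟨fun h => h.1, fun h => ⟨h, h4⟩⟩
    -- smoothness
    obtain ⟨hU₁, _⟩ := sms_open hx u₁ hu₁
    obtain ⟨hU, _⟩ := sms_open hx j hj
    obtain ⟨hT', hqc⟩ := sms_open (hδ i₀) (pullback.fst (δ i₀) u₁) hfo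
    have SU : Sm U := ⟨F, _, _, _, hU⟩
    have SU₁ : Sm U₁ := ⟨F, _, _, _, hU₁⟩
    have SD : Sm (D i₀) := ⟨F, _, _, _, hδ i₀⟩
    have ST' : Sm (pullback (δ i₀) u₁) := ⟨F, _, _, _, hT'⟩
    have hcomp : pullback.snd (δ i₀) u₁ ≫ u₁ ≫ x = pullback.fst (δ i₀) u₁ ≫ δ i₀ ≫ x := by
      rw [← Category.assoc, ← pullback.condition, Category.assoc]
    have hT'm : SmoothOfRelativeDimension m (pullback.fst (δ i₀) u₁ ≫ δ i₀ ≫ x).left := by
      have h1 := hδm i₀
      have h2 : SmoothOfRelativeDimension (0 + m)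
          ((pullback.fst (δ i₀) u₁).left ≫ (δ i₀ ≫ x).left) := inferInstance
      rw [zero_add] at h2
      exact h2
    have hU₁m : SmoothOfRelativeDimension (m + c) (u₁ ≫ x).left := by
      have h2 : SmoothOfRelativeDimension (0 + (m + c)) (u₁.left ≫ x.left) := inferInstance
      rw [zero_add] at h2
      exact h2
    have hz : T.pull j' (T.pull u₁ a) = 0 := by
      rw [← T.pull_comp j' u₁ SU SU₁ SX, hj', ha0]
    obtain ⟨b', hb', hb'2⟩ := T.localization (pullback.fst (δ i₀) u₁ ≫ δ i₀ ≫ x) (u₁ ≫ x)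
      (pullback.snd (δ i₀) u₁) j' hcomp hT' hU₁ ⟨hsc, hj'o, hrange⟩ m c hT'm hU₁m p
      (T.pull u₁ a) (T.pull_mem u₁ SU₁ SX _ a ha) hz
    obtain ⟨b, hb, hb2⟩ := T.pull_surjective_of_mono (pullback.fst (δ i₀) u₁) ST' SD
      inferInstance inferInstance hqc p b' hb'
    have hprop : IsProper (δ i₀).left := by
      have := hδc i₀
      infer_instance
    have hflat : Flat u₁.left := inferInstance
    have hbc := T.push_baseChange (δ i₀) (pullback.snd (δ i₀) u₁) (pullback.fst (δ i₀) u₁) u₁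
      hP SD SX ST' SU₁ hprop hflat b
    rw [hb2, hb'2] at hbc
    have hpm : T.push (δ i₀) b ∈ T.codim X (p + c) :=
      T.push_mem (δ i₀ ≫ x) x (δ i₀) rfl (hδ i₀) hx hprop m (m + c) (hδm i₀) hm p (p + c)
        (by omega) b hb
    obtain ⟨b₁, hb₁, hb₁2⟩ := ih U₁ u₁ hu₁ hu₁r p (a - T.push (δ i₀) b) (sub_mem ha hpm) (by
      rw [map_sub, hbc, sub_self])
    refine ⟨Function.update b₁ i₀ b, fun i => ?_, ?_⟩
    · by_cases h : i = i₀
      · subst h
        rw [Function.update_self]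
        exact hb
      · rw [Function.update_of_ne h]
        exact hb₁ i
    · rw [Finset.sum_insert hi₀, Function.update_self]
      have h5 : ∑ i ∈ s, T.push (δ i) (Function.update b₁ i₀ b i) =
          ∑ i ∈ s, T.push (δ i) (b₁ i) := by
        refine Finset.sum_congr rfl fun i hi => ?_
        have hne : i ≠ i₀ := fun h => hi₀ (h ▸ hi)
        rw [Function.update_of_ne hne]
      rw [h5, ← hb₁2]
      abel

theorem tLoc : StLoc k₀ K := by
  classical
  intro T F _ _ X x m c hx hm ι _ D δ hδ hδm hδc U j hj hr p a ha ha0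
  exact loc_aux k₀ K T F X x m c hx hm ι D δ hδ hδm hδc Finset.univ U j hj (by
    rw [hr]
    simp) p a ha ha0

end Pool.Agent.Lib.MP_4ca46c_ag.NilGeo
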