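import Pool.Agent.Lib.MP_4ca46c_ag.NilGeo.Spec2
import Pool.Agent.Lib.MP_4ca46c_ag.Nil.Ev

/-!
# The action of the pull-back of a class on `Z × Z`
-/

set_option autoImplicit false

open CategoryTheory Limits AlgebraicGeometry MonoidalCategory CartesianMonoidalCategory
  TensorProduct

namespace Pool.Agent.Lib.MP_4ca46c_ag.NilGeo

open Pool.Agent.Lib.MP_4ca46c_ag.Sign Pool.Agent.Lib.MP_4ca46c_ag.Nil

section

variable {K : Type} [Field K] [CharZero K] {𝒱 : Type 1} [Category.{0} 𝒱]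
  [CartesianMonoidalCategory 𝒱] (W : PreWeil K 𝒱) {Y Z : 𝒱}

theorem opr_adj (r : Y ⟶ Z) (b : W.H Z) (x : W.H Y) :
    W.tr Y (W.pull r b * x) = W.tr Z (b * W.push r x) := by
  rw [← W.tr_eps (W.pull r b) x, W.eps_pull, ← W.push_spec, W.tr_eps]

end

theorem tOpR : StOpR := by
  intro K _ _ 𝒱 _ _ W Y Z r w
  refine W.ind_tm (P := fun w => W.op (W.pull (lift (fst Y Y ≫ r) (snd Y Y ≫ r)) w) =
    (W.pull r).toLinearMap ∘ₗ W.op w ∘ₗ W.push r) w ?_ (fun a b => ?_) (fun u v hu hv => ?_)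
  · rw [map_zero, W.op_zero, W.op_zero, LinearMap.zero_comp, LinearMap.comp_zero]
  · refine LinearMap.ext fun x => ?_
    rw [W.pull_tm, W.pull_comp, W.pull_comp]
    change W.op (W.tm (W.pull r a) (W.pull r b)) x = W.pull r (W.op (W.tm a b) (W.push r x))
    rw [W.op_tm, W.op_tm, map_smul, opr_adj]
  · rw [map_add, W.op_add, W.op_add, LinearMap.add_comp, LinearMap.comp_add, hu, hv]

end Pool.Agent.Lib.MP_4ca46c_ag.NilGeo
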