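import Pool.Agent.Lib.MP_4ca46c_ag.NilGeo.Gen
import Pool.Agent.Lib.MP_4ca46c_ag.NilGeo.FVar
import Pool.Agent.Lib.MP_4ca46c_ag.NilGeo.Spec1
import Pool.Agent.Lib.MP_4ca46c_ag.Nil.Inst
import Pool.Agent.Lib.MP_4ca46c_ag.Nil.SpecL
import Pool.Agent.Lib.MP_4ca46c_ag.Sign.SpecC

/-!
# Specification: from the geometry to the formal statements
-/

namespace Pool.Agent.Lib.MP_4ca46c_ag.NilGeo

open CategoryTheory Limits AlgebraicGeometry TensorProduct MonoidalCategory
  CartesianMonoidalCategory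
open Pool.Agent.Lib.MP_4ca46c_ag.Sign Pool.Agent.Lib.MP_4ca46c_ag.Hyp
open Pool.Agent.Lib.MP_4ca46c_ag.Std Pool.Agent.Lib.MP_4ca46c_ag.Nil
open Pool.Agent.Lib.MP_4ca46c_ag.Nil.PreWeil

universe v u

section Formal

variable {K : Type} [Field K] [CharZero K] {𝒱 : Type u} [Category.{v} 𝒱]
  [CartesianMonoidalCategory 𝒱] (W : PreWeil K 𝒱)

/-- The map `r^ι`. -/
noncomputable def pwr {Y Z : 𝒱} (r : Y ⟶ Z) (ι : Type) [Finite ι] : pw Y ι ⟶ pw Z ι :=
  pl fun i => pj Y i ≫ r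

open Classical in
/-- Replace `b` by `a`. -/
noncomputable def dl {ι : Type} (a b : ι) (h : a ≠ b) (c : ι) : {c // c ≠ b} :=
  if hc : c = b then ⟨a, h⟩ else ⟨c, hc⟩

/-- Cycles on the powers of `Y` of codimension at least `dim Y`: they come from `Z^ι` up to cycles
on the diagonals `y_b = y_a`. -/
def FilW {Y Z : 𝒱} (r : Y ⟶ Z) : Prop := ∀ (ι : Type) [Fintype ι] [DecidableEq ι] [Nonempty ι],
  Fintype.card ι ≤ 4 → ∀ p, ∀ α ∈ W.Alg (pw Y ι) (p + W.dim Y),
  ∃ w ∈ W.Alg (pw Z ι) (p + W.dim Y),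
    ∃ b : ∀ q : {q : ι × ι // q.1 ≠ q.2}, W.H (pw Y {c // c ≠ q.1.2}),
      (∀ q, b q ∈ W.Alg (pw Y {c // c ≠ q.1.2}) p) ∧
      α = W.pull (pwr r ι) w + ∑ q, W.push (pm Y (dl q.1.1 q.1.2 q.2)) (b q)

end Formal

section FormalStatements

/-- **The classes of the diagonals.**

PROOF. Transport along an equivalence: we may take `ι = J ⊕ Unit`, `b = inr ()`, `a = inl a'`,
`pm Y (dl a b h)` replaced by `δ = pm Y (Sum.elim id fun _ => a')` (`pw Y J ⟶ pw Y (J ⊕ Unit)`).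
By `W.push_eq`: `tr (dg * y) = tr (pull δ y)` for all `y`; by `ind_sum` (`Nil/CalOf.lean`) for
`y = inl^* u * inr^* v`. Write `G = W.graph (𝟙 Y)`, `θ = lift (pj (inl a')) (pj (inr ()))`, so
`dg = θ^* G`. (1) `G * snd^* v = G * fst^* v` (`G = push (lift 𝟙 𝟙) 1`, test against `z` with
`push_spec`; classes of even degree are central), so `dg * inr^* v' = dg * inl^* (pj a')^* v` for
`v' = (pj ())^* v`. (2) For `x ∈ H(Y^J)`: `tr (θ^* u * inl^* x) = tr ((pj a')^* (push fst u) * x)`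
for all `u ∈ H(Y ⊗ Y)`: by `ind_tm` for `u = tm a b`, where `push fst (tm a b) = tr b • a` and
`tr_pwSum`; and `push fst G = 1`. `dg` is in degree `2 dim Y` (even), hence central. The second
claim: `G` is symmetric, `swap^* G = G` (`tr_iso`, `push_eq`). The third: `push_alg`, `alg_pull`
(`W.graph (𝟙 Y) = W.push (lift (𝟙 Y) (𝟙 Y)) 1`). -/
def StDg : Prop := ∀ (K : Type) [Field K] [CharZero K] (𝒱 : Type 1) [Category.{0} 𝒱]
  [CartesianMonoidalCategory 𝒱] (W : PreWeil K 𝒱) (Y : 𝒱) (ι : Type) [Finite ι] (a b : ι),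
  (∀ h : a ≠ b, W.push (pm Y (dl a b h)) 1 = W.dg Y a b) ∧ W.dg Y a b = W.dg Y b a ∧
    W.dg Y a b ∈ W.Alg (pw Y ι) (W.dim Y)

/-- **The action of the pull-back of a class on `Z × Z`.**

PROOF. Test with `W.ext_tr`; by `ind_tm` we may take `w = tm a b`: `pull (lift ..) (tm a b) =
tm (pull r a) (pull r b)` (`pull_tm`) and `op_tm`, `push_spec`. -/
def StOpR : Prop := ∀ (K : Type) [Field K] [CharZero K] (𝒱 : Type 1) [Category.{0} 𝒱]
  [CartesianMonoidalCategory 𝒱] (W : PreWeil K 𝒱) (Y Z : 𝒱) (r : Y ⟶ Z) (w : W.H (Z ⊗ Z)),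
  W.op (W.pull (lift (fst Y Y ≫ r) (snd Y Y ≫ r)) w) =
    (W.pull r).toLinearMap ∘ₗ W.op w ∘ₗ W.push r

/-- **Step 0.** The statements `StDg`, `StOpR` are hypotheses.

PROOF. `α = pull (pwTwo Y).hom u ∈ Alg (pw Y (Fin 2)) (0 + dim Y)`. By `FilW` for `Fin 2`, `p = 0`:
`α = pull (pwr r) w + ∑ push (δ q) (b q)`, `b q ∈ Alg _ 0` is a multiple of `1`
(`alg_gr`, `connected`), so the second term is a multiple of `dg 0 1 = pull (pwTwo Y).hom (graph 𝟙)`
(`dg 1 0 = dg 0 1`). So `u = κ • graph 𝟙 + pull (lift (fst ≫ r) (snd ≫ r)) w'`, where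
`w' = pull (pwTwo Z).inv w ∈ Alg (Z ⊗ Z) (dim Y)`, `op w' ∈ Cor Z Z (-1)` as
`dim Y = dim Z - 1` (`mem_cor`), `op (graph 𝟙) = id` (`op_graph`). -/
def StStepF : Prop := ∀ (K : Type) [Field K] [CharZero K] (𝒱 : Type 1) [Category.{0} 𝒱]
  [CartesianMonoidalCategory 𝒱] (W : PreWeil K 𝒱) (Y Z : 𝒱) (r : Y ⟶ Z), FilW W r →
  W.dim Z = W.dim Y + 1 → ∀ u ∈ W.Alg (Y ⊗ Y) (W.dim Y),
    ∃ κ : K, W.op u - κ • LinearMap.id ∈ W.JK r

/-- **Four points.** The statement `StDg` is a hypothesis.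

PROOF. Let `D = dim Y` and `S` the set of the elements of the required form, a `K`-subspace of
`H(Y^4)`. `a ∈ Alg (pw Y (Fin 4)) (D + D)`; by `FilW` for `Fin 4`, `p = D`:
`a = pull (pwr r) w + ∑_q push (δ q) (b q)`, `b q ∈ Alg (pw Y {c // c ≠ q.2}) (0 + D)`.
(i) `pull (pwr r) w ∈ S`: `pwr r (Fin 4) = th r 0 ≫ g` with `g : pw Y (Fin 3) ⊗ Z ⟶ pw Z (Fin 4)`,
`g = pl (fun c => if c = 0 then snd else fst ≫ pj _ ≫ r)`.
(ii) Let `q = (a, b)`, `I = {c // c ≠ b}` (three elements). By `FilW` for `I`, `p = 0`: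
`b q = pull (pwr r I) w' + ∑_q' push (δ q') (b' q')` with `b' q' ∈ Alg _ 0`, a multiple of `1`.
Projection formula: `push f (pull f x) = push f 1 * x`, `push f (pull f x * y) = x * push f y` for
`x` of even degree (test with `push_spec`, `ext_tr`).
(iia) `pwr r I = δ q ≫ σ` with `σ : pw Y (Fin 4) ⟶ pw Z I`, `σ = pl (fun c => pj c ≫ r)` (note that
`δ q ≫ pj c.1 = pj c` for `c ∈ I`). So `push (δ q) (pull (pwr r I) w') = dg a b * pull σ w'`
(`StDg`). Choose `i ≠ a, b`. With `i.succAbove : Fin 3 → Fin 4`, `a = i.succAbove a'`,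
`b = i.succAbove b'`: `dg a b = pull (pm Y i.succAbove) (dg a' b')`, and `σ = th r i ≫ g'` with
`g' : pw Y (Fin 3) ⊗ Z ⟶ pw Z I`. So the class is `pull (th r i) (pull fst (dg a' b') * pull g' w')`.
(iib) `push (δ q) (push (δ q') 1)` with `q' = (c, d)`, `c, d ∈ I`: `push (δ q') 1 = dg c d =
pull (δ q) (dg c.1 d.1)`, so it is `dg a b * dg c.1 d.1`. If `c.1`, `d.1` are both different from
`a` then `{a, b}`, `{c.1, d.1}` are complementary and this is one of the three products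
(up to the order of the indices and of the factors, `StDg`; 24 cases, `fin_cases` or `decide`).
Otherwise there is an index `i` different from `a`, `b`, `c.1`, `d.1`, and the class is
`pull (th r i) (pull fst (dg a' b' * dg c' d'))`. -/
def StFourF : Prop := ∀ (K : Type) [Field K] [CharZero K] (𝒱 : Type 1) [Category.{0} 𝒱]
  [CartesianMonoidalCategory 𝒱] (W : PreWeil K 𝒱) (Y Z : 𝒱) (r : Y ⟶ Z), FilW W r →
  ∀ a ∈ W.Alg (pw Y (Fin 4)) (2 * W.dim Y), ∃ (x : Fin 3 → K)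
    (b : Fin 4 → W.H (pw Y (Fin 3) ⊗ Z)), (∀ i, b i ∈ W.AK _ (2 * W.dim Y)) ∧
    a = x 0 • (W.dg Y 0 1 * W.dg Y 2 3) + x 1 • (W.dg Y 0 2 * W.dg Y 1 3) +
      x 2 • (W.dg Y 0 3 * W.dg Y 1 2) + ∑ i, W.pull (PreWeil.th r i) (b i)

/-- **Linear algebra over `ℚ`.** `A` is a group of vectors, closed under rational multiples, with
rational pairing; a `K`-combination of elements of `A` orthogonal to `A` is a combination of
elements of `A` orthogonal to `A`.

PROOF. Write `x = ∑ c_i a_i`. Choose a basis `e_j` of the `ℚ`-span of the `c_i`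
(`Module.finBasis` or `Module.Free.chooseBasis` of the finite-dimensional `ℚ`-space
`Submodule.span ℚ (range c)`): `c_i = ∑_j q_ij e_j`, so `x = ∑_j e_j a'_j`,
`a'_j = ∑_i q_ij a_i ∈ A`. For `b ∈ A`: `0 = β x b = ∑_j e_j β (a'_j) b` with rational
`β (a'_j) b`, so `β (a'_j) b = 0` by the linear independence of the `e_j` over `ℚ`. -/
def StQSpan : Prop := ∀ (K H : Type) [Field K] [CharZero K] [AddCommGroup H] [Module K H]
  (β : H →ₗ[K] H →ₗ[K] K) (A : AddSubgroup H), (∀ (q : ℚ), ∀ x ∈ A, (q : K) • x ∈ A) →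
  (∀ x ∈ A, ∀ y ∈ A, ∃ q : ℚ, β x y = q) → ∀ x ∈ Submodule.span K (A : Set H),
  (∀ y ∈ A, β x y = 0) → x ∈ Submodule.span K {a : H | a ∈ A ∧ ∀ y ∈ A, β a y = 0}

/-- **Combinations of nilpotent operators.**

PROOF. Let `x` be in the span and `m ≥ 1`. `x ^ m` is in the span of `S` (`S` is closed under
products: `Submodule.span_induction` for products, the span of `S` is closed under
multiplication), and every element of `S` is nilpotent, so has trace `0`
(`LinearMap.isNilpotent_trace_of_isNilpotent`); so `tr (x ^ m) = 0` and `x` is nilpotent by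
`isNilpotent_of_trace_pow` (`Split.lean`). -/
def StNilSpan : Prop := ∀ (K H : Type) [Field K] [CharZero K] [AddCommGroup H] [Module K H]
  [FiniteDimensional K H] (S : Set (Module.End K H)), (∀ f ∈ S, ∀ g ∈ S, f * g ∈ S) →
  (∀ f ∈ S, IsNilpotent f) → ∀ x ∈ Submodule.span K S, IsNilpotent x

end FormalStatements

variable {k₀ : Type} [Field k₀]

/-- Numerically trivial cycles on `X × X` act nilpotently on `H(X)`. -/
def NilQ {K : Type} [Field K] (T : WeilTheory k₀ K) {L : Type} [Field L] [Algebra k₀ L]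
    {X : Sch k₀} (x : X ⟶ pt k₀ L) (n : ℕ) : Prop :=
  ∀ a ∈ T.codim (pullback x x) n,
    (∀ b ∈ T.codim (pullback x x) n, T.tr _ (T.cl _ (a * b)) = 0) →
    ∀ φ : T.H X →ₗ[K] T.H X, (∀ v w, T.tr X (φ v * w) =
      T.tr _ (T.cl _ a * T.pullH (pullback.snd x x) v * T.pullH (pullback.fst x x) w)) →
      IsNilpotent φ

/-- The base change map `Z × Z ⟶ V × V`. -/
noncomputable def uZZ {k : Type} [Field k] [Algebra k₀ k] (V : ProjVar k₀ k) :
    (gZ V ⊗ gZ V).X ⟶ pullback V.str V.str :=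
  pullback.map (gZ V).str (gZ V).str V.str V.str (bcPr V.F (pv V)) (bcPr V.F (pv V))
    (bcS k₀ k V.F) (bc_sq V.F (pv V)).w.symm (bc_sq V.F (pv V)).w.symm

section Statements

variable (k₀ K : Type) [Field k₀] [Field K] [CharZero K]

/-- **The powers in the category of varieties are fibre powers.**

PROOF. Induction on `ι` (`Finite.induction_empty_option`): `IsPow` is invariant under isomorphisms
of `P` compatible with the projections. Equivalences: `pmIso`. Empty set: `pw Y PEmpty` is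
isomorphic to `𝟙_` (compare `pwEmpty`), `(𝟙_).X = pt k₀ F`, `(𝟙_).str = 𝟙 _`. `Option α`:
`pw Y (Option α) ≅ pw Y α ⊗ Y` (compare `pwSum`, `pwUnit`), and `(X ⊗ Y).X = pullback X.str Y.str`
(`Var.tensor_X`, `Var.fst_hom`). Existence and uniqueness of the lifts are the universal
property of the pull-back. -/
def StPwPow : Prop := ∀ (F : Type) [Field F] [Algebra k₀ F] (Y : Var k₀ F) (ι : Type) [Finite ι],
  IsPow Y.str (pw Y ι).str (fun a => (pj Y a).hom)

/-- **Cycles on the powers of the generic hyperplane section**, in cohomology. The statements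
`StFil k₀ K`, `StPwPow k₀` are hypotheses.

PROOF. Let `Y = gY`, `Z = gZ V`, `V' = pv V`, `L = V.L`; classes of cycles: `cls`, `mem_alg`,
`cls_pull`, `cls_push` (`NilGeo/Gen.lean`). Let `α = cls a`, `a ∈ codim (pw Y ι).X (p + m)`
(`dim Y = m` by `rfl`). Apply `StFil` with `PZ = (pw V' ι).X` (over `k`), `pZ c = (pj V' c).hom`,
`PY = (pw Y ι).X`, `pY c = (pj Y c).hom`, `ρ` the map with `ρ ≫ pZ c = pY c ≫ V.r₀`
(`exists_lift` of `StPwPow` for `V'`, with `V.r₀_str`), `PD q = (pw Y {c // c ≠ q.2}).X` and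
`δ q = (pm Y (dl q.1 q.2 _)).hom` (`pm_pj`). So `a = pull ρ w + ∑ push (δ q) (b q)`. Let
`v : (pw Z ι).X ⟶ (pw V' ι).X` be the map with `v ≫ pZ c = (pj Z c).hom ≫ bcPr V.F V'`; then
`ρ = (pwr (gR ..) ι).hom ≫ v` (`hom_ext`, `gR_pr`, `pl_pj`), so `pull ρ w = pull (pwr ..).hom
(pull v w)` (`T.pull_comp`; `IsVar.sm`), and `pull v w` has codimension `p + m` (`T.pull_mem`). Take
`cls (pull v w)` and `cls (b q)`. -/
def StFilG : Prop := ∀ (T : WeilTheory k₀ K) (E : Extra T) (k : Type) [Field k] [Algebra k₀ k]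
  [IsAlgClosed k] (V : ProjVar k₀ k), Comp4 V → ∀ (m : ℕ) (hm : 1 ≤ m) (hn : V.n = m + 1),
  FilW (pre T V.L) (gR E V m hm hn)

/-- **Cycles on `Z × Z` come from `V × V`.**

PROOF. Let `P = pullback V.str V.str`, `x = pullback.fst _ _ ≫ V.str : P ⟶ pt k₀ k`,
`R = V.R = MvPolynomial V.κ k`. `(gZ V ⊗ gZ V).X`, `uZZ V` is the base change of `x` to `V.F`: the
square `uZZ V`, `(gZ V ⊗ gZ V).str`, `x`, `bcS k₀ k V.F` is cartesian (`isPullback_prod` in
`NilGeo/FVar.lean` or pasting). By `genclass_gA` (`Std/GenClass.lean`) for `x` there is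
`gA : pullback x (ptMap ..) ⟶ Aff V.κ P` with `gA ≫ Aff.pr = pullback.fst` which is a base change of
`spG k₀ R V.F`, so flat, mono and quasi-compact (`spG_flat`, `spG_mono`, `spG_qc` in
`Std/GenV.lean`). So with `g : (gZ V ⊗ gZ V).X ≅ pullback x _ ⟶ Aff V.κ P` the map
`uZZ V = g ≫ Aff.pr V.κ P`, the pull-back along `g` is surjective (`pull_surjective_of_mono`), and
the pull-back along `Aff.pr V.κ P` is surjective (`pull_surjective_of_affineBundle`;
`Aff.pr V.κ P` is an affine bundle, see `Hyp/Affine.lean`, `Std/Aff.lean`; smoothness of `Aff V.κ P`: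
`Std/AffSm.lean`, `sms_bundle_smooth`). -/
def StDescG : Prop := ∀ (T : WeilTheory k₀ K) (k : Type) [Field k] [Algebra k₀ k]
  (V : ProjVar k₀ k) (c : ℕ), ∀ a ∈ T.codim (gZ V ⊗ gZ V).X c,
  ∃ w ∈ T.codim (pullback V.str V.str) c, T.pull (uZZ V) w = a

/-- **The relation.** The statements `StDescG k₀ K`, `StOpR` are hypotheses.

PROOF. `W = pre T V.L`, `Y = gY`, `Z = gZ V`, `r = gR`, `L = V.L`; `bcX L Y = V.Y` by `rfl`.
`s` is a `K`-combination of operators `op (cls a_j)`, `a_j ∈ codim (Z ⊗ Z).X m` (`mem_cor`: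
`codim = dim Z - 1 = m`, or the operator is `0`), `a_j = pull (uZZ V) w_j` with `w_j ∈
codim (pullback V.str V.str) m` (`StDescG`). So it is enough to have (by linearity over the span) for
every such `w`: with `f = op (cls (pull (uZZ V) w))`, for all `z, z' ∈ H(V)` and
`y = pullH q z`, `y' = pullH q z'`, `q = bcPr L Y ≫ V.r₀ : V.Y ⟶ V.X`,
(*) `tr_Y (r^* f (r_* y) * y') = tr (cl w * P₂^* (H z) * P₁^* (H z'))`, `H = cl h`.
By `StOpR`, `r^* f r_* = op (pull (lift (fst ≫ r) (snd ≫ r)) (cls (pull (uZZ V) w)))`, and this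
class is `cls (pull ρ w)` with `ρ = (lift ..).hom ≫ uZZ V` (`cls_pull`), that is, the class
`pullH R (cl w)` with `R = bcPr L (Y ⊗ Y) ≫ ρ : bcX L (Y ⊗ Y) ⟶ pullback V.str V.str`
(`T.cl_pull`, `T.pull_comp`). With `op_spec` the left side of (*) is
`tr (pullH R (cl w) * p₂^* y * p₁^* y') = tr (pullH R (cl w * P₂^* z * P₁^* z'))`, as
`R ≫ P_i = p_i ≫ q`, where `p₁ = bcM L (fst Y Y)`, `p₂ = bcM L (snd Y Y)` (a product by
`bcM_prod`). As in `tKey` (`Std/Key.lean`, `htrR`): `tr (pullH R u) = tr (P₁^* H * (P₂^* H * u))`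
by Künneth, from `T.tr (pullH q z) = T.tr (H * z)`, which is `(V.genClass E m hn).2`
(`Std/GenV.lean`). Then (*) as in `tKey` (`key_alg`). Take for `u` the same combination of the
`cl w_j`. For `z` of degree `i` with `P i`: `y` has degree `i`, so `r^* s r_* y = y` and
`tr_Y (y * y') = tr_Y (pullH q (z z')) = tr (H * (z z'))`. -/
def StRelG : Prop := ∀ (T : WeilTheory k₀ K) (E : Extra T) (k : Type) [Field k] [Algebra k₀ k]
  [IsAlgClosed k] (V : ProjVar k₀ k) (m : ℕ) (hm : 1 ≤ m) (hn : V.n = m + 1) (P : ℕ → Prop),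
  ∀ s ∈ (pre T V.L).CK (gZ V) (gZ V) (-1),
  (∀ i, P i → ∀ y ∈ (pre T V.L).gr (gY E V m hm hn) i, (pre T V.L).pull (gR E V m hm hn)
    (s ((pre T V.L).push (gR E V m hm hn) y)) = y) →
  ∃ u ∈ Submodule.span K (T.cl (pullback V.str V.str) '' T.codim (pullback V.str V.str) m),
    ∀ i, P i → ∀ z ∈ T.deg V.X i, ∀ z', T.tr (pullback V.str V.str)
      (u * T.pullH (pullback.snd V.str V.str) (T.cl V.X (V.h T) * z) *
        T.pullH (pullback.fst V.str V.str) (T.cl V.X (V.h T) * z')) =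
      T.tr V.X (T.cl V.X (V.h T) * z * z')

/-- **The relation on `V ⊗ V`.**

PROOF. As `Sign/Rel.lean` (`rel_main`, `rel_op`, `tRel`), with `Even i` replaced by `P i`: `u` is a
`K`-combination of the classes `cl w`, so `op u` (transported to `V ⊗ V` by `kun`) is in the
`K`-span of `V.opB (-1)` (`span_induction`; codimension `D` with `D + 1 = 2 V.n`). -/
def StRelOp : Prop := ∀ (T : WeilTheory k₀ K) (V : PVar T) (D : ℕ), D + 1 = V.n + V.n →
  ∀ P : ℕ → Prop, ∀ u ∈ Submodule.span K (T.cl (pullback V.sqStr V.sqStr) ''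
    T.codim (pullback V.sqStr V.sqStr) D), (∀ i, P i → ∀ z ∈ T.deg V.sq i, ∀ z',
      T.tr (pullback V.sqStr V.sqStr) (u * T.pullH (pullback.snd V.sqStr V.sqStr)
          ((T.pullH V.p₁ (T.cl V.X V.h) + T.pullH V.p₂ (T.cl V.X V.h)) * z) *
        T.pullH (pullback.fst V.sqStr V.sqStr)
          ((T.pullH V.p₁ (T.cl V.X V.h) + T.pullH V.p₂ (T.cl V.X V.h)) * z')) =
        T.tr V.sq ((T.pullH V.p₁ (T.cl V.X V.h) + T.pullH V.p₂ (T.cl V.X V.h)) * z * z')) →
  ∃ w ∈ Submodule.span K (V.opB (-1) : Set (Module.End K (V.HX ⊗[K] V.HX))),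
    ∀ c : ℕ, P c → LL V.lef * w * LL V.lef * prT V.n V.proj c = LL V.lef * prT V.n V.proj c

/-- **Nilpotence on `V` and `V ⊗ V`.**

PROOF. `W = weil T V.k`, `A = V.opA`: `f ∈ A 0` is `op (cl a)`, `a ∈ codim V.sq V.n` (`mem_cor`; or
`f = 0`). Suppose that `tr (g f ε) = 0` for all `g ∈ A 0`, where `sgn V.n V.proj = W.eps`
(`Geo/Trace.lean`; compare `Sign/OpV.lean`). By `numF` (`NilGeo/TrF.lean`) `a` is numerically
trivial and `f` is nilpotent by `NilQ` (`φ = f`, with `op_spec`). `nilB`: the same for `V.sq` and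
`W` on `V.var ⊗ V.var`, conjugated by `kun`; `TensorProduct.map (sgn ..) (sgn ..)` corresponds to
`eps` of `V.var ⊗ V.var` (`tens_eps`, `Geo/Tens.lean`). `op`: `tOpV`. -/
def StNilOp : Prop := ∀ (T : WeilTheory k₀ K) (V : PVar T), NilQ T V.str V.n →
  NilQ T V.sqStr (V.n + V.n) → NilOp V.n V.proj V.lef V.opA V.opB

/-- **The sign conjecture implies nilpotence.** The statement `S_Conv` is a hypothesis.

PROOF. `sgn V.n V.proj ∈ V.opA 0` (`tTrans`, `Sign/Trans.lean`). Let `a` be numerically trivial and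
`φ` as in `NilQ`: `φ = op (cl a)` (`op_spec`, `ext_tr`). By `numF` (`NilGeo/TrF.lean`)
`SNum V.opA (sgn V.n V.proj) 0 φ` (`sgn V.n V.proj = (weil T V.k).eps V.var`); so `φ` is nilpotent
by `S_Conv` (`tOpV` gives `LefMod`, `RatAlg`). -/
def StConvQ : Prop := ∀ (T : WeilTheory k₀ K) (V : PVar T), V.SignConj → NilQ T V.str V.n

/-- **Numerically trivial cycles over `F` are numerically trivial over `L`.** Here `X` is a variety
over `F` and `bcX L X` its base change to the algebraic closure `L` of `F`.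

PROOF. `b ∈ codim (bcX L X) c`. By `T.norm` (`x = X.str`, `x' = bcStr L X`, `g = bcPr L X`,
`bc_sq`): `∑_i pull (s i) b = pull g b₀` with `b₀ ∈ codim X.X c` and `N > 0` terms, where `s i` is
a morphism with `s i ≫ g = g` and `s i ≫ x' = x' ≫ ptMap (σ i)`; it is an isomorphism (compare
`Sign/Average.lean`: `σ i` is bijective). So `T.tr (cl (pull g a * pull (s i) b)) =
T.tr (pullH (s i) (cl (pull g a * b))) = T.tr (cl (pull g a * b))` (`pull (s i) (pull g a) =
pull g a`, `T.tr_iso`), and `N * T.tr (cl (pull g a * b)) = T.tr (cl (pull g (a * b₀))) = 0`. -/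
def StNorm : Prop := ∀ (T : WeilTheory k₀ K) (F L : Type) [Field F] [Algebra k₀ F] [Field L]
  [Algebra k₀ L] [Algebra F L] [IsScalarTower k₀ F L] [IsAlgClosure F L] (X : Var k₀ F) (c : ℕ)
  (a : T.CH X.X), (∀ b ∈ T.codim X.X c, T.tr _ (T.cl (bcX L X) (T.pull (bcPr L X) (a * b))) = 0) →
  ∀ b ∈ T.codim (bcX L X) c, T.tr _ (T.cl (bcX L X) (T.pull (bcPr L X) a * b)) = 0

/-- **Nilpotence over `F`.** The statements `StQSpan`, `StNilSpan`, `StNorm k₀ K` are hypotheses.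

PROOF. `W = pre T L`, `d = X.dim`, `X' = bcV L X` (a variety over `L`), `W' = weil T L`
(`Sign/ToWeil.lean`), `W'.H X' = T.H (bcX L X) = W.H X` by `rfl`. Let `θ : bcX L (X ⊗ X) ⟶
(X' ⊗ X').X` be the isomorphism given by `bcM L (fst X X)`, `bcM L (snd X X)` (`bcM_prod`,
`IsPullback.isoIsPullback` or `pullback.lift`, an isomorphism by `IsPullback`). (1)
`W.op (pullH θ v) = W'.op v` for `v ∈ T.H (X' ⊗ X').X` (`op_spec` for both, `T.tr_iso`,
`T.pullH_comp`). (2) Let `S` be the set of the operators `W'.op (cl a)` with `a ∈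
codim (X' ⊗ X').X d` numerically trivial. The elements of `S` are nilpotent by `NilQ`, and `S` is
closed under products: `f ∈ S` iff `f = W'.op u`, `u ∈ W'.Alg (X' ⊗ X') d`, and
`tr (g ∘ f ∘ eps) = 0` for all `g ∈ W'.Cor X' X' 0` (`numF`, `NilGeo/TrF.lean`); for `f, f' ∈ S`:
`f ∘ f' ∈ Cor 0` is `op u''` with `u'' ∈ Alg d` (`comp_alg`, `op_comp` in `Geo/Alg.lean`) and
`g ∘ (f ∘ f') = (g ∘ f) ∘ f'` with `g ∘ f ∈ Cor 0` (`cor_comp`). (3) By `StQSpan` for
`H = W.H (X ⊗ X)`,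
`A = W.Alg (X ⊗ X) d`, `β x y = W.tr (x * y)` (rational by `alg_mul`, `alg_tr`, as
`dim (X ⊗ X) = d + d`): `n` is a `K`-combination of classes `n_j = cls a_j`, `a_j ∈
codim (X ⊗ X).X d`, with `tr (n_j * cls b) = 0` for all `b ∈ codim (X ⊗ X).X d`. By `StNorm` for
`X ⊗ X`: `tr (n_j * cl b) = 0` for all `b ∈ codim (bcX L (X ⊗ X)) d`; so
`a'_j = pull θ⁻¹ (pull (bcPr L (X ⊗ X)) a_j)` is numerically trivial on `(X' ⊗ X').X` and
`W.op n_j = W'.op (cl a'_j) ∈ S` by (1). (4) `W.op n` is in the `K`-span of `S`: `StNilSpan`. -/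
def StNilPowG : Prop := ∀ (T : WeilTheory k₀ K) (F L : Type) [Field F] [Algebra k₀ F] [Field L]
  [Algebra k₀ L] [Algebra F L] [IsScalarTower k₀ F L] [IsAlgClosure F L] [IsAlgClosed L]
  (X : Var k₀ F), NilQ T (bcStr L X) X.dim → ∀ n ∈ (pre T L).AK (X ⊗ X) X.dim,
  (∀ g ∈ (pre T L).AK (X ⊗ X) X.dim, (pre T L).tr _ (n * g) = 0) →
  IsNilpotent ((pre T L).op n : Module.End K ((pre T L).H X))

/-- **The powers of a projective variety are projective.**

PROOF. Induction on `ι` (`Finite.induction_empty_option`). `IsProj` is invariant under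
isomorphisms over `L` (compose the embedding with the isomorphism). Equivalences: `pmIso`, with
`bcM_iso`, `bcM_str`. Empty set: `pw Y PEmpty ≅ 𝟙_`, and `bcStr L (𝟙_)` is an isomorphism
(see `tr_unit` in `Nil/Pre.lean`): `isProj_pt`. `Option α`: `pw Y (Option α) ≅ pw Y α ⊗ Y`, and
`bcX L (X ⊗ Y)` is isomorphic to the product over `L` of `bcX L X` and `bcX L Y` (`bcM_prod`):
`IsProj.prod` with `bc_var`. -/
def StProjPow : Prop := ∀ (F L : Type) [Field F] [Algebra k₀ F] [Field L] [Algebra k₀ L]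
  [Algebra F L] [IsScalarTower k₀ F L] [IsAlgClosed L] (Y : Var k₀ F), IsProj (bcStr L Y) →
  ∀ (ι : Type) [Finite ι], IsProj (bcStr L (pw Y ι))

end Statements

end Pool.Agent.Lib.MP_4ca46c_ag.NilGeo
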