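import Pool.Agent.Lib.MP_4ca46c_ag.NilGeo.Transfer
import Pool.Agent.Lib.MP_4ca46c_ag.NilGeo.Spec2

/-!
# The relation on `V ⊗ V`
-/

set_option autoImplicit false

open CategoryTheory Limits AlgebraicGeometry MonoidalCategory CartesianMonoidalCategory
  TensorProduct

namespace Pool.Agent.Lib.MP_4ca46c_ag.NilGeo

open Pool.Agent.Lib.MP_4ca46c_ag.Sign Pool.Agent.Lib.MP_4ca46c_ag.Nil

variable (k₀ K : Type) [Field k₀] [Field K] [CharZero K]

theorem tRelOp : StRelOp k₀ K := by
  intro T V D hD P u hu h1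
  have hh : T.cl V.X V.h ∈ (weil T V.k).gr V.var 2 :=
    T.cl_mem V.X V.isVar.isWeil 1 V.h V.h_mem
  refine ⟨((weil T V.k).kun V.var V.var).symm.conj ((weil T V.k).op
    (X := V.var ⊗ V.var) (Y := V.var ⊗ V.var) u), ?_, fun c hc => ?_⟩
  · refine Submodule.span_induction (p := fun u _ =>
      ((weil T V.k).kun V.var V.var).symm.conj ((weil T V.k).op
        (X := V.var ⊗ V.var) (Y := V.var ⊗ V.var) u) ∈
      Submodule.span K (V.opB (-1) : Set (Module.End K (V.HX ⊗[K] V.HX)))) ?_ ?_ ?_ ?_ hu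
    · rintro u ⟨a, ha, rfl⟩
      refine Submodule.subset_span ?_
      change ((weil T V.k).kun V.var V.var).conj
        (((weil T V.k).kun V.var V.var).symm.conj _) ∈
          (weil T V.k).Cor (V.var ⊗ V.var) (V.var ⊗ V.var) (-1)
      rw [rel_conj]
      refine (weil T V.k).mem_cor.2 (Or.inr ⟨D, _, ?_, ⟨a, ha, rfl⟩, rfl⟩)
      change (D : ℤ) = ((V.n + V.n : ℕ) : ℤ) + -1
      rw [← hD]
      push_cast
      ring
    · change ((weil T V.k).kun V.var V.var).symm.conj ((weil T V.k).op
        (X := V.var ⊗ V.var) (Y := V.var ⊗ V.var) 0) ∈ _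
      rw [(weil T V.k).op_zero, map_zero]
      exact Submodule.zero_mem _
    · intro u v _ _ h2 h3
      have h4 := (weil T V.k).op_add (X := V.var ⊗ V.var) (Y := V.var ⊗ V.var) u v
      have h5 := congrArg ((weil T V.k).kun V.var V.var).symm.conj h4
      rw [map_add] at h5
      exact h5.symm ▸ Submodule.add_mem _ h2 h3
    · intro a u _ h2
      have h4 := (weil T V.k).op_smul (X := V.var ⊗ V.var) (Y := V.var ⊗ V.var) a u
      have h5 := congrArg ((weil T V.k).kun V.var V.var).symm.conj h4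
      rw [map_smul] at h5
      exact h5.symm ▸ Submodule.smul_mem _ _ h2
  · refine transfer_op (weil T V.k) (X := V.var) (pr := V.proj) (fun i => rfl) hh u P h1 c ?_
    intro i hi
    obtain rfl : i = c := by exact_mod_cast hi
    exact hc

end Pool.Agent.Lib.MP_4ca46c_ag.NilGeo
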