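import Pool.Agent.Lib.MP_4ca46c_ag.NilGeo.NilOpQ
import Pool.Agent.Lib.MP_4ca46c_ag.NilGeo.RelOp
import Pool.Agent.Lib.MP_4ca46c_ag.NilGeo.OpR
import Pool.Agent.Lib.MP_4ca46c_ag.NilGeo.Cube
import Pool.Agent.Lib.MP_4ca46c_ag.Nil.SpecI
import Pool.Agent.Lib.MP_4ca46c_ag.Nil.SgnN
import Pool.Agent.Lib.MP_4ca46c_ag.Nil.SgnO
import Pool.Agent.Lib.MP_4ca46c_ag.Std.Final

/-!
# Nilpotence implies the sign conjecture: assembly
-/

set_option autoImplicit false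

open CategoryTheory Limits AlgebraicGeometry MonoidalCategory CartesianMonoidalCategory
  TensorProduct

namespace Pool.Agent.Lib.MP_4ca46c_ag.NilGeo

open Pool.Agent.Lib.MP_4ca46c_ag.Sign Pool.Agent.Lib.MP_4ca46c_ag.Nil
open Pool.Agent.Lib.MP_4ca46c_ag.Hyp Pool.Agent.Lib.MP_4ca46c_ag.Std
open Pool.Agent.Lib.MP_4ca46c_ag.Nil.PreWeil

variable {k₀ K : Type} [Field k₀] [Field K] [CharZero K]

section

variable {k : Type} [Field k] [Algebra k₀ k] [IsAlgClosed k] {T : WeilTheory k₀ K} (E : Extra T)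
  (V : ProjVar k₀ k)

/-- The generic hyperplane section of a variety of even dimension satisfies `Sec4`. -/
theorem localn_sec (h1 : StStepF) (h2 : StFourF) (h3 : StFilG k₀ K) (hV : Comp4 V) (m : ℕ)
    (hm : 1 ≤ m) (hn : V.n = m + 1) (ho : Odd m) : (pre T V.L).Sec4 (gR E V m hm hn) := by
  have hd : (pre T V.L).dim (gZ V) = (pre T V.L).dim (gY E V m hm hn) + 1 := hn
  have hF := h3 T E k V hV m hm hn
  exact {
    odd := ho
    dim := hd
    step0 := h1 K _ (pre T V.L) _ _ _ hF hd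
    four := h2 K _ (pre T V.L) _ _ _ hF }

/-- The powers of the generic hyperplane section satisfy `NilPow`. -/
theorem localn_nil (h1 : StNilPowG k₀ K) (h2 : StProjPow k₀) (m : ℕ)
    (hm : 1 ≤ m) (hn : V.n = m + 1) (h : ∀ Y : ProjVar k₀ V.L, NilQ T Y.str Y.n) :
    (pre T V.L).NilPow (gY E V m hm hn) := by
  intro ι _ n hn1 hn2
  have hp : IsProj (bcStr V.L (gY E V m hm hn)) := NilGeo.ProjVar.isProj (V.W E m hm hn)
  have hP := h2 V.F V.L (gY E V m hm hn) hp ι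
  have hQ := h (hP.toProj (bc_var V.L (pw (gY E V m hm hn) ι)))
  exact h1 T V.F V.L (pw (gY E V m hm hn) ι) hQ n hn1 hn2

end

section

variable {k : Type} [Field k] [Algebra k₀ k] [IsAlgClosed k] {T : WeilTheory k₀ K} (E : Extra T)
  (X : ProjVar k₀ k)

/-- The variety `X × X`, embedded by the cube of the Segre embedding. -/
noncomputable abbrev sqV : ProjVar k₀ k := ProjVar.cube (X.prod X tSegreGeo)

/-- The class of a hyperplane section of `X × X`. -/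
theorem localn_cls : T.cl (sqV X).X ((sqV X).h T) =
    (3 : K) • relH (weil T k) (X := (X.toP E).var) (T.cl X.X (X.h T)) := by
  have h1 : (sqV X).h T = (3 : ℚ) • (X.prod X tSegreGeo).h T := h_cube E (X.prod X tSegreGeo)
  have h2 := ProjVar.h_prod (V := X) (W := X) E tPS tSegreGeo (fSegre k₀ K)
  have h3 : IsWeil (pullback X.str X.str) := (Var.isVar_prod X.isVar X.isVar).isWeil
  have h4 : T.cl (pullback X.str X.str) ((X.prod X tSegreGeo).h T) =
      T.pullH (pullback.fst X.str X.str) (T.cl X.X (X.h T)) +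
        T.pullH (pullback.snd X.str X.str) (T.cl X.X (X.h T)) := by
    rw [h2, map_add, T.cl_pull _ h3 X.isVar.isWeil, T.cl_pull _ h3 X.isVar.isWeil]
  have h5 : ((3 : ℚ) : K) = 3 := by norm_num
  have h6 : T.cl (pullback X.str X.str) ((3 : ℚ) • (X.prod X tSegreGeo).h T) =
      (3 : K) • T.cl (pullback X.str X.str) ((X.prod X tSegreGeo).h T) := by
    rw [← h5]
    exact cl_smul T _ 3 _
  exact (congrArg (T.cl (pullback X.str X.str)) h1).trans
    (h6.trans (congrArg ((3 : K) • ·) h4))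

omit [CharZero K] in
theorem cls_uZZ' [CharZero K] (T : WeilTheory k₀ K) (V : ProjVar k₀ k)
    (w : T.CH (pullback V.str V.str)) :
    T.cl (bcX V.L (gZ V ⊗ gZ V)) (T.pull (bcPr V.L (gZ V ⊗ gZ V)) (T.pull (uZZ V) w)) =
      T.pullH (bcPr V.L (gZ V ⊗ gZ V) ≫ uZZ V) (T.cl (pullback V.str V.str) w) := by
  have h1 := (bc_var V.L (gZ V ⊗ gZ V))
  have h2 : IsVar (pullback.fst V.str V.str ≫ V.str) (V.n + V.n) :=
    Var.isVar_prod V.isVar V.isVar
  rw [← T.cl_pull _ h1.isWeil h2.isWeil, T.pull_comp _ _ h1.sm (gZ V ⊗ gZ V).isVar.sm h2.sm]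

/-- **Nilpotence implies the sign conjecture**, local form. -/
theorem localn_main (hMM : S_MM) (h1 : StStepF) (h2 : StFourF) (h3 : StFilG k₀ K)
    (h4 : StNilPowG k₀ K) (h5 : StProjPow k₀) (h6 : StDescG k₀ K) (hQ : S_Q2) (hQo : S_Q2o)
    (hK1 : S_K12) (hK2 : S_K22) (m : ℕ) (hm : 1 ≤ m) (hn : (sqV X).n = m + 1)
    (β : T.H (sqV X).X →ₐ[K] T.H (bcX (sqV X).L (gZ (sqV X))))
    (hβ1 : ∀ z, T.pullH (bcPr (sqV X).L (gZ (sqV X) ⊗ gZ (sqV X)) ≫ uZZ (sqV X))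
      (T.pullH (pullback.fst (sqV X).str (sqV X).str) z) =
        T.pullH (bcM (sqV X).L (fst (gZ (sqV X)) (gZ (sqV X)))) (β z))
    (hβ2 : ∀ z, T.pullH (bcPr (sqV X).L (gZ (sqV X) ⊗ gZ (sqV X)) ≫ uZZ (sqV X))
      (T.pullH (pullback.snd (sqV X).str (sqV X).str) z) =
        T.pullH (bcM (sqV X).L (snd (gZ (sqV X)) (gZ (sqV X)))) (β z))
    (hgr : ∀ i, ∀ z ∈ T.deg (sqV X).X i, β z ∈ T.deg (bcX (sqV X).L (gZ (sqV X))) i)
    (htr1 : ∀ z, T.tr (bcX (sqV X).L (gZ (sqV X))) (β z) = T.tr (sqV X).X z)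
    (htr2 : ∀ z, T.tr (bcX (sqV X).L (gZ (sqV X) ⊗ gZ (sqV X)))
      (T.pullH (bcPr (sqV X).L (gZ (sqV X) ⊗ gZ (sqV X)) ≫ uZZ (sqV X)) z) =
      T.tr (pullback (sqV X).str (sqV X).str) z)
    (hG : ∀ t, T.tr (bcX (sqV X).L (gY E (sqV X) m hm hn))
      (T.pullH (bcM (sqV X).L (gR E (sqV X) m hm hn)) t) =
      T.tr (bcX (sqV X).L (gZ (sqV X))) (β (T.cl (sqV X).X ((sqV X).h T)) * t))
    (hN : ∀ Y : ProjVar k₀ k, NilQ T Y.str Y.n)
    (hN' : ∀ Y : ProjVar k₀ (sqV X).L, NilQ T Y.str Y.n) : (X.toP E).SignConj := by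
  have hn2 : X.n + X.n = m + 1 := hn
  have ho : Odd m := by
    refine ⟨X.n - 1, ?_⟩
    omega
  have hsec := localn_sec E (sqV X) h1 h2 h3 (comp4_cube _) m hm hn ho
  have hnil := localn_nil E (sqV X) h4 h5 m hm hn hN'
  have hOp : NilOp (X.toP E).n (X.toP E).proj (X.toP E).lef (X.toP E).opA (X.toP E).opB :=
    tNilOp k₀ K T (X.toP E) (hN X) (hN (X.prod X tSegreGeo))
  -- the relation
  have key : ∀ P : ℕ → Prop, (∃ s ∈ (pre T (sqV X).L).CK (gZ (sqV X)) (gZ (sqV X)) (-1), ∀ i,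
      P i → ∀ x ∈ (pre T (sqV X).L).gr (gY E (sqV X) m hm hn) i,
        (pre T (sqV X).L).pull (gR E (sqV X) m hm hn)
          (s ((pre T (sqV X).L).push (gR E (sqV X) m hm hn) x)) = x) →
      ∃ w ∈ Submodule.span K ((X.toP E).opB (-1) :
        Set (Module.End K ((X.toP E).HX ⊗[K] (X.toP E).HX))),
        ∀ c : ℤ, (∀ i : ℕ, (i : ℤ) = c → P i) → LL (X.toP E).lef * w * LL (X.toP E).lef *
          prT (X.toP E).n (X.toP E).proj c = LL (X.toP E).lef *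
            prT (X.toP E).n (X.toP E).proj c := by
    rintro P ⟨s, hs, hsr⟩
    refine transfer (X.toP E) (pre T (sqV X).L) (gR E (sqV X) m hm hn) β
      (T.pullH (bcPr (sqV X).L (gZ (sqV X) ⊗ gZ (sqV X)) ≫ uZZ (sqV X))) hβ1 hβ2 hgr htr1 htr2
      (m := (3 : K)) (by norm_num) ?_ (D := m) hn hn2 ?_ P hs hsr
    · intro t
      have h7 := hG t
      rw [localn_cls E X] at h7
      exact h7
    · rintro u ⟨a, ha, rfl⟩
      obtain ⟨w, hw, hw2⟩ := h6 T k (sqV X) m a ha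
      refine ⟨T.cl _ w, ⟨w, hw, rfl⟩, ?_⟩
      have h8 := cls_uZZ' T (sqV X) w
      rw [hw2] at h8
      exact h8.symm
  have hsgn : sgn (X.toP E).n (X.toP E).proj ∈ (X.toP E).opA 0 := by
    rcases hMM K _ (pre T (sqV X).L) (gR E (sqV X) m hm hn) hsec hnil with h7 | h7
    · obtain ⟨w, hw, hw2⟩ := key _ h7
      refine tSgnN hQ hK1 hK2 K _ _ _ _ _ _ hOp w hw fun c hc => hw2 c fun i hi => ?_
      rw [← hi] at hc
      exact (Int.even_coe_nat i).1 hc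
    · obtain ⟨w, hw, hw2⟩ := key _ h7
      refine tSgnO hQo hK1 hK2 K _ _ _ _ _ _ hOp w hw fun c hc => hw2 c fun i hi => ?_
      rw [← hi] at hc
      exact (Int.odd_coe_nat i).1 hc
  exact ((tTrans k₀ K) T (X.toP E)).2.2.1.2 hsgn

end

end Pool.Agent.Lib.MP_4ca46c_ag.NilGeo
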