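import Pool.Agent.Lib.MP_4ca46c_ag.NilGeo.Spec2
import Pool.Agent.Lib.MP_4ca46c_ag.Split

/-!
# Combinations of nilpotent operators
-/

namespace Pool.Agent.Lib.MP_4ca46c_ag.NilGeo

open CategoryTheory Limits AlgebraicGeometry TensorProduct
open Pool.Agent.Lib.MP_4ca46c_ag.Sign Pool.Agent.Lib.MP_4ca46c_ag.Hyp
open Pool.Agent.Lib.MP_4ca46c_ag.Std

theorem nilspan_mul {K H : Type} [Field K] [AddCommGroup H] [Module K H]
    {S : Set (Module.End K H)} (hS : ∀ f ∈ S, ∀ g ∈ S, f * g ∈ S) :
    ∀ x ∈ Submodule.span K S, ∀ y ∈ Submodule.span K S, x * y ∈ Submodule.span K S := by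
  intro x hx y hy
  have h := Submodule.mul_mem_mul hx hy
  rw [Submodule.span_mul_span] at h
  refine Submodule.span_mono ?_ h
  rintro _ ⟨f, hf, g, hg, rfl⟩
  exact hS f hf g hg

theorem tNilSpan : StNilSpan := by
  intro K H _ _ _ _ _ S hS hn x hx
  refine isNilpotent_of_trace_pow x fun m hm => ?_
  have hpow : ∀ m : ℕ, x ^ (m + 1) ∈ Submodule.span K S := by
    intro m
    induction m with
    | zero => rwa [zero_add, pow_one]
    | succ m ih =>
      rw [pow_succ]
      exact nilspan_mul hS _ ih _ hx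
  obtain ⟨j, rfl⟩ : ∃ j, m = j + 1 := ⟨m - 1, by omega⟩
  have htr : ∀ y ∈ Submodule.span K S, LinearMap.trace K H y = 0 := by
    intro y hy
    induction hy using Submodule.span_induction with
    | mem f hf => exact (LinearMap.isNilpotent_trace_of_isNilpotent (hn f hf)).eq_zero
    | zero => exact map_zero _
    | add f g _ _ hf hg => rw [map_add, hf, hg, add_zero]
    | smul c f _ hf => rw [map_smul, hf, smul_zero]
  exact htr _ (hpow j)

end Pool.Agent.Lib.MP_4ca46c_ag.NilGeo
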