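import Pool.Agent.Lib.MP_4ca46c_ag.NilGeo.Spec2
import Pool.Agent.Lib.MP_4ca46c_ag.Sign.Average

/-!
# Numerical triviality and base change to the algebraic closure
-/

set_option autoImplicit false

namespace Pool.Agent.Lib.MP_4ca46c_ag.NilGeo

open CategoryTheory Limits AlgebraicGeometry TensorProduct MonoidalCategory
  CartesianMonoidalCategory
open Pool.Agent.Lib.MP_4ca46c_ag.Sign Pool.Agent.Lib.MP_4ca46c_ag.Hyp
open Pool.Agent.Lib.MP_4ca46c_ag.Std Pool.Agent.Lib.MP_4ca46c_ag.Nil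
open Pool.Agent.Lib.MP_4ca46c_ag.Nil.PreWeil

section

variable {k₀ : Type} [Field k₀] {F : Type} [Field F] [Algebra k₀ F] {L : Type} [Field L]
  [Algebra k₀ L] [Algebra F L] [IsScalarTower k₀ F L] {X : Var k₀ F}

/-- A composition of conjugates. -/
theorem norm_comp {σ τ : L →ₐ[F] L} (hc : σ.comp τ = AlgHom.id F L)
    {s t : bcX L X ⟶ bcX L X} (hs1 : s ≫ bcPr L X = bcPr L X)
    (hs2 : s ≫ bcStr L X = bcStr L X ≫ ptMap k₀ (σ.restrictScalars k₀))
    (ht1 : t ≫ bcPr L X = bcPr L X)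
    (ht2 : t ≫ bcStr L X = bcStr L X ≫ ptMap k₀ (τ.restrictScalars k₀)) : s ≫ t = 𝟙 _ := by
  apply bc_ext
  · rw [Category.assoc, ht1, hs1, Category.id_comp]
  · rw [Category.assoc, ht2, ← Category.assoc, hs2, Category.assoc, average_ptMap_comp,
      Category.id_comp]
    have h2 : (σ.restrictScalars k₀).comp (τ.restrictScalars k₀) = AlgHom.id k₀ L := by
      ext x
      exact DFunLike.congr_fun hc x
    rw [h2, average_ptMap_id, Category.comp_id]

/-- The conjugate of `X`. -/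
theorem norm_lift (τ : L →ₐ[F] L) : ∃ t : bcX L X ⟶ bcX L X, t ≫ bcPr L X = bcPr L X ∧
    t ≫ bcStr L X = bcStr L X ≫ ptMap k₀ (τ.restrictScalars k₀) := by
  refine ⟨(bc_sq L X).lift (bcPr L X) (bcStr L X ≫ ptMap k₀ (τ.restrictScalars k₀)) ?_,
    (bc_sq L X).lift_fst _ _ _, (bc_sq L X).lift_snd _ _ _⟩
  have h : (τ.restrictScalars k₀).comp (IsScalarTower.toAlgHom k₀ F L) =
      IsScalarTower.toAlgHom k₀ F L := by
    ext x
    exact τ.commutes x
  rw [Category.assoc, average_ptMap_comp, h, (bc_sq L X).w]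

/-- Conjugates are isomorphisms. -/
theorem norm_iso [Algebra.IsAlgebraic F L] (σ : L →ₐ[F] L) {s : bcX L X ⟶ bcX L X}
    (hs1 : s ≫ bcPr L X = bcPr L X)
    (hs2 : s ≫ bcStr L X = bcStr L X ≫ ptMap k₀ (σ.restrictScalars k₀)) : IsIso s := by
  have hbij : Function.Bijective σ := Algebra.IsAlgebraic.algHom_bijective σ
  let e : L ≃ₐ[F] L := AlgEquiv.ofBijective σ hbij
  have hc1 : σ.comp e.symm.toAlgHom = AlgHom.id F L := by
    ext x
    exact e.apply_symm_apply x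
  have hc2 : e.symm.toAlgHom.comp σ = AlgHom.id F L := by
    ext x
    exact e.symm_apply_apply x
  obtain ⟨t, ht1, ht2⟩ := norm_lift (k₀ := k₀) (X := X) e.symm.toAlgHom
  exact ⟨t, norm_comp hc1 hs1 hs2 ht1 ht2, norm_comp hc2 ht1 ht2 hs1 hs2⟩

end

/-- **Numerically trivial cycles over `F` are numerically trivial over `L`.** -/
theorem tNorm (k₀ K : Type) [Field k₀] [Field K] [CharZero K] : StNorm k₀ K := by
  intro T F L _ _ _ _ _ _ _ X c a h b hb
  have hcl : IsAlgClosed L := IsAlgClosure.isAlgClosed F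
  have halg : Algebra.IsAlgebraic F L := IsAlgClosure.isAlgebraic
  have hv := bc_var L X
  have hw : IsWeil (bcX L X) := hv.isWeil
  obtain ⟨N, σ, s, hN, hs, b₀, hb₀, hbs⟩ := T.norm X.str (bcStr L X) (bcPr L X) X.isVar.isSm
    (bc_sq L X) c b hb
  have key : ∀ i : Fin N, T.tr _ (T.cl (bcX L X) (T.pull (bcPr L X) a * T.pull (s i) b)) =
      T.tr _ (T.cl (bcX L X) (T.pull (bcPr L X) a * b)) := by
    intro i
    have hi : IsIso (s i) := norm_iso (σ i) (hs i).1 (hs i).2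
    have e1 : T.pull (bcPr L X) a = T.pull (s i) (T.pull (bcPr L X) a) := by
      rw [← T.pull_comp _ _ hv.sm hv.sm X.isVar.sm, (hs i).1]
    rw [e1, ← map_mul, T.cl_pull _ hw hw, T.tr_iso _ hi hw hw, ← e1]
  have hsum : T.tr _ (T.cl (bcX L X) (T.pull (bcPr L X) (a * b₀))) =
      N * T.tr _ (T.cl (bcX L X) (T.pull (bcPr L X) a * b)) := by
    rw [map_mul, hbs, Finset.mul_sum, map_sum, map_sum, Finset.sum_congr rfl fun i _ => key i,
      Finset.sum_const, Finset.card_univ, Fintype.card_fin, nsmul_eq_mul]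
  rw [h b₀ hb₀] at hsum
  have hN' : (N : K) ≠ 0 := Nat.cast_ne_zero.2 hN.ne'
  exact (mul_eq_zero.1 hsum.symm).resolve_left hN'

end Pool.Agent.Lib.MP_4ca46c_ag.NilGeo
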