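import Mathlib
import Pool.Agent.Lib.MP_4ca46c_ag.NilGeo.Spec1

/-!
# Powers commute with base change
-/

set_option autoImplicit false

namespace Pool.Agent.Lib.MP_4ca46c_ag.NilGeo

open CategoryTheory Limits AlgebraicGeometry TensorProduct
open Pool.Agent.Lib.MP_4ca46c_ag.Sign Pool.Agent.Lib.MP_4ca46c_ag.Hyp
open Pool.Agent.Lib.MP_4ca46c_ag.Std

theorem tPowBC : StPowBC := by
  intro C _ Y S P Y' S' P' y y' t g h ι x p x' p' hP hP' q hq hqx
  have key : ∀ s : PullbackCone x' g, ∃ l : s.pt ⟶ P, l ≫ q = s.fst ∧ l ≫ x = s.snd := by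
    intro s
    have hc : ∀ i, (s.fst ≫ p' i) ≫ y' = s.snd ≫ g := by
      intro i
      rw [Category.assoc, hP'.comm i, s.condition]
    obtain ⟨l, hl1, hl2⟩ := hP.exists_lift s.pt s.snd (fun i => h.lift (s.fst ≫ p' i) s.snd (hc i))
      (fun i => h.lift_snd _ _ (hc i))
    refine ⟨l, ?_, hl1⟩
    apply hP'.hom_ext
    · rw [Category.assoc, hqx, ← Category.assoc, hl1, s.condition]
    · intro i
      rw [Category.assoc, hq, ← Category.assoc, hl2, h.lift_fst]
  have uniq : ∀ (T : C) (l l' : T ⟶ P), l ≫ q = l' ≫ q → l ≫ x = l' ≫ x → l = l' := by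
    intro T l l' h1 h2
    apply hP.hom_ext _ _ _ h2
    intro i
    apply h.hom_ext
    · rw [Category.assoc, Category.assoc, ← hq, ← Category.assoc, h1, Category.assoc]
    · rw [Category.assoc, Category.assoc, hP.comm, h2]
  choose l hl1 hl2 using key
  exact IsPullback.of_isLimit' ⟨hqx⟩ (PullbackCone.IsLimit.mk hqx l hl1 hl2
    (fun s m h1 h2 => uniq _ _ _ (h1.trans (hl1 s).symm) (h2.trans (hl2 s).symm)))

end Pool.Agent.Lib.MP_4ca46c_ag.NilGeo
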