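import Pool.Agent.Lib.MP_4ca46c_ag.NilGeo.Spec1
import Pool.Agent.Lib.MP_4ca46c_ag.Sign.Compl
import Pool.Agent.Lib.MP_4ca46c_ag.Std.HypSec

/-!
# The diagonals of the powers
-/

namespace Pool.Agent.Lib.MP_4ca46c_ag.NilGeo

open CategoryTheory Limits AlgebraicGeometry TensorProduct
open Pool.Agent.Lib.MP_4ca46c_ag.Sign Pool.Agent.Lib.MP_4ca46c_ag.Hyp
open Pool.Agent.Lib.MP_4ca46c_ag.Std

universe v u

theorem powdiag_isPullback {C : Type u} [Category.{v} C] [HasPullbacks C] {Y S P : C}
    {y : Y ⟶ S} {x : P ⟶ S} {ι : Type} {p : ι → (P ⟶ Y)} (hP : IsPow y x p) {a b : ι}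
    (hab : a ≠ b) {T : C} {x' : T ⟶ S} {p' : {c // c ≠ b} → (T ⟶ Y)} (hT : IsPow y x' p')
    (δ : T ⟶ P) (h1 : ∀ c, δ ≫ p c.1 = p' c) (h2 : δ ≫ p b = p' ⟨a, hab⟩) :
    IsPullback δ (p' ⟨a, hab⟩)
      (pullback.lift (p a) (p b) ((hP.comm a).trans (hP.comm b).symm))
      (pullback.diagonal y) := by
  have hx : δ ≫ x = x' := by
    rw [← hP.comm a, ← Category.assoc, h1 ⟨a, hab⟩, hT.comm]
  have hl : ∀ (s : PullbackCone
      (pullback.lift (p a) (p b) ((hP.comm a).trans (hP.comm b).symm))
      (pullback.diagonal y)), ∃ l : s.pt ⟶ T, l ≫ x' = s.fst ≫ x ∧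
      ∀ c, l ≫ p' c = s.fst ≫ p c.1 := fun s =>
    hT.exists_lift s.pt (s.fst ≫ x) (fun c => s.fst ≫ p c.1)
      (fun c => (Category.assoc _ _ _).trans (congrArg (fun g => s.fst ≫ g) (hP.comm c.1)))
  refine ⟨⟨?_⟩, ⟨PullbackCone.IsLimit.mk _ (fun s => (hl s).choose) ?_ ?_ ?_⟩⟩
  · apply pullback.hom_ext
    · rw [Category.assoc, Category.assoc, pullback.lift_fst, pullback.diagonal_fst,
        Category.comp_id, h1 ⟨a, hab⟩]
    · rw [Category.assoc, Category.assoc, pullback.lift_snd, pullback.diagonal_snd,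
        Category.comp_id, h2]
  · intro s
    have e1 : s.fst ≫ p a = s.snd := by
      have h := congrArg (fun f => f ≫ pullback.fst y y) s.condition
      simp only [Category.assoc, pullback.lift_fst, pullback.diagonal_fst, Category.comp_id] at h
      exact h
    have e2 : s.fst ≫ p b = s.snd := by
      have h := congrArg (fun f => f ≫ pullback.snd y y) s.condition
      simp only [Category.assoc, pullback.lift_snd, pullback.diagonal_snd, Category.comp_id] at h
      exact h
    refine hP.hom_ext _ _ _ ?_ fun c => ?_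
    · rw [Category.assoc, hx, (hl s).choose_spec.1]
    · by_cases hc : c = b
      · subst hc
        rw [Category.assoc, h2, (hl s).choose_spec.2, e1, e2]
      · rw [Category.assoc, h1 ⟨c, hc⟩, (hl s).choose_spec.2]
  · intro s
    have e1 : s.fst ≫ p a = s.snd := by
      have h := congrArg (fun f => f ≫ pullback.fst y y) s.condition
      simp only [Category.assoc, pullback.lift_fst, pullback.diagonal_fst, Category.comp_id] at h
      exact h
    rw [(hl s).choose_spec.2, e1]
  · intro s m hm _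
    refine hT.hom_ext _ _ _ ?_ fun c => ?_
    · rw [(hl s).choose_spec.1, ← hx, ← Category.assoc, hm]
    · rw [(hl s).choose_spec.2, ← h1, ← Category.assoc, hm]

theorem tPowDiag (k₀ : Type) [Field k₀] : StPowDiag k₀ := by
  intro F _ _ Y P y x ι p hP hsep a b hab T x' p' hT δ h1 h2
  have hD : IsPullback δ.left (p' ⟨a, hab⟩).left
      (pullback.lift (p a) (p b) ((hP.comm a).trans (hP.comm b).symm)).left
      (pullback.diagonal y).left :=
    (powdiag_isPullback hP hab hT δ h1 h2).map (Over.forget _)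
  refine ⟨?_, ?_⟩
  · exact MorphismProperty.of_isPullback (P := @IsClosedImmersion) hD.flip (diag_closed y)
  · exact compl_range hD

end Pool.Agent.Lib.MP_4ca46c_ag.NilGeo
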