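import Pool.Agent.Lib.MP_4ca46c_ag.NilGeo.Spec1

/-!
Existence of the fibre powers.
-/

namespace Pool.Agent.Lib.MP_4ca46c_ag.NilGeo

open CategoryTheory Limits AlgebraicGeometry TensorProduct
open Pool.Agent.Lib.MP_4ca46c_ag.Sign Pool.Agent.Lib.MP_4ca46c_ag.Hyp
open Pool.Agent.Lib.MP_4ca46c_ag.Std

universe v u

private theorem powex_equiv {C : Type u} [Category.{v} C] {Y S : C} (y : Y ⟶ S) {α β : Type}
    (e : α ≃ β) (h : ∃ (P : C) (x : P ⟶ S) (p : α → (P ⟶ Y)), IsPow y x p) :
    ∃ (P : C) (x : P ⟶ S) (p : β → (P ⟶ Y)), IsPow y x p := by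
  obtain ⟨P, x, p, hp⟩ := h
  refine ⟨P, x, fun b => p (e.symm b), ?_, ?_, ?_⟩
  · intro b
    exact hp.comm _
  · intro T s t ht
    obtain ⟨l, h1, h2⟩ := hp.exists_lift T s (fun a => t (e a)) (fun a => ht _)
    refine ⟨l, h1, fun b => ?_⟩
    rw [h2]
    simp only [Equiv.apply_symm_apply]
  · intro T l l' h1 h2
    refine hp.hom_ext T l l' h1 (fun a => ?_)
    have := h2 (e a)
    simpa only [Equiv.symm_apply_apply] using this

private theorem powex_empty {C : Type u} [Category.{v} C] {Y S : C} (y : Y ⟶ S) :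
    ∃ (P : C) (x : P ⟶ S) (p : PEmpty → (P ⟶ Y)), IsPow y x p := by
  refine ⟨S, 𝟙 S, fun a => a.elim, ?_, ?_, ?_⟩
  · intro a
    exact a.elim
  · intro T s t _
    exact ⟨s, Category.comp_id s, fun a => a.elim⟩
  · intro T l l' h1 _
    simpa using h1

private theorem powex_option {C : Type u} [Category.{v} C] [HasPullbacks C] {Y S : C} (y : Y ⟶ S)
    {α : Type} (h : ∃ (P : C) (x : P ⟶ S) (p : α → (P ⟶ Y)), IsPow y x p) :
    ∃ (P : C) (x : P ⟶ S) (p : Option α → (P ⟶ Y)), IsPow y x p := by
  obtain ⟨P, x, p, hp⟩ := h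
  refine ⟨pullback x y, pullback.fst x y ≫ x,
    fun o => Option.rec (pullback.snd x y) (fun a => pullback.fst x y ≫ p a) o, ?_, ?_, ?_⟩
  · intro o
    cases o with
    | none => exact pullback.condition.symm
    | some a =>
      simp only [Category.assoc]
      rw [hp.comm a]
  · intro T s t ht
    obtain ⟨l, h1, h2⟩ := hp.exists_lift T s (fun a => t (some a)) (fun a => ht _)
    refine ⟨pullback.lift l (t none) (h1.trans (ht none).symm), ?_, ?_⟩
    · rw [pullback.lift_fst_assoc]
      exact h1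
    · intro o
      cases o with
      | none => simp only [pullback.lift_snd]
      | some a =>
        simp only [pullback.lift_fst_assoc]
        exact h2 a
  · intro T l l' h1 h2
    apply pullback.hom_ext
    · refine hp.hom_ext T _ _ ?_ ?_
      · simpa only [Category.assoc] using h1
      · intro a
        simpa only [Category.assoc] using h2 (some a)
    · exact h2 none

theorem tPowEx : StPowEx := by
  intro C _ _ Y S y ι _
  exact Finite.induction_empty_option
    (P := fun ι : Type => ∃ (P : C) (x : P ⟶ S) (p : ι → (P ⟶ Y)), IsPow y x p)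
    (fun e h => powex_equiv y e h) (powex_empty y) (fun h => powex_option y h) ι

end Pool.Agent.Lib.MP_4ca46c_ag.NilGeo
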