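import Mathlib
import Pool.Agent.Lib.MP_4ca46c_ag.NilGeo.Spec1

/-!
# Cycles on the open stratum of the powers of the generic hyperplane section
-/

set_option autoImplicit false

namespace Pool.Agent.Lib.MP_4ca46c_ag.NilGeo

open CategoryTheory Limits AlgebraicGeometry TensorProduct
open Pool.Agent.Lib.MP_4ca46c_ag.Sign Pool.Agent.Lib.MP_4ca46c_ag.Hyp
open Pool.Agent.Lib.MP_4ca46c_ag.Std

section

variable {k₀ : Type} [Field k₀] {k : Type} [Field k] [Algebra k₀ k]

theorem powres_left {X Y : Sch k₀} {f g : X ⟶ Y} (h : f = g) : f.left = g.left := by rw [h]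

/-- the set of points with different coordinates is open -/
theorem powres_isOpen {Z S P : Sch k₀} {str : Z ⟶ S} {x : P ⟶ S} {ι : Type} [Finite ι]
    {p : ι → (P ⟶ Z)} (hP : IsPow str x p)
    (hc : IsClosed (Set.range (pullback.diagonal str).left)) : IsOpen (offD hP) := by
  have h : offD hP = ⋂ a, ⋂ b, ⋂ (_ : a ≠ b),
      ((pullback.lift (p a) (p b) ((hP.comm a).trans (hP.comm b).symm)).left ⁻¹'
        (Set.range (pullback.diagonal str).left)ᶜ) := by
    ext z
    simp only [offD, Set.mem_ofPred_eq, Set.mem_iInter, Set.mem_preimage, Set.mem_compl_iff]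
  rw [h]
  refine isOpen_iInter_of_finite fun a => isOpen_iInter_of_finite fun b =>
    isOpen_iInter_of_finite fun _ => ?_
  exact hc.isOpen_compl.preimage
    (pullback.lift (p a) (p b) ((hP.comm a).trans (hP.comm b).symm)).left.continuous

/-- the points of `offD` are pairwise different -/
theorem powres_ne {Z P U : Sch k₀} {str : Z ⟶ pt k₀ k} {x : P ⟶ pt k₀ k} {ι : Type}
    {p : ι → (P ⟶ Z)} (hP : IsPow str x p) (incl : U ⟶ P)
    (hU : Set.range incl.left ⊆ offD hP) (u : U.left) (a b : ι) (hab : a ≠ b) :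
    U.left.fromSpecResidueField u ≫ (incl ≫ p a).left ≠
      U.left.fromSpecResidueField u ≫ (incl ≫ p b).left := by
  intro hu
  let X : Sch k₀ := Over.mk (U.left.fromSpecResidueField u ≫ U.hom)
  let x' : X ⟶ U := Over.homMk (U.left.fromSpecResidueField u) rfl
  have h1 : x' ≫ incl ≫ p a = x' ≫ incl ≫ p b := by
    apply Over.OverMorphism.ext
    exact hu
  have hcom : p a ≫ str = p b ≫ str := (hP.comm a).trans (hP.comm b).symm
  have h2 : x' ≫ incl ≫ pullback.lift (p a) (p b) hcom = (x' ≫ incl ≫ p a) ≫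
      pullback.diagonal str := by
    apply pullback.hom_ext
    · rw [Category.assoc, Category.assoc, Category.assoc, Category.assoc, Category.assoc,
        pullback.lift_fst, pullback.diagonal_fst, Category.comp_id]
    · rw [Category.assoc, Category.assoc, Category.assoc, Category.assoc, Category.assoc,
        pullback.lift_snd, pullback.diagonal_snd, Category.comp_id, h1]
  have h3 : u ∈ Set.range (U.left.fromSpecResidueField u) := by
    rw [Scheme.range_fromSpecResidueField]
    rfl
  obtain ⟨y, hy⟩ := h3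
  have h4 : (pullback.lift (p a) (p b) hcom).left (incl.left u) ∈
      Set.range (pullback.diagonal str).left := by
    refine ⟨(x' ≫ incl ≫ p a).left y, ?_⟩
    have h5 := congrArg (fun φ => φ y) (powres_left h2)
    refine Eq.trans ?_ (h5.symm.trans ?_)
    · rfl
    · change (pullback.lift (p a) (p b) hcom).left
        (incl.left (U.left.fromSpecResidueField u y)) = _
      rw [hy]
  exact hU ⟨u, rfl⟩ a b hab h4

/-- the points of the power of the generic section -/
theorem powres_offD (V : ProjVar k₀ k) {ι : Type} {PZ : Sch k₀} {xZ : PZ ⟶ pt k₀ k}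
    {pZ : ι → (PZ ⟶ V.X)} (hZ : IsPow V.str xZ pZ) {PY : Sch k₀} {xY : PY ⟶ pt k₀ V.F}
    {pY : ι → (PY ⟶ V.Y₀)} (hY : IsPow V.y₀ xY pY) (ρ : PY ⟶ PZ)
    (hρ : ∀ a, ρ ≫ pZ a = pY a ≫ V.r₀) : ρ.left ⁻¹' (offD hZ) = offD hY := by
  have hD : IsPullback (pullback.diagonal V.y₀).left V.G.r₀.left V.G.rho.left
      (pullback.diagonal V.str).left :=
    (V.G.compl_isPullback).map (Over.forget _)
  have hR : Set.range (pullback.diagonal V.y₀).left =
      V.G.rho.left ⁻¹' Set.range (pullback.diagonal V.str).left := compl_range hD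
  ext y
  have key : ∀ a b, (pullback.lift (pZ a) (pZ b) ((hZ.comm a).trans (hZ.comm b).symm)).left
      (ρ.left y) = V.G.rho.left ((pullback.lift (pY a) (pY b)
        ((hY.comm a).trans (hY.comm b).symm)).left y) := by
    intro a b
    have h : ρ ≫ pullback.lift (pZ a) (pZ b) ((hZ.comm a).trans (hZ.comm b).symm) =
        pullback.lift (pY a) (pY b) ((hY.comm a).trans (hY.comm b).symm) ≫ V.G.rho := by
      apply pullback.hom_ext
      · rw [Category.assoc, pullback.lift_fst, hρ]
        refine Eq.symm ((Category.assoc _ _ _).trans ?_)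
        refine (whisker_eq _ V.G.rho_fst).trans ?_
        exact (Category.assoc _ _ _).symm.trans (eq_whisker (pullback.lift_fst _ _ _) _)
      · rw [Category.assoc, pullback.lift_snd, hρ]
        refine Eq.symm ((Category.assoc _ _ _).trans ?_)
        refine (whisker_eq _ V.G.rho_snd).trans ?_
        exact (Category.assoc _ _ _).symm.trans (eq_whisker (pullback.lift_snd _ _ _) _)
    exact congrArg (fun φ => φ y) (powres_left h)
  constructor
  · intro hy a b hab hm
    refine hy a b hab ?_
    rw [key]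
    rw [hR] at hm
    exact hm
  · intro hy a b hab hm
    refine hy a b hab ?_
    rw [key] at hm
    rw [hR]
    exact hm

end

theorem tPowRes (k₀ K : Type) [Field k₀] [Field K] (h1 : StPowEx) (h2 : StPowBC)
    (h3 : StPowSm k₀) : StPowRes k₀ K := by
  intro T k _ _ V hV4 m hn ι _ _ hcard PZ xZ pZ hZ PY xY pY hY ρ hρ Q j hjo hjr p a ha
  obtain ⟨a₀⟩ := ‹Nonempty ι›
  have hprop := V.isVar.proper
  have hsepV : IsSeparated V.str.left := inferInstance
  -- the power of the universal section
  obtain ⟨PI, xI, pI, hI⟩ := h1 (Sch k₀) (Fam V.C) (sp k₀ V.R) V.toB ι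
  have hcomm : (Fam.inc V.C ≫ Aff.pr V.κ V.X) ≫ V.str = V.toB ≫ spB k₀ k V.R := h_comm V.C
  obtain ⟨q, hq1, hq2⟩ := hZ.exists_lift PI (xI ≫ spB k₀ k V.R)
    (fun a => pI a ≫ Fam.inc V.C ≫ Aff.pr V.κ V.X) (fun a => by
      rw [Category.assoc, hcomm, ← Category.assoc, hI.comm])
  obtain ⟨t, ht1, ht2⟩ := hI.exists_lift PY (xY ≫ spG k₀ V.R V.F) (fun a => pY a ≫ V.toI)
    (fun a => by rw [Category.assoc, V.fibre.w, ← Category.assoc, hY.comm])
  have htq : t ≫ q = ρ := by
    have hpa : ∀ a, (t ≫ q) ≫ pZ a = ρ ≫ pZ a := by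
      intro a
      rw [Category.assoc, hq2, ← Category.assoc, ht2, hρ, Category.assoc]
      rfl
    refine hZ.hom_ext PY _ _ ?_ hpa
    rw [← hZ.comm a₀, ← Category.assoc, hpa a₀, Category.assoc]
  have hBC : IsPullback t xY xI (spG k₀ V.R V.F) :=
    h2 (Sch k₀) V.Y₀ (pt k₀ V.F) PY (Fam V.C) (sp k₀ V.R) PI V.y₀ V.toB V.toI
      (spG k₀ V.R V.F) V.fibre ι xY pY xI pI hY hI t ht2 ht1
  -- the open stratum
  have hopen : IsOpen (offD hZ) := by
    have hcl := diag_closed V.str
    exact powres_isOpen hZ (pullback.diagonal V.str).left.isClosedEmbedding.isClosed_range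
  let UO : PZ.left.Opens := ⟨offD hZ, hopen⟩
  let U : Sch k₀ := Over.mk (UO.ι ≫ PZ.hom)
  let incl : U ⟶ PZ := Over.homMk UO.ι rfl
  have hinclO : IsOpenImmersion incl.left := inferInstanceAs (IsOpenImmersion UO.ι)
  have hinclR : Set.range incl.left = offD hZ := by
    change Set.range UO.ι = _
    rw [Scheme.Opens.range_ι]
    rfl
  -- the affine bundle
  have hbundle : IsAffineBundle (pullback.snd q incl).left := by
    refine hV4 ι hcard U (fun a => incl ≫ pZ a) ?_ ?_ (pullback q incl) (pullback.snd q incl)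
      (fun a => pullback.fst q incl ≫ pI a) ?_ ?_ ?_ ?_
    · intro a b
      rw [Category.assoc, Category.assoc, hZ.comm, hZ.comm]
    · intro u a b hab
      exact powres_ne hZ incl hinclR.le u a b hab
    · intro a
      have h := hq2 a
      rw [Category.assoc, ← h, ← Category.assoc, pullback.condition, Category.assoc]
    · intro a b
      rw [Category.assoc, Category.assoc, hI.comm, hI.comm]
    · intro X u s hs1 hs2
      obtain ⟨l, hl1, hl2⟩ := hI.exists_lift X (s a₀ ≫ V.toB) s (fun a => hs2 a a₀)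
      have hpa : ∀ a, (l ≫ q) ≫ pZ a = (u ≫ incl) ≫ pZ a := by
        intro a
        rw [Category.assoc, hq2, ← Category.assoc, hl2, hs1, Category.assoc]
      have hlu : l ≫ q = u ≫ incl := by
        refine hZ.hom_ext X _ _ ?_ hpa
        rw [← hZ.comm a₀, ← Category.assoc, hpa a₀, Category.assoc]
      refine ⟨pullback.lift l u hlu, pullback.lift_snd _ _ _, fun a => ?_⟩
      rw [← Category.assoc, pullback.lift_fst, hl2]
    · intro X l l' hl1 hl2
      apply pullback.hom_ext
      · have hpa : ∀ a, (l ≫ pullback.fst q incl) ≫ pI a =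
            (l' ≫ pullback.fst q incl) ≫ pI a := by
          intro a
          rw [Category.assoc, Category.assoc, hl2]
        refine hI.hom_ext X _ _ ?_ hpa
        rw [← hI.comm a₀, ← Category.assoc, hpa a₀, Category.assoc]
      · exact hl1
  -- the map between the strata
  let r : pullback ρ incl ⟶ pullback q incl := pullback.lift (pullback.fst ρ incl ≫ t)
    (pullback.snd ρ incl) (by rw [Category.assoc, htq, pullback.condition])
  have hr1 : r ≫ pullback.fst q incl = pullback.fst ρ incl ≫ t := pullback.lift_fst _ _ _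
  have hr2 : r ≫ pullback.snd q incl = pullback.snd ρ incl := pullback.lift_snd _ _ _
  have hrP : IsPullback r (pullback.fst ρ incl) (pullback.fst q incl) t := by
    have e1 : IsPullback (r ≫ pullback.snd q incl) (pullback.fst ρ incl) incl (t ≫ q) := by
      rw [hr2, htq]
      exact (IsPullback.of_hasPullback ρ incl).flip
    exact IsPullback.of_right e1 hr1 (IsPullback.of_hasPullback q incl).flip
  have hrL : IsPullback r.left (pullback.fst ρ incl ≫ xY).left (pullback.fst q incl ≫ xI).left
      (spG k₀ V.R V.F).left := (hrP.paste_vert hBC).map (Over.forget _)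
  have hrf : Flat r.left :=
    MorphismProperty.of_isPullback (P := @Flat) hrL.flip (spG_flat V.R V.F)
  have hrm : Mono r.left :=
    MorphismProperty.of_isPullback (P := MorphismProperty.monomorphisms Scheme) hrL.flip
      (spG_mono V.R V.F)
  have hrq : QuasiCompact r.left :=
    MorphismProperty.of_isPullback (P := @QuasiCompact) hrL.flip (spG_qc V.R V.F)
  -- the open subscheme of `PY`
  have hQ : IsPullback (pullback.fst ρ incl).left (pullback.snd ρ incl).left ρ.left incl.left :=
    (IsPullback.of_hasPullback ρ incl).map (Over.forget _)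
  have hQo : IsOpenImmersion (pullback.fst ρ incl).left :=
    MorphismProperty.of_isPullback (P := @IsOpenImmersion) hQ.flip hinclO
  have hQr : Set.range (pullback.fst ρ incl).left = Set.range j.left := by
    rw [compl_range hQ, hinclR, powres_offD V hZ hY ρ hρ, hjr]
  -- smoothness
  have hsV : IsSm V.str := sms_isSm V.isVar
  obtain ⟨sZ, -, -⟩ := h3 k V.X PZ V.str xZ ι pZ hZ V.n hsV V.isVar.smooth
  obtain ⟨sY, -, -⟩ := h3 V.F V.Y₀ PY V.y₀ xY ι pY hY m (V.isSm₀ m hn) (V.smooth₀ m hn)
  obtain ⟨sU, hqc⟩ := sms_open sZ incl hinclO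
  obtain ⟨sQ₀, -⟩ := sms_open sY (pullback.fst ρ incl) hQo
  obtain ⟨sQ, -⟩ := sms_open sY j hjo
  have sW : Sm (pullback q incl) := by
    have e1 : Smooth (pullback.snd q incl).left := sms_bundle_smooth _ hbundle
    have e2 : IsAffineHom (pullback.snd q incl).left := sms_bundle_affine _ hbundle
    refine ⟨_, _, _, pullback.snd q incl ≫ incl ≫ xZ, ?_, ?_, ?_⟩
    · have e3 := sU.smooth
      rw [Over.comp_left]
      exact smooth_comp _ _
    · have e3 := sU.separated
      rw [Over.comp_left]
      infer_instance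
    · have e3 := sU.quasiCompact
      rw [Over.comp_left]
      infer_instance
  have mZ : Sm PZ := ⟨_, _, _, _, sZ⟩
  have mY : Sm PY := ⟨_, _, _, _, sY⟩
  have mU : Sm U := ⟨_, _, _, _, sU⟩
  have mQ₀ : Sm (pullback ρ incl) := ⟨_, _, _, _, sQ₀⟩
  have mQ : Sm Q := ⟨_, _, _, _, sQ⟩
  -- the factorization of `j`
  let e : Q ⟶ pullback ρ incl := Over.homMk
    (IsOpenImmersion.lift (pullback.fst ρ incl).left j.left hQr.ge) (by
      rw [← Over.w (pullback.fst ρ incl), ← Category.assoc, IsOpenImmersion.lift_fac, Over.w])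
  have he : e ≫ pullback.fst ρ incl = j := by
    apply Over.OverMorphism.ext
    exact IsOpenImmersion.lift_fac _ _ _
  -- the cycles
  have hfl : Flat incl.left := inferInstance
  have hmo : Mono incl.left := inferInstance
  obtain ⟨b, hb, e1⟩ := T.pull_surjective_of_mono r mQ₀ sW hrf hrm hrq p
    (T.pull (pullback.fst ρ incl) a) (T.pull_mem (pullback.fst ρ incl) mQ₀ mY _ a ha)
  obtain ⟨b', hb', e2⟩ := T.pull_surjective_of_affineBundle (pullback.snd q incl) sW mU
    hbundle p b hb
  obtain ⟨w, hw, e3⟩ := T.pull_surjective_of_mono incl mU mZ hfl hmo hqc p b' hb'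
  refine ⟨w, hw, ?_⟩
  have hj : T.pull (pullback.fst ρ incl) (T.pull ρ w) = T.pull (pullback.fst ρ incl) a := by
    rw [← T.pull_comp (pullback.fst ρ incl) ρ mQ₀ mY mZ, ← e1, ← e2, ← e3,
      ← T.pull_comp (pullback.snd q incl) incl sW mU mZ, ← T.pull_comp r _ mQ₀ sW mZ]
    congr 2
    rw [← Category.assoc, hr2]
    exact pullback.condition
  rw [← he, T.pull_comp e _ mQ mQ₀ mY, T.pull_comp e _ mQ mQ₀ mY, hj]

end Pool.Agent.Lib.MP_4ca46c_ag.NilGeo
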