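import Pool.Agent.Lib.MP_4ca46c_ag.NilGeo.Spec1

/-!
# Powers of smooth schemes are smooth
-/

namespace Pool.Agent.Lib.MP_4ca46c_ag.NilGeo

open CategoryTheory Limits AlgebraicGeometry TensorProduct
open Pool.Agent.Lib.MP_4ca46c_ag.Sign Pool.Agent.Lib.MP_4ca46c_ag.Hyp
open Pool.Agent.Lib.MP_4ca46c_ag.Std

universe v u

/-- reindexing of a power -/
theorem powsm_reindex {C : Type u} [Category.{v} C] {Y S P : C} {y : Y ⟶ S} {x : P ⟶ S}
    {ι κ : Type} (e : ι ≃ κ) {p : κ → (P ⟶ Y)} (h : IsPow y x p) :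
    IsPow y x (fun a => p (e a)) where
  comm a := h.comm _
  exists_lift T s t ht := by
    obtain ⟨l, hl1, hl2⟩ := h.exists_lift T s (fun b => t (e.symm b)) (fun b => ht _)
    refine ⟨l, hl1, fun a => ?_⟩
    rw [hl2, e.symm_apply_apply]
  hom_ext T l l' h1 h2 := by
    refine h.hom_ext T l l' h1 fun b => ?_
    have h3 := h2 (e.symm b)
    simp only [e.apply_symm_apply] at h3
    exact h3

/-- the empty power -/
theorem powsm_empty {C : Type u} [Category.{v} C] {Y S P : C} {y : Y ⟶ S} {x : P ⟶ S}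
    {ι : Type} [IsEmpty ι] {p : ι → (P ⟶ Y)} (h : IsPow y x p) : IsIso x := by
  obtain ⟨l, hl, _⟩ := h.exists_lift S (𝟙 S) (fun a => isEmptyElim a) (fun a => isEmptyElim a)
  refine ⟨l, ?_, hl⟩
  refine h.hom_ext P (x ≫ l) (𝟙 P) ?_ (fun a => isEmptyElim a)
  rw [Category.assoc, hl, Category.comp_id, Category.id_comp]

/-- one more factor -/
theorem powsm_option {C : Type u} [Category.{v} C] {Y S P P₁ : C} {y : Y ⟶ S} {x : P ⟶ S}
    {x₁ : P₁ ⟶ S} {ι : Type} {p : Option ι → (P ⟶ Y)} (h : IsPow y x p) {p₁ : ι → (P₁ ⟶ Y)}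
    (h₁ : IsPow y x₁ p₁) : ∃ q : P ⟶ P₁, q ≫ x₁ = x ∧ IsPullback q (p none) x₁ y := by
  obtain ⟨q, hq1, hq2⟩ := h₁.exists_lift P x (fun a => p (some a)) (fun a => h.comm _)
  refine ⟨q, hq1, ⟨⟨?_⟩, ⟨PullbackCone.IsLimit.mk _ ?_ ?_ ?_ ?_⟩⟩⟩
  · rw [hq1, h.comm]
  · intro s
    exact Classical.choose (h.exists_lift s.pt (s.fst ≫ x₁)
      (fun a => Option.rec s.snd (fun b => s.fst ≫ p₁ b) a) (by
        rintro (_ | b)
        · exact s.condition.symm
        · show (s.fst ≫ p₁ b) ≫ y = s.fst ≫ x₁
          rw [Category.assoc, h₁.comm]))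
  · intro s
    have hs := Classical.choose_spec (h.exists_lift s.pt (s.fst ≫ x₁)
      (fun a => Option.rec s.snd (fun b => s.fst ≫ p₁ b) a) (by
        rintro (_ | b)
        · exact s.condition.symm
        · show (s.fst ≫ p₁ b) ≫ y = s.fst ≫ x₁
          rw [Category.assoc, h₁.comm]))
    refine h₁.hom_ext _ _ _ ?_ ?_
    · rw [Category.assoc, hq1]
      exact hs.1
    · intro b
      rw [Category.assoc, hq2]
      exact hs.2 (some b)
  · intro s
    have hs := Classical.choose_spec (h.exists_lift s.pt (s.fst ≫ x₁)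
      (fun a => Option.rec s.snd (fun b => s.fst ≫ p₁ b) a) (by
        rintro (_ | b)
        · exact s.condition.symm
        · show (s.fst ≫ p₁ b) ≫ y = s.fst ≫ x₁
          rw [Category.assoc, h₁.comm]))
    exact hs.2 none
  · intro s m hm1 hm2
    have hs := Classical.choose_spec (h.exists_lift s.pt (s.fst ≫ x₁)
      (fun a => Option.rec s.snd (fun b => s.fst ≫ p₁ b) a) (by
        rintro (_ | b)
        · exact s.condition.symm
        · show (s.fst ≫ p₁ b) ≫ y = s.fst ≫ x₁
          rw [Category.assoc, h₁.comm]))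
    refine h.hom_ext _ _ _ ?_ ?_
    · rw [hs.1, ← hq1, ← Category.assoc, hm1]
    · rintro (_ | b)
      · rw [hm2]
        exact (hs.2 none).symm
      · rw [← hq2 b, ← Category.assoc, hm1]
        rw [hq2 b]
        exact (hs.2 (some b)).symm

variable (k₀ : Type) [Field k₀]

theorem tPowSm (h : StPowEx) : StPowSm k₀ := by
  intro F _ _ Y P y x ι _ p hP m hy hm
  revert P x p
  refine Finite.induction_empty_option (P := fun ι => ∀ (P : Sch k₀) (x : P ⟶ pt k₀ F)
    (p : ι → (P ⟶ Y)), IsPow y x p → IsSm x ∧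
    SmoothOfRelativeDimension (Nat.card ι * m) x.left ∧ (IsProper y.left → IsProper x.left))
    ?_ ?_ ?_ ι
  · intro α β e hα P x p hP
    have := hα P x _ (powsm_reindex e hP)
    rw [Nat.card_congr e] at this
    exact this
  · intro P x p hP
    have h1 : IsIso x := powsm_empty hP
    have h2 : IsIso x.left := inferInstanceAs (IsIso ((Over.forget _).map x))
    rw [Nat.card_eq_zero.2 (Or.inl inferInstance), zero_mul]
    have h3 : SmoothOfRelativeDimension 0 x.left := inferInstance
    exact ⟨⟨h3.smooth, inferInstance, inferInstance⟩, h3, fun _ => inferInstance⟩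
  · intro α _ hα P x p hP
    obtain ⟨P₁, x₁, p₁, hP₁⟩ := h (Sch k₀) Y (pt k₀ F) y α
    obtain ⟨h1, h2, h3⟩ := hα P₁ x₁ p₁ hP₁
    obtain ⟨q, hq, hpb⟩ := powsm_option hP hP₁
    have hpb' : IsPullback q.left (p none).left x₁.left y.left := hpb.map (Over.forget _)
    have := smoothOfRelativeDimension_isStableUnderBaseChange m
    have h5 : SmoothOfRelativeDimension m q.left :=
      MorphismProperty.of_isPullback (P := @SmoothOfRelativeDimension m) hpb'.flip hm
    have hys := hy.separated
    have hyq := hy.quasiCompact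
    have h6 : IsSeparated q.left :=
      MorphismProperty.of_isPullback (P := @IsSeparated) hpb'.flip hys
    have h7 : QuasiCompact q.left :=
      MorphismProperty.of_isPullback (P := @QuasiCompact) hpb'.flip hyq
    have hxs := h1.separated
    have hxq := h1.quasiCompact
    have h8 : SmoothOfRelativeDimension (Nat.card (Option α) * m) x.left := by
      rw [← hq, Over.comp_left, Finite.card_option,
        show (Nat.card α + 1) * m = m + Nat.card α * m by ring]
      infer_instance
    refine ⟨⟨h8.smooth, ?_, ?_⟩, h8, ?_⟩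
    · rw [← hq, Over.comp_left]
      infer_instance
    · rw [← hq, Over.comp_left]
      infer_instance
    · intro hp
      have h9 : IsProper q.left := MorphismProperty.of_isPullback (P := @IsProper) hpb'.flip hp
      have h10 := h3 hp
      rw [← hq, Over.comp_left]
      infer_instance

end Pool.Agent.Lib.MP_4ca46c_ag.NilGeo
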