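import Pool.Agent.Lib.MP_4ca46c_ag.NilGeo.Spec2

/-!
# The powers of a projective variety are projective
-/

namespace Pool.Agent.Lib.MP_4ca46c_ag.NilGeo

open CategoryTheory Limits AlgebraicGeometry TensorProduct MonoidalCategory
  CartesianMonoidalCategory
open Pool.Agent.Lib.MP_4ca46c_ag.Sign Pool.Agent.Lib.MP_4ca46c_ag.Hyp
open Pool.Agent.Lib.MP_4ca46c_ag.Std Pool.Agent.Lib.MP_4ca46c_ag.Nil
open Pool.Agent.Lib.MP_4ca46c_ag.Nil.PreWeil

variable {k₀ : Type} [Field k₀]

theorem projpow_iso {L : Type} [Field L] [Algebra k₀ L] {X X' : Sch k₀} {x : X ⟶ pt k₀ L}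
    {x' : X' ⟶ pt k₀ L} (f : X ⟶ X') (hf : IsIso f) (h : f ≫ x' = x) (hx' : IsProj x') :
    IsProj x := by
  obtain ⟨κ, h1, h2, e, he, hs⟩ := hx'
  refine ⟨κ, h1, h2, f ≫ e, ?_, by rw [Category.assoc, hs, h]⟩
  rw [Over.comp_left]
  have h3 : IsIso f.left := inferInstanceAs (IsIso ((Over.forget _).map f))
  infer_instance

variable {F L : Type} [Field F] [Algebra k₀ F] [Field L] [Algebra k₀ L]
  [Algebra F L] [IsScalarTower k₀ F L] [IsAlgClosed L]

omit [IsAlgClosed L] in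
theorem projpow_var {A B : Var k₀ F} (f : A ≅ B) (h : IsProj (bcStr L B)) : IsProj (bcStr L A) :=
  projpow_iso (bcM L f.hom) (bcM_iso L f) (bcM_str L f.hom) h

theorem projpow_prod {A B : Var k₀ F} (hA : IsProj (bcStr L A)) (hB : IsProj (bcStr L B)) :
    IsProj (bcStr L (A ⊗ B)) := by
  have h := hA.prod hB (bc_var L A) (bc_var L B)
  refine projpow_iso (bcM_prod L A B).isoPullback.hom inferInstance ?_ h
  rw [← Category.assoc, IsPullback.isoPullback_hom_fst]
  exact bcM_str L (fst A B)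

omit [IsAlgClosed L] in
theorem projpow_one : IsProj (bcStr L (𝟙_ (Var k₀ F))) := by
  have h1 : IsIso (𝟙_ (Var k₀ F)).str := inferInstanceAs (IsIso (𝟙 (pt k₀ F)))
  have h2 : IsIso (bcStr L (𝟙_ (Var k₀ F))) :=
    inferInstanceAs (IsIso (pullback.snd (𝟙_ (Var k₀ F)).str (bcS k₀ F L)))
  exact projpow_iso (bcStr L (𝟙_ (Var k₀ F))) h2 (Category.comp_id _) isProj_pt

theorem tProjPow (k₀ : Type) [Field k₀] : StProjPow k₀ := by
  intro F L _ _ _ _ _ _ _ Y hY ι _
  refine Finite.induction_empty_option (P := fun ι => ∀ _ : Finite ι, IsProj (bcStr L (pw Y ι)))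
    ?_ ?_ ?_ ι inferInstance
  · intro α β e h hβ
    have hα : Finite α := Finite.of_equiv β e.symm
    exact projpow_var (pmIso Y e) (h hα)
  · intro _
    exact projpow_var (pmIso Y (Equiv.equivOfIsEmpty Empty PEmpty))
      (projpow_var (pwEmpty Y) projpow_one)
  · intro α _ h h'
    have hα : Finite α := inferInstance
    exact projpow_var (pmIso Y (Equiv.optionEquivSumPUnit α).symm) (projpow_var (pwSum Y α PUnit)
      (projpow_prod (h hα) (projpow_var (pwUnit Y) hY)))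

end Pool.Agent.Lib.MP_4ca46c_ag.NilGeo
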