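import Pool.Agent.Lib.MP_4ca46c_ag.NilGeo.Spec2

/-!
# The powers in the category of varieties are fibre powers
-/

namespace Pool.Agent.Lib.MP_4ca46c_ag.NilGeo

open CategoryTheory Limits AlgebraicGeometry TensorProduct MonoidalCategory
  CartesianMonoidalCategory
open Pool.Agent.Lib.MP_4ca46c_ag.Sign Pool.Agent.Lib.MP_4ca46c_ag.Hyp
open Pool.Agent.Lib.MP_4ca46c_ag.Std Pool.Agent.Lib.MP_4ca46c_ag.Nil
open Pool.Agent.Lib.MP_4ca46c_ag.Nil.PreWeil

variable {k₀ F : Type} [Field k₀] [Field F] [Algebra k₀ F]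

theorem pwpow_hom_comp {X Y Z : Var k₀ F} {T : Sch k₀} (l : T ⟶ X.X) (f : X ⟶ Y) (g : Y ⟶ Z) :
    (l ≫ f.hom) ≫ g.hom = l ≫ (f ≫ g).hom := by
  rw [Var.comp_hom, Category.assoc]

theorem pwpow_equiv (Y : Var k₀ F) {α β : Type} [Finite α] [Finite β] (e : α ≃ β)
    (h : IsPow Y.str (pw Y α).str (fun a => (pj Y a).hom)) :
    IsPow Y.str (pw Y β).str (fun a => (pj Y a).hom) := by
  refine ⟨fun b => (pj Y b).comm, fun T s t ht => ?_, fun T l l' h1 h2 => ?_⟩
  · obtain ⟨l, hl, hl'⟩ := h.exists_lift T s (fun a => t (e a)) fun a => ht (e a)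
    refine ⟨l ≫ (pm Y e.symm).hom, ?_, fun b => ?_⟩
    · rw [Category.assoc, (pm Y e.symm).comm, hl]
    · rw [pwpow_hom_comp, pm_pj]
      have h1 := hl' (e.symm b)
      rw [h1, Equiv.apply_symm_apply]
  · have h3 : l ≫ (pm Y e).hom = l' ≫ (pm Y e).hom := by
      refine h.hom_ext T _ _ ?_ fun a => ?_
      · rw [Category.assoc, (pm Y e).comm, Category.assoc, (pm Y e).comm, h1]
      · rw [pwpow_hom_comp, pwpow_hom_comp, pm_pj]
        exact h2 (e a)
    have h4 : pm Y e ≫ pm Y e.symm = 𝟙 (pw Y β) := by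
      rw [pm_comp, Equiv.self_comp_symm, pm_id]
    have h5 := congrArg (fun m => m ≫ (pm Y e.symm).hom) h3
    simp only [pwpow_hom_comp, h4] at h5
    rwa [Var.id_hom, Category.comp_id, Category.comp_id] at h5

theorem pwpow_empty (Y : Var k₀ F) :
    IsPow Y.str (pw Y PEmpty.{1}).str (fun a => (pj Y a).hom) := by
  let f : pw Y PEmpty.{1} ⟶ 𝟙_ (Var k₀ F) := toUnit _
  let g : 𝟙_ (Var k₀ F) ⟶ pw Y PEmpty.{1} := pl fun i => i.elim
  have hfg : f ≫ g = 𝟙 _ := pw_ext Y fun i => i.elim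
  have hf : f.hom = (pw Y PEmpty.{1}).str := by
    have h1 := f.comm
    have h2 : (𝟙_ (Var k₀ F)).str = 𝟙 (pt k₀ F) := rfl
    rw [h2] at h1
    exact (Category.comp_id _).symm.trans h1
  have hg : g.hom ≫ (pw Y PEmpty.{1}).str = 𝟙 (pt k₀ F) := g.comm
  refine ⟨fun b => (pj Y b).comm, fun T s t ht => ?_, fun T l l' h1 h2 => ?_⟩
  · refine ⟨s ≫ g.hom, ?_, fun b => b.elim⟩
    rw [Category.assoc]
    exact (congrArg (fun m => s ≫ m) hg).trans (Category.comp_id _)
  · have h3 : l ≫ f.hom = l' ≫ f.hom := by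
      rw [hf]
      exact h1
    have h5 := congrArg (fun m => m ≫ g.hom) h3
    simp only [pwpow_hom_comp, hfg] at h5
    rwa [Var.id_hom, Category.comp_id, Category.comp_id] at h5

theorem pwpow_option (Y : Var k₀ F) {α : Type} [Finite α]
    (h : IsPow Y.str (pw Y α).str (fun a => (pj Y a).hom)) :
    IsPow Y.str (pw Y (Option α)).str (fun a => (pj Y a).hom) := by
  let f : pw Y (Option α) ⟶ pw Y α ⊗ Y := lift (pm Y some) (pj Y none)
  let g : pw Y α ⊗ Y ⟶ pw Y (Option α) :=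
    pl fun o => o.elim (snd _ _) (fun a => fst _ _ ≫ pj Y a)
  have hgn : g ≫ pj Y none = snd _ _ := pl_pj _ _ _
  have hgs : ∀ a, g ≫ pj Y (some a) = fst _ _ ≫ pj Y a := fun a => pl_pj _ _ _
  have hf1 : f ≫ fst _ _ = pm Y some := lift_fst _ _
  have hf2 : f ≫ snd _ _ = pj Y none := lift_snd _ _
  have hfg : f ≫ g = 𝟙 _ := by
    refine pw_ext Y fun i => ?_
    rw [Category.assoc, Category.id_comp]
    rcases i with _ | a
    · rw [hgn, hf2]
    · rw [hgs, ← Category.assoc, hf1, pm_pj]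
  refine ⟨fun b => (pj Y b).comm, fun T s t ht => ?_, fun T l l' h1 h2 => ?_⟩
  · obtain ⟨l, hl, hl'⟩ := h.exists_lift T s (fun a => t (some a)) fun a => ht (some a)
    let m : T ⟶ (pw Y α ⊗ Y).X := pullback.lift l (t none) (by rw [hl, ht])
    have hm1 : m ≫ (fst (pw Y α) Y).hom = l := pullback.lift_fst _ _ _
    have hm2 : m ≫ (snd (pw Y α) Y).hom = t none := pullback.lift_snd _ _ _
    refine ⟨m ≫ g.hom, ?_, fun b => ?_⟩
    · rw [Category.assoc, g.comm, ← (fst (pw Y α) Y).comm, ← Category.assoc, hm1, hl]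
    · rw [pwpow_hom_comp]
      rcases b with _ | a
      · rw [hgn, hm2]
      · rw [hgs, ← pwpow_hom_comp, hm1]
        exact hl' a
  · have h3 : l ≫ f.hom = l' ≫ f.hom := by
      refine pullback.hom_ext ?_ ?_
      · have e1 : (l ≫ f.hom) ≫ (fst (pw Y α) Y).hom = (l' ≫ f.hom) ≫ (fst (pw Y α) Y).hom := by
          rw [pwpow_hom_comp, pwpow_hom_comp, hf1]
          refine h.hom_ext T _ _ ?_ fun a => ?_
          · rw [Category.assoc, (pm Y some).comm, Category.assoc, (pm Y some).comm, h1]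
          · rw [pwpow_hom_comp, pwpow_hom_comp, pm_pj]
            exact h2 (some a)
        exact e1
      · have e1 : (l ≫ f.hom) ≫ (snd (pw Y α) Y).hom = (l' ≫ f.hom) ≫ (snd (pw Y α) Y).hom := by
          rw [pwpow_hom_comp, pwpow_hom_comp, hf2]
          exact h2 none
        exact e1
    have h5 := congrArg (fun m => m ≫ g.hom) h3
    simp only [pwpow_hom_comp, hfg] at h5
    rwa [Var.id_hom, Category.comp_id, Category.comp_id] at h5

theorem tPwPow (k₀ : Type) [Field k₀] : StPwPow k₀ := by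
  intro F _ _ Y ι _
  have h : ∀ [Finite ι], IsPow Y.str (pw Y ι).str (fun a => (pj Y a).hom) := by
    refine Finite.induction_empty_option
      (P := fun ι => ∀ [Finite ι], IsPow Y.str (pw Y ι).str (fun a => (pj Y a).hom)) ?_ ?_ ?_ ι
    · intro α β e ih _
      have : Finite α := Finite.of_equiv _ e.symm
      exact pwpow_equiv Y e ih
    · intro _
      exact pwpow_empty Y
    · intro α _ ih _
      exact pwpow_option Y ih
  exact h

end Pool.Agent.Lib.MP_4ca46c_ag.NilGeo
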