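import Pool.Agent.Lib.MP_4ca46c_ag.NilGeo.Spec2

/-!
# Step 0, formal part
-/

namespace Pool.Agent.Lib.MP_4ca46c_ag.NilGeo

open CategoryTheory Limits AlgebraicGeometry TensorProduct MonoidalCategory
  CartesianMonoidalCategory
open Pool.Agent.Lib.MP_4ca46c_ag.Sign Pool.Agent.Lib.MP_4ca46c_ag.Hyp
open Pool.Agent.Lib.MP_4ca46c_ag.Std Pool.Agent.Lib.MP_4ca46c_ag.Nil
open Pool.Agent.Lib.MP_4ca46c_ag.Nil.PreWeil

universe v u

section gen

variable {K : Type} [Field K] [CharZero K] {𝒱 : Type u} [Category.{v} 𝒱]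
  [CartesianMonoidalCategory 𝒱] (W : PreWeil K 𝒱)

theorem stepf_alg_zero {X : 𝒱} {x : W.H X} (hx : x ∈ W.Alg X 0) : ∃ c : K, x = c • 1 := by
  obtain ⟨c, hc⟩ := W.connected (W.alg_gr hx)
  exact ⟨c, by rw [hc, Algebra.algebraMap_eq_smul_one]⟩

theorem stepf_two {Y Z : 𝒱} (r : Y ⟶ Z) : pwr r (Fin 2) =
    (pwTwo Y).hom ≫ lift (fst Y Y ≫ r) (snd Y Y ≫ r) ≫ (pwTwo Z).inv := by
  have h : pwr r (Fin 2) ≫ (pwTwo Z).hom =
      (pwTwo Y).hom ≫ lift (fst Y Y ≫ r) (snd Y Y ≫ r) := by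
    have hY1 : (pwTwo Y).hom ≫ fst _ _ = pj Y (0 : Fin 2) := lift_fst _ _
    have hY2 : (pwTwo Y).hom ≫ snd _ _ = pj Y (1 : Fin 2) := lift_snd _ _
    have hZ1 : (pwTwo Z).hom ≫ fst _ _ = pj Z (0 : Fin 2) := lift_fst _ _
    have hZ2 : (pwTwo Z).hom ≫ snd _ _ = pj Z (1 : Fin 2) := lift_snd _ _
    apply CartesianMonoidalCategory.hom_ext
    · rw [Category.assoc, hZ1, pwr, pl_pj, Category.assoc, lift_fst, ← Category.assoc, hY1]
    · rw [Category.assoc, hZ2, pwr, pl_pj, Category.assoc, lift_snd, ← Category.assoc, hY2]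
  rw [← Category.assoc, ← h, Category.assoc, Iso.hom_inv_id, Category.comp_id]

end gen

theorem tStepF (h1 : StDg) (h2 : StOpR) : StStepF := by
  intro K _ _ 𝒱 _ _ W Y Z r hF hdim u hu
  have hα : W.pull (pwTwo Y).hom u ∈ W.Alg (pw Y (Fin 2)) (0 + W.dim Y) := by
    rw [zero_add]
    exact W.alg_pull _ hu
  obtain ⟨w, hw, b, hb, e⟩ := hF (Fin 2) (by rw [Fintype.card_fin]; omega) 0 _ hα
  rw [zero_add] at hw
  choose c hc using fun q => stepf_alg_zero W (hb q)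
  have hdg : ∀ q : {q : Fin 2 × Fin 2 // q.1 ≠ q.2}, W.dg Y q.1.1 q.1.2 =
      W.dg Y (0 : Fin 2) 1 := by
    rintro ⟨⟨a, a'⟩, h⟩
    fin_cases a <;> fin_cases a'
    · exact absurd rfl h
    · rfl
    · exact (h1 K 𝒱 W Y (Fin 2) 1 0).2.1
    · exact absurd rfl h
  have hsum : ∑ q : {q : Fin 2 × Fin 2 // q.1 ≠ q.2},
      W.push (pm Y (dl q.1.1 q.1.2 q.2)) (b q) = (∑ q, c q) • W.dg Y (0 : Fin 2) 1 := by
    rw [Finset.sum_smul]
    refine Finset.sum_congr rfl fun q _ => ?_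
    rw [hc q, map_smul, (h1 K 𝒱 W Y (Fin 2) q.1.1 q.1.2).1 q.2, hdg q]
  set κ : K := ∑ q, c q with hκ
  set w' : W.H (Z ⊗ Z) := W.pull (pwTwo Z).inv w with hw'
  have hu' : u = W.pull (lift (fst Y Y ≫ r) (snd Y Y ≫ r)) w' + κ • W.graph (𝟙 Y) := by
    have e1 : W.pull (pwTwo Y).hom u = W.pull (pwTwo Y).hom
        (W.pull (lift (fst Y Y ≫ r) (snd Y Y ≫ r)) w' + κ • W.graph (𝟙 Y)) := by
      rw [e, hsum, stepf_two, W.pull_comp, W.pull_comp, map_add, map_smul]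
      rfl
    have e2 := congrArg (W.pull (pwTwo Y).inv) e1
    rwa [← W.pull_comp, ← W.pull_comp, Iso.inv_hom_id, W.pull_id, W.pull_id] at e2
  refine ⟨κ, ?_⟩
  have h3 : W.op u - κ • LinearMap.id = (W.pull r).toLinearMap ∘ₗ W.op w' ∘ₗ W.push r := by
    have h4 : W.op (W.graph (𝟙 Y)) = LinearMap.id := by
      rw [W.op_graph]
      exact LinearMap.ext fun x => W.pull_id x
    rw [hu', W.op_add, W.op_smul, h2 K 𝒱 W Y Z r w', h4]
    exact add_sub_cancel_right _ _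
  rw [h3]
  refine ⟨W.op w', Submodule.subset_span (W.mem_cor.2 (Or.inr ⟨W.dim Y, w', ?_, ?_, rfl⟩)), rfl⟩
  · rw [hdim]
    push_cast
    ring
  · exact W.alg_pull _ hw

end Pool.Agent.Lib.MP_4ca46c_ag.NilGeo
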