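import Mathlib
import Pool.Agent.Lib.MP_4ca46c_ag.Nil.All
import Pool.Agent.Lib.MP_4ca46c_ag.NilGeo.ClsG
import Pool.Agent.Lib.MP_4ca46c_ag.NilGeo.DescG
import Pool.Agent.Lib.MP_4ca46c_ag.NilGeo.Dg
import Pool.Agent.Lib.MP_4ca46c_ag.NilGeo.Fil
import Pool.Agent.Lib.MP_4ca46c_ag.NilGeo.FilG
import Pool.Agent.Lib.MP_4ca46c_ag.NilGeo.FourF
import Pool.Agent.Lib.MP_4ca46c_ag.NilGeo.Loc
import Pool.Agent.Lib.MP_4ca46c_ag.NilGeo.LocalN
import Pool.Agent.Lib.MP_4ca46c_ag.NilGeo.NilPow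
import Pool.Agent.Lib.MP_4ca46c_ag.NilGeo.NilSpan
import Pool.Agent.Lib.MP_4ca46c_ag.NilGeo.Norm
import Pool.Agent.Lib.MP_4ca46c_ag.NilGeo.PowBC
import Pool.Agent.Lib.MP_4ca46c_ag.NilGeo.PowDiag
import Pool.Agent.Lib.MP_4ca46c_ag.NilGeo.PowEx
import Pool.Agent.Lib.MP_4ca46c_ag.NilGeo.PowRes
import Pool.Agent.Lib.MP_4ca46c_ag.NilGeo.PowSm
import Pool.Agent.Lib.MP_4ca46c_ag.NilGeo.ProjPow
import Pool.Agent.Lib.MP_4ca46c_ag.NilGeo.PwPow
import Pool.Agent.Lib.MP_4ca46c_ag.NilGeo.QSpan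
import Pool.Agent.Lib.MP_4ca46c_ag.NilGeo.StepF
import Pool.Agent.Lib.MP_4ca46c_ag.Std.Trdeg

/-!
# Nilpotence implies the sign conjecture: one variety
-/

set_option autoImplicit false

open CategoryTheory Limits AlgebraicGeometry MonoidalCategory CartesianMonoidalCategory
  TensorProduct

namespace Pool.Agent.Lib.MP_4ca46c_ag.NilGeo

open Pool.Agent.Lib.MP_4ca46c_ag.Sign Pool.Agent.Lib.MP_4ca46c_ag.Nil
open Pool.Agent.Lib.MP_4ca46c_ag.Hyp Pool.Agent.Lib.MP_4ca46c_ag.Std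
open Pool.Agent.Lib.MP_4ca46c_ag.Nil.PreWeil

theorem allStepF : StStepF := tStepF tDg tOpR

theorem allFil (k₀ K : Type) [Field k₀] [Field K] : StFil k₀ K :=
  tFil k₀ K (tPowSm k₀ tPowEx) (tPowDiag k₀) (tLoc k₀ K)
    (tPowRes k₀ K tPowEx tPowBC (tPowSm k₀ tPowEx))

theorem allFilG (k₀ K : Type) [Field k₀] [Field K] [CharZero K] : StFilG k₀ K :=
  tFilG k₀ K (allFil k₀ K) (tPwPow k₀)

variable {k₀ K : Type} [Field k₀] [Field K] [CharZero K]
  {k : Type} [Field k] [Algebra k₀ k] [IsAlgClosed k] {T : WeilTheory k₀ K} (E : Extra T)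

/-- **Nilpotence implies the sign conjecture**, one variety. -/
theorem nil_sign (X : ProjVar k₀ k) :
    ∃ (L : Type) (_ : Field L) (_ : Algebra k₀ L) (_ : IsAlgClosed L),
      (Cardinal.aleph0 ≤ Algebra.trdeg k₀ k → Nonempty (L ≃ₐ[k₀] k)) ∧
      ((∀ Y : ProjVar k₀ k, NilQ T Y.str Y.n) → (∀ Y : ProjVar k₀ L, NilQ T Y.str Y.n) →
        (X.toP E).SignConj) := by
  by_cases h0 : X.n = 0
  · refine ⟨k, inferInstance, inferInstance, inferInstance, fun _ => ⟨AlgEquiv.refl⟩,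
      fun _ _ => ?_⟩
    exact (tEasy' k₀ K T (X.toP E)).2.1 ((tEasy' k₀ K T (X.toP E)).2.2 h0).1
  · let V := sqV X
    have hn : V.n = (X.n + X.n - 1) + 1 := by
      change X.n + X.n = _
      omega
    have hm : 1 ≤ X.n + X.n - 1 := by omega
    refine ⟨V.L, inferInstance, inferInstance, inferInstance, fun h => ?_, fun hN hN' => ?_⟩
    · exact closure_equiv k₀ k V.κ V.F V.L h
    · refine localn_main E X allMM allStepF (tFourF tDg)
        (allFilG k₀ K) (tNilPow k₀ K) (tProjPow k₀) (tDescG k₀ K)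
        allQ2 allQ2o allK12 tK22 (X.n + X.n - 1) hm hn (beta T V) (beta₂_fst V) (beta₂_snd V)
        (beta_gr V) (beta_tr E V) (beta₂_tr E V) (fun t => ?_) hN hN'
      have h1 := gR_tr E V (X.n + X.n - 1) hm hn t
      rw [← beta_cl V] at h1
      exact h1

end Pool.Agent.Lib.MP_4ca46c_ag.NilGeo
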