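import Pool.Agent.Lib.MP_4ca46c_ag.Nil.Pre
import Pool.Agent.Lib.MP_4ca46c_ag.Nil.P.Trace
import Pool.Agent.Lib.MP_4ca46c_ag.Std.GenV

/-!
# The generic hyperplane section as a variety over the function field

`gY V` is the generic hyperplane section over `V.F`, `gZ V` the base change of `V` to `V.F` and
`gR V : gY V ⟶ gZ V` the inclusion. Classes of cycles in the cohomology theory `pre T F'`.
-/

namespace Pool.Agent.Lib.MP_4ca46c_ag.NilGeo

open CategoryTheory Limits AlgebraicGeometry TensorProduct MonoidalCategory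
  CartesianMonoidalCategory
open Pool.Agent.Lib.MP_4ca46c_ag.Sign Pool.Agent.Lib.MP_4ca46c_ag.Hyp
open Pool.Agent.Lib.MP_4ca46c_ag.Std Pool.Agent.Lib.MP_4ca46c_ag.Nil

/-- Descent of geometric connectedness. -/
theorem geomconn_descent {X X' : Scheme.{0}} {F L : Type} [Field F] [Field L]
    {f : X ⟶ Spec (.of F)} {f' : X' ⟶ Spec (.of L)} {g : X' ⟶ X}
    {s : Spec (.of L) ⟶ Spec (.of F)} (h : IsPullback g f' f s)
    (hc : GeometricallyConnected f') : GeometricallyConnected f := by
  refine ⟨fun K _ y Z fst snd hZ => ?_⟩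
  have hsur : ∀ {A B : Type} [Field A] [Field B] (u : Spec (.of A) ⟶ Spec (.of B)),
      Surjective u := fun {A B} _ _ u =>
    ⟨fun x => ⟨Classical.arbitrary _, Subsingleton.elim (α := PrimeSpectrum B) _ _⟩⟩
  have hs := hsur s
  have h1 : Surjective (pullback.fst y s) := inferInstance
  obtain ⟨p, -⟩ := h1.surj (Classical.arbitrary _)
  let m := (pullback y s).fromSpecResidueField p
  have hab : (m ≫ pullback.fst y s) ≫ y = (m ≫ pullback.snd y s) ≫ s := by
    rw [Category.assoc, Category.assoc, pullback.condition]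
  have hZ' : ConnectedSpace (pullback f' (m ≫ pullback.snd y s) : Scheme) :=
    hc.geometrically_connectedSpace _ _ _ (.of_hasPullback _ _)
  have h2 := (IsPullback.of_hasPullback f' (m ≫ pullback.snd y s)).flip.paste_vert h.flip
  rw [← hab] at h2
  have h3 := h2.flip
  have h4 : IsPullback (hZ.lift _ _ (h3.w.trans (Category.assoc _ _ _).symm))
      (pullback.snd f' (m ≫ pullback.snd y s)) snd (m ≫ pullback.fst y s) :=
    IsPullback.of_right (by rw [hZ.lift_fst]; exact h3) (hZ.lift_snd _ _ _) hZ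
  have h5 : Surjective (hZ.lift _ _ (h3.w.trans (Category.assoc _ _ _).symm)) :=
    MorphismProperty.of_isPullback (P := @Surjective) h4.flip (hsur _)
  exact h5.surj.connectedSpace (Scheme.Hom.continuous _)

variable {k₀ : Type} [Field k₀]

section base

variable {F : Type} [Field F] [Algebra k₀ F] (F' : Type) [Field F'] [Algebra k₀ F'] [Algebra F F']
  [IsScalarTower k₀ F F']

/-- Base change of varieties. -/
noncomputable def bcV (X : Var k₀ F) : Var k₀ F' := ⟨bcX F' X, bcStr F' X, X.dim, bc_var F' X⟩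

end base

section cls

variable {K : Type} [Field K] [CharZero K] (T : WeilTheory k₀ K)
  {F : Type} [Field F] [Algebra k₀ F] (F' : Type) [Field F']
  [Algebra k₀ F'] [Algebra F F'] [IsScalarTower k₀ F F'] [IsAlgClosed F'] {X Y : Var k₀ F}

/-- The class of a cycle over `F`. -/
noncomputable def cls (X : Var k₀ F) : T.CH X.X →+* (pre T F').H X :=
  (T.cl (bcX F' X)).comp (T.pull (bcPr F' X)).toRingHom

theorem cls_apply (a : T.CH X.X) : cls T F' X a = T.cl (bcX F' X) (T.pull (bcPr F' X) a) := rfl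

theorem mem_alg {c : ℕ} {x : (pre T F').H X} :
    x ∈ (pre T F').Alg X c ↔ ∃ a ∈ T.codim X.X c, cls T F' X a = x := Iff.rfl

theorem cls_smul (q : ℚ) (a : T.CH X.X) : cls T F' X (q • a) = (q : K) • cls T F' X a := by
  change T.cl _ (T.pull (bcPr F' X) (q • a)) = (q : K) • T.cl _ (T.pull (bcPr F' X) a)
  rw [map_smul, cl_smul T]

theorem cls_pull (f : X ⟶ Y) (a : T.CH Y.X) :
    cls T F' X (T.pull f.hom a) = (pre T F').pull f (cls T F' Y a) := by
  change T.cl _ (T.pull (bcPr F' X) (T.pull f.hom a)) =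
      T.pullH (bcM F' f) (T.cl _ (T.pull (bcPr F' Y) a))
  rw [← T.cl_pull _ (bc_var F' X).isWeil (bc_var F' Y).isWeil,
    ← T.pull_comp _ _ (bc_var F' X).sm X.isVar.sm Y.isVar.sm,
    ← T.pull_comp _ _ (bc_var F' X).sm (bc_var F' Y).sm Y.isVar.sm, bcM_pr]

theorem cls_push (f : X ⟶ Y) (a : T.CH X.X) :
    cls T F' Y (T.push f.hom a) = (pre T F').push f (cls T F' X a) := by
  symm
  refine (pre T F').push_eq f _ _ fun (y : T.H (bcX F' Y)) => ?_
  change T.tr _ (T.cl _ (T.pull (bcPr F' Y) (T.push f.hom a)) * y) =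
    T.tr _ (T.cl _ (T.pull (bcPr F' X) a) * T.pullH (bcM F' f) y)
  rw [T.push_baseChange f.hom (bcM F' f) (bcPr F' X) (bcPr F' Y) (bcM_sq F' f)
    X.isVar.sm Y.isVar.sm (bc_var F' X).sm (bc_var F' Y).sm (Var.isProper f) (bc_flat F' Y) a,
    T.cl_push (bcStr F' X) (bcStr F' Y) (bcM F' f) (bcM_str F' f) X.dim Y.dim
      (bc_var F' X) (bc_var F' Y) (T.pull (bcPr F' X) a)]

end cls

section gen

variable {K : Type} [Field K] {k : Type} [Field k] [Algebra k₀ k]

/-- A projective variety, as an object of the category. -/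
noncomputable def pv (V : ProjVar k₀ k) : Var k₀ k := ⟨V.X, V.str, V.n, V.isVar⟩

/-- The base change of `V` to the function field `V.F`. -/
noncomputable def gZ (V : ProjVar k₀ k) : Var k₀ V.F := bcV V.F (pv V)

variable [IsAlgClosed k] {T : WeilTheory k₀ K} (E : Extra T) (V : ProjVar k₀ k)

include E in
theorem isVar_y₀ (m : ℕ) (hm : 1 ≤ m) (hn : V.n = m + 1) : IsVar V.y₀ m :=
  ⟨V.smooth₀ m hn, V.proper₀,
    geomconn_descent (V.isBC.map (Over.forget _)) (V.isVar_y E m hm hn).connected⟩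

/-- The generic hyperplane section over the function field `V.F`. -/
noncomputable def gY (m : ℕ) (hm : 1 ≤ m) (hn : V.n = m + 1) : Var k₀ V.F :=
  ⟨V.Y₀, V.y₀, m, isVar_y₀ E V m hm hn⟩

/-- The inclusion of the generic hyperplane section. -/
noncomputable def gR (m : ℕ) (hm : 1 ≤ m) (hn : V.n = m + 1) : gY E V m hm hn ⟶ gZ V :=
  ⟨pullback.lift V.r₀ V.y₀ V.r₀_str, pullback.lift_snd _ _ _⟩

theorem gR_pr (m : ℕ) (hm : 1 ≤ m) (hn : V.n = m + 1) :
    (gR E V m hm hn).hom ≫ bcPr V.F (pv V) = V.r₀ := pullback.lift_fst _ _ _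

end gen

end Pool.Agent.Lib.MP_4ca46c_ag.NilGeo
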