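import Mathlib
import Pool.Agent.Lib.MP_4ca46c_ag.NilGeo.Statement2

/-!
# Phantom motives

`V` is a smooth projective variety `X` of dimension `n` over an algebraically closed field,
`D` are Chow groups and a cohomology theory with coefficients in `K`, see `Std/Statement.lean`.
-/

namespace Pool.Agent.Lib.MP_4ca46c_ag.Std

open CategoryTheory Limits AlgebraicGeometry
open Pool.Agent.Lib.MP_4ca46c_ag.Sign Pool.Agent.Lib.MP_4ca46c_ag.Hyp

variable {k₀ : Type} [Field k₀] {K : Type} [Field K]

namespace PrVar

variable (D : CohData k₀ K) (V : PrVar k₀)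

/-- The linear combinations, with coefficients in `K`, of the classes of cycles of codimension `n`
on `X × X`. -/
noncomputable def cycleSpan : Submodule K (D.H V.sq) :=
  Submodule.span K {z | ∃ a, D.Codim V.n a ∧ z = D.cls a}

/-- The class `u` on `X × X` is orthogonal to the classes of all cycles of codimension `n`. -/
def NumZero (u : D.H V.sq) : Prop := ∀ b, D.Codim V.n b → D.trace (D.cup u (D.cls b)) = 0

/-- The operator `φ` on `H(X)` is given by the class `u` on `X × X`, that is,
`φ v = p₁_* (u ∪ p₂^* v)`. This is expressed by Poincaré duality. -/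
def ActsBy (u : D.H V.sq) (φ : D.H V.X →ₗ[K] D.H V.X) : Prop := ∀ v w,
  D.trace (D.cup (φ v) w) = D.trace (D.cup (D.cup u (D.pbH V.p₂ v)) (D.pbH V.p₁ w))

/-- The operator `φ` is a projector. -/
def Projector (φ : D.H V.X →ₗ[K] D.H V.X) : Prop := ∀ v, φ (φ v) = φ v

/-- There are no phantom motives in `H(X)`. Let `u` be a linear combination, with coefficients in
`K`, of classes of cycles of codimension `n` on `X × X`, and let `φ` be its operator on `H(X)`. If
`u` is numerically equivalent to zero, that is, orthogonal to the classes of all cycles of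
codimension `n`, and `φ` is a projector, then `φ = 0`. -/
def NoPhantom : Prop := ∀ u ∈ V.cycleSpan D, V.NumZero D u → ∀ φ, V.ActsBy D u φ →
  V.Projector D φ → ∀ v, φ v = 0

end PrVar

end Pool.Agent.Lib.MP_4ca46c_ag.Std
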