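import Pool.Agent.Lib.MP_4ca46c_ag.NilGeo.NilPow
import Pool.Agent.Lib.MP_4ca46c_ag.NilGeo.BridgeN
import Pool.Agent.Lib.MP_4ca46c_ag.NilGeo.Statement3

/-!
# No phantom motives
-/

set_option autoImplicit false

open CategoryTheory Limits AlgebraicGeometry MonoidalCategory CartesianMonoidalCategory
  TensorProduct

namespace Pool.Agent.Lib.MP_4ca46c_ag.NilGeo

open Pool.Agent.Lib.MP_4ca46c_ag.Sign Pool.Agent.Lib.MP_4ca46c_ag.Nil
open Pool.Agent.Lib.MP_4ca46c_ag.Hyp Pool.Agent.Lib.MP_4ca46c_ag.Std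

/-- **Fitting's lemma.** -/
theorem phantom_fitting {K R : Type} [Field K] [Ring R] [Algebra K R] (φ : R)
    (hint : IsIntegral K φ) : ∃ p : Polynomial K,
    Polynomial.aeval φ (Polynomial.X * p) * Polynomial.aeval φ (Polynomial.X * p) =
      Polynomial.aeval φ (Polynomial.X * p) ∧
    (Polynomial.aeval φ (Polynomial.X * p) = 0 → IsNilpotent φ) := by
  obtain ⟨q, hq1, hq2⟩ := Polynomial.exists_eq_pow_rootMultiplicity_mul_and_not_dvd
    (minpoly K φ) (minpoly.ne_zero hint) 0
  rw [Polynomial.C_0, sub_zero] at hq1 hq2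
  set k := (minpoly K φ).rootMultiplicity 0 with hk
  have hcop : IsCoprime (Polynomial.X ^ (k + 1) : Polynomial K) q :=
    IsCoprime.pow_left ((Polynomial.irreducible_X.coprime_iff_not_dvd).2 hq2)
  obtain ⟨a, b, hab⟩ := hcop
  have h0 : Polynomial.aeval φ (Polynomial.X ^ k * q : Polynomial K) = 0 := by
    rw [← hq1]
    exact minpoly.aeval K φ
  have hX : (Polynomial.X : Polynomial K) * (a * Polynomial.X ^ k) = a * Polynomial.X ^ (k + 1) := by
    ring
  refine ⟨a * Polynomial.X ^ k, ?_, fun he => ⟨k, ?_⟩⟩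
  · rw [hX]
    have h1 : Polynomial.aeval φ ((a * Polynomial.X ^ (k + 1)) * (b * q) : Polynomial K) = 0 := by
      have h2 : (a * Polynomial.X ^ (k + 1)) * (b * q) =
          (a * b * Polynomial.X) * (Polynomial.X ^ k * q) := by ring
      rw [h2, map_mul, h0, mul_zero]
    have h3 : b * q = 1 - a * Polynomial.X ^ (k + 1) := by
      rw [← hab]
      ring
    rw [h3, map_mul (Polynomial.aeval φ) (a * Polynomial.X ^ (k + 1)), map_sub, map_one, mul_sub,
      mul_one, sub_eq_zero] at h1
    exact h1.symm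
  · rw [hX] at he
    have h1 : Polynomial.aeval φ (b * q) = 1 := by
      have h2 := congrArg (Polynomial.aeval φ) hab
      rw [map_add, he, zero_add, map_one] at h2
      exact h2
    have h2 : Polynomial.aeval φ (Polynomial.X ^ k * (b * q)) = φ ^ k := by
      rw [map_mul, h1, mul_one, map_pow, Polynomial.aeval_X]
    rw [← h2]
    have h3 : Polynomial.X ^ k * (b * q) = b * (Polynomial.X ^ k * q) := by ring
    rw [h3, map_mul, h0, mul_zero]

section Abstract

variable {K : Type} [Field K] [CharZero K] {𝒱 : Type 1} [Category.{0} 𝒱]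
  [CartesianMonoidalCategory 𝒱] (W : Geo.WeilCohomology K 𝒱) (X : 𝒱)

/-- There are no phantoms in `H(X)`. -/
def NoPh : Prop := ∀ u ∈ Submodule.span K (W.Alg (X ⊗ X) (W.dim X) : Set (W.H (X ⊗ X))),
  (∀ v ∈ W.Alg (X ⊗ X) (W.dim X), W.tr (X ⊗ X) (u * v) = 0) →
  (∀ v : W.H X, W.op (X := X) (Y := X) u (W.op (X := X) (Y := X) u v) =
    W.op (X := X) (Y := X) u v) → (W.op u : Module.End K (W.H X)) = 0

variable {X}

/-- The class of an operator in the span. -/
theorem phantom_exists {f : Module.End K (W.H X)}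
    (hf : f ∈ Submodule.span K (nilpowS W X)) :
    ∃ u ∈ Submodule.span K (W.Alg (X ⊗ X) (W.dim X) : Set (W.H (X ⊗ X))),
      (∀ v ∈ W.Alg (X ⊗ X) (W.dim X), W.tr (X ⊗ X) (u * v) = 0) ∧ f = W.op u := by
  refine Submodule.span_induction (p := fun f _ => ∃ u ∈ Submodule.span K
    (W.Alg (X ⊗ X) (W.dim X) : Set (W.H (X ⊗ X))),
      (∀ v ∈ W.Alg (X ⊗ X) (W.dim X), W.tr (X ⊗ X) (u * v) = 0) ∧
        f = (W.op u : Module.End K (W.H X))) ?_ ?_ ?_ ?_ hf
  · rintro f ⟨u, hu, hu0, rfl⟩
    exact ⟨u, Submodule.subset_span hu, hu0, rfl⟩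
  · exact ⟨0, Submodule.zero_mem _, fun v _ => by rw [zero_mul, map_zero], W.op_zero.symm⟩
  · rintro f g _ _ ⟨u, hu, hu0, rfl⟩ ⟨v, hv, hv0, rfl⟩
    exact ⟨u + v, Submodule.add_mem _ hu hv, fun w hw => by
      rw [add_mul, map_add, hu0 w hw, hv0 w hw, add_zero], (W.op_add u v).symm⟩
  · rintro c f _ ⟨u, hu, hu0, rfl⟩
    exact ⟨c • u, Submodule.smul_mem _ _ hu, fun w hw => by
      rw [smul_mul_assoc, map_smul, hu0 w hw, smul_zero], (W.op_smul c u).symm⟩

theorem phantom_pow {f : Module.End K (W.H X)} (hf : f ∈ nilpowS W X) (j : ℕ) :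
    f ^ (j + 1) ∈ nilpowS W X := by
  induction j with
  | zero => rwa [zero_add, pow_one]
  | succ j ih =>
    rw [pow_succ]
    exact nilpow_mul W ih hf

theorem phantom_aeval {f : Module.End K (W.H X)} (hf : f ∈ nilpowS W X) (p : Polynomial K) :
    Polynomial.aeval f (Polynomial.X * p) ∈ Submodule.span K (nilpowS W X) := by
  rw [mul_comm, map_mul, Polynomial.aeval_X, Polynomial.aeval_eq_sum_range, Finset.sum_mul]
  refine Submodule.sum_mem _ fun i _ => ?_
  rw [smul_mul_assoc, ← pow_succ]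
  exact Submodule.smul_mem _ _ (Submodule.subset_span (phantom_pow W hf i))

/-- No phantoms means that numerically trivial correspondences are nilpotent. -/
theorem noPh_iff : NoPh W X ↔ NilX W X := by
  have hfin : FiniteDimensional K (W.H X) := W.finite X
  constructor
  · intro H u hu hu0
    have hS : (W.op u : Module.End K (W.H X)) ∈ nilpowS W X := ⟨u, hu, hu0, rfl⟩
    obtain ⟨p, h1, h2⟩ := phantom_fitting (K := K) (W.op u : Module.End K (W.H X))
      (Algebra.IsIntegral.isIntegral _)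
    obtain ⟨v, hv, hv0, hv1⟩ := phantom_exists W (phantom_aeval W hS p)
    refine h2 (hv1.trans (H v hv hv0 fun x => ?_))
    rw [hv1] at h1
    exact LinearMap.congr_fun h1 x
  · intro H u hu hu0 hid
    have h1 := tQSpan K (W.H (X ⊗ X))
      ((LinearMap.mul K (W.H (X ⊗ X))).compr₂ (W.tr (X ⊗ X)))
      (W.Alg (X ⊗ X) (W.dim X)) (fun q x hx => W.alg_rat q hx)
      (fun x hx y hy => W.alg_tr (by
        rw [W.dim_tensor]
        exact W.alg_mul hx hy)) u hu hu0
    have h2 : (W.op u : Module.End K (W.H X)) ∈ Submodule.span K (nilpowS W X) := by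
      refine Submodule.span_induction (p := fun x _ => (W.op x : Module.End K (W.H X)) ∈
        Submodule.span K (nilpowS W X)) ?_ ?_ ?_ ?_ h1
      · rintro a ⟨ha, ha0⟩
        exact Submodule.subset_span ⟨a, ha, ha0, rfl⟩
      · rw [W.op_zero]
        exact Submodule.zero_mem _
      · intro a b _ _ ha hb
        rw [W.op_add]
        exact Submodule.add_mem _ ha hb
      · intro t a _ ha
        rw [W.op_smul]
        exact Submodule.smul_mem _ _ ha
    have h3 := tNilSpan K (W.H X) (nilpowS W X) (fun f hf g hg => nilpow_mul W hf hg) (by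
      rintro _ ⟨v, hv, hv0, rfl⟩
      exact H v hv hv0) _ h2
    obtain ⟨N, hN⟩ := h3
    have h4 : IsIdempotentElem (W.op u : Module.End K (W.H X)) :=
      LinearMap.ext fun v => hid v
    have h5 : (W.op u : Module.End K (W.H X)) ^ (N + 1) = W.op u := h4.pow_succ_eq N
    rw [← h5, pow_succ, hN, zero_mul]

end Abstract

variable {k₀ K : Type} [Field k₀] [Field K] [CharZero K] {D : CohData k₀ K}
  (h : D.IsTheory) {k : Type} [Field k] [Algebra k₀ k] [IsAlgClosed k] (V : ProjVar k₀ k)

/-- The compact form. -/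
theorem noPhantom_iff : (ofProj V).NoPhantom D ↔ NoPh (weil (D.weil h) k) (pvar V) := by
  have hset : {z : D.H (ofProj V).sq | ∃ a, D.Codim V.n a ∧ z = D.cls a} =
      ((weil (D.weil h) k).Alg (pvar V ⊗ pvar V) V.n :
        Set ((weil (D.weil h) k).H (pvar V ⊗ pvar V))) := by
    ext z
    constructor
    · rintro ⟨a, ha, rfl⟩
      exact ⟨a, ha, rfl⟩
    · rintro ⟨a, ha, rfl⟩
      exact ⟨a, ha, rfl⟩
  constructor
  · intro H u hu hu0 hid
    have hu' : u ∈ Submodule.span K {z : D.H (ofProj V).sq | ∃ a, D.Codim V.n a ∧ z = D.cls a} := by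
      rw [hset]
      exact hu
    refine LinearMap.ext (H u hu' (fun b hb => hu0 _ ⟨b, hb, rfl⟩)
      ((weil (D.weil h) k).op (X := pvar V) (Y := pvar V) u) (fun v w => ?_) hid)
    exact (weil (D.weil h) k).op_spec (X := pvar V) (Y := pvar V) u v w
  · intro H u hu hu0 φ hφ hid
    have h5 : (weil (D.weil h) k).op (X := pvar V) (Y := pvar V) u = φ := by
      refine LinearMap.ext fun v => ?_
      refine (weil (D.weil h) k).ext_tr (X := pvar V) fun w => ?_
      exact ((weil (D.weil h) k).op_spec (X := pvar V) (Y := pvar V) u v w).trans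
        (hφ v w).symm
    have hu' : u ∈ Submodule.span K ((weil (D.weil h) k).Alg (pvar V ⊗ pvar V) V.n :
        Set ((weil (D.weil h) k).H (pvar V ⊗ pvar V))) := by
      rw [← hset]
      exact hu
    rw [← h5]
    refine LinearMap.congr_fun (H u hu' ?_ ?_)
    · rintro _ ⟨b, hb, rfl⟩
      exact hu0 b hb
    · rw [h5]
      exact hid

include h in
/-- The nilpotence conjecture means that there are no phantom motives. -/
theorem noPhantom_iff_nil : (ofProj V).NoPhantom D ↔ (ofProj V).NilConj D := by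
  rw [noPhantom_iff h V, noPh_iff, nilConj_iff h V]

end Pool.Agent.Lib.MP_4ca46c_ag.NilGeo
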