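import Mathlib
import Pool.Agent.Lib.MP_4ca46c_ag.NilGeo.FinalN
import Pool.Agent.Lib.MP_4ca46c_ag.NilGeo.BridgeN
import Pool.Agent.Lib.MP_4ca46c_ag.NilGeo.Phantom
import Pool.Agent.Lib.MP_4ca46c_ag.Std.Bridge4

/-!
# The nilpotence conjecture is equivalent to the Künneth conjecture
-/

set_option autoImplicit false

open CategoryTheory Limits AlgebraicGeometry MonoidalCategory CartesianMonoidalCategory
  TensorProduct

namespace Pool.Agent.Lib.MP_4ca46c_ag.NilGeo

open Pool.Agent.Lib.MP_4ca46c_ag.Sign Pool.Agent.Lib.MP_4ca46c_ag.Nil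
open Pool.Agent.Lib.MP_4ca46c_ag.Hyp Pool.Agent.Lib.MP_4ca46c_ag.Std

variable {k₀ K : Type} [Field k₀] [Field K] {D : CohData k₀ K} (h : D.IsTheory)
  (h' : IsStandard D)

theorem nilQ_iff [CharZero K] {k : Type} [Field k] [Algebra k₀ k] [IsAlgClosed k]
    (V : ProjVar k₀ k) : (ofProj V).NilConj D ↔ NilQ (D.weil h) V.str V.n :=
  (nilConj_iff h V).trans (nilX_iff (D.weil h) (pvar V))

include h h' in
/-- **Nilpotence implies the sign conjecture**, one variety. -/
theorem nil_local (V : PrVar k₀) :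
    ∃ (L : Type) (_ : Field L) (_ : Algebra k₀ L) (_ : IsAlgClosed L),
      (Cardinal.aleph0 ≤ Algebra.trdeg k₀ V.k → Nonempty (L ≃ₐ[k₀] V.k)) ∧
      ((∀ Y : ProjVar k₀ V.k, (ofProj Y).NilConj D) → (∀ Y : ProjVar k₀ L, (ofProj Y).NilConj D) →
        V.SignConj D) := by
  have E := bridge_extra h h'
  have : CharZero K := charZero_of_extra (D.weil h) E
  obtain ⟨L, _, _, _, h1, h2⟩ := nil_sign E V.toProj
  refine ⟨L, inferInstance, inferInstance, inferInstance, h1, fun h3 h4 => ?_⟩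
  exact (sign_iff h h' V.toProj).2 (h2 (fun Y => (nilQ_iff h Y).1 (h3 Y))
    fun Y => (nilQ_iff h Y).1 (h4 Y))

include h h' in
/-- The known direction. -/
theorem nil_of_kunneth (V : PrVar k₀) (hV : V.KunnethConj D) : V.NilConj D := by
  have E := bridge_extra h h'
  have : CharZero K := charZero_of_extra (D.weil h) E
  refine (nilQ_iff h V.toProj).2 (tConvQ k₀ K (D.weil h) (V.toProj.toP E) ?_)
  exact (tEasy' k₀ K (D.weil h) (V.toProj.toP E)).2.1 ((kunneth_iff h h' V.toProj).1 hV)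

include h h' in
theorem nil_main :
    (∀ V : PrVar k₀, V.NilConj D) ↔ ∀ V : PrVar k₀, V.KunnethConj D := by
  constructor
  · intro H
    refine ((std_main h h').2.out 0 1).1 fun V => ?_
    obtain ⟨L, _, _, _, -, h1⟩ := nil_local h h' V
    exact h1 (fun Y => H _) (fun Y => H _)
  · intro H V
    exact nil_of_kunneth h h' V (H V)

include h h' in
theorem nil_over (k : Type) [Field k] [Algebra k₀ k] (hk : Cardinal.aleph0 ≤ Algebra.trdeg k₀ k) :
    (∀ V : PrVar k₀, V.IsOver k → V.NilConj D) ↔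
      ∀ V : PrVar k₀, V.IsOver k → V.KunnethConj D := by
  constructor
  · intro H
    refine ((std_over h h' k hk).out 0 1).1 fun V hV => ?_
    obtain ⟨L, _, _, _, h0, h1⟩ := nil_local h h' V
    obtain ⟨e⟩ := hV
    obtain ⟨e'⟩ := h0 (by rw [e.trdeg_eq]; exact hk)
    exact h1 (fun Y => H _ ⟨e⟩) (fun Y => H _ ⟨e'.trans e⟩)
  · intro H V hV
    exact nil_of_kunneth h h' V (H V hV)

include h h' in
theorem nil_iff_noPhantom (V : PrVar k₀) : V.NilConj D ↔ V.NoPhantom D := by
  have E := bridge_extra h h'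
  have : CharZero K := charZero_of_extra (D.weil h) E
  exact (noPhantom_iff_nil h V.toProj).symm

include h h' in
theorem nil_tfae : [∀ V : PrVar k₀, V.KunnethConj D, ∀ V : PrVar k₀, V.NilConj D,
    ∀ V : PrVar k₀, V.NoPhantom D].TFAE := by
  tfae_have 1 ↔ 2 := (nil_main h h').symm
  tfae_have 2 ↔ 3 := forall_congr' fun V => nil_iff_noPhantom h h' V
  tfae_finish

include h h' in
theorem nil_over_tfae (k : Type) [Field k] [Algebra k₀ k]
    (hk : Cardinal.aleph0 ≤ Algebra.trdeg k₀ k) :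
    [∀ V : PrVar k₀, V.IsOver k → V.KunnethConj D, ∀ V : PrVar k₀, V.IsOver k → V.NilConj D,
      ∀ V : PrVar k₀, V.IsOver k → V.NoPhantom D].TFAE := by
  tfae_have 1 ↔ 2 := (nil_over h h' k hk).symm
  tfae_have 2 ↔ 3 := forall_congr' fun V => forall_congr' fun _ => nil_iff_noPhantom h h' V
  tfae_finish

end Pool.Agent.Lib.MP_4ca46c_ag.NilGeo
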