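import Pool.Agent.Lib.MP_4ca46c_ag.NilGeo.Spec2

/-!
# The nilpotence conjecture is invariant under isomorphisms
-/

set_option autoImplicit false

open CategoryTheory Limits AlgebraicGeometry MonoidalCategory CartesianMonoidalCategory
  TensorProduct

namespace Pool.Agent.Lib.MP_4ca46c_ag.NilGeo

open Pool.Agent.Lib.MP_4ca46c_ag.Sign Pool.Agent.Lib.MP_4ca46c_ag.Nil

variable {k₀ K : Type} [Field k₀] [Field K] (T : WeilTheory k₀ K)
  {L : Type} [Field L] [Algebra k₀ L] [IsAlgClosed L]

theorem niliso_main {X X' : Sch k₀} {x : X ⟶ pt k₀ L} {x' : X' ⟶ pt k₀ L} {n n' : ℕ}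
    (hx : IsVar x n) (hx' : IsVar x' n') (hn : n = n') (f : X ≅ X') (hf : f.hom ≫ x' = x)
    (h : NilQ T x n) : NilQ T x' n' := by
  subst hn
  have hf' : f.inv ≫ x = x' := by rw [← hf, f.inv_hom_id_assoc]
  let g : pullback x x ≅ pullback x' x' :=
    { hom := pullback.map x x x' x' f.hom f.hom (𝟙 _) (by rw [Category.comp_id, hf])
        (by rw [Category.comp_id, hf])
      inv := pullback.map x' x' x x f.inv f.inv (𝟙 _) (by rw [Category.comp_id, hf'])
        (by rw [Category.comp_id, hf'])
      hom_inv_id := by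
        apply pullback.hom_ext
        · rw [Category.assoc, pullback.lift_fst, pullback.lift_fst_assoc, Category.assoc,
            f.hom_inv_id, Category.id_comp, Category.comp_id]
        · rw [Category.assoc, pullback.lift_snd, pullback.lift_snd_assoc, Category.assoc,
            f.hom_inv_id, Category.id_comp, Category.comp_id]
      inv_hom_id := by
        apply pullback.hom_ext
        · rw [Category.assoc, pullback.lift_fst, pullback.lift_fst_assoc, Category.assoc,
            f.inv_hom_id, Category.id_comp, Category.comp_id]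
        · rw [Category.assoc, pullback.lift_snd, pullback.lift_snd_assoc, Category.assoc,
            f.inv_hom_id, Category.id_comp, Category.comp_id] }
  have hP : IsVar (pullback.fst x x ≫ x) (n + n) := Var.isVar_prod hx hx
  have hP' : IsVar (pullback.fst x' x' ≫ x') (n + n) := Var.isVar_prod hx' hx'
  have hg1 : g.hom ≫ pullback.fst x' x' = pullback.fst x x ≫ f.hom := pullback.lift_fst _ _ _
  have hg2 : g.hom ≫ pullback.snd x' x' = pullback.snd x x ≫ f.hom := pullback.lift_snd _ _ _
  clear_value g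
  have ig : IsIso g.hom := ⟨g.inv, g.hom_inv_id, g.inv_hom_id⟩
  have if' : IsIso f.hom := ⟨f.inv, f.hom_inv_id, f.inv_hom_id⟩
  have hff : ∀ v : T.H X, T.pullH f.hom (T.pullH f.inv v) = v := by
    intro v
    rw [← T.pullH_comp _ _ hx.isWeil hx'.isWeil hx.isWeil, f.hom_inv_id, T.pullH_id hx.isWeil]
  have hff' : ∀ v : T.H X', T.pullH f.inv (T.pullH f.hom v) = v := by
    intro v
    rw [← T.pullH_comp _ _ hx'.isWeil hx.isWeil hx'.isWeil, f.inv_hom_id, T.pullH_id hx'.isWeil]
  intro a ha h0 φ hφ
  have h1 : IsNilpotent ((T.pullH f.hom).toLinearMap ∘ₗ φ ∘ₗ (T.pullH f.inv).toLinearMap :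
      Module.End K (T.H X)) := by
    refine h (T.pull g.hom a) (T.pull_mem _ hP.sm hP'.sm _ _ ha) (fun b hb => ?_) _
      (fun v w => ?_)
    · have h2 : T.pull g.hom (T.pull g.inv b) = b := by
        rw [← T.pull_comp _ _ hP.sm hP'.sm hP.sm, g.hom_inv_id, T.pull_id hP.sm]
      have h3 := h0 (T.pull g.inv b) (T.pull_mem _ hP'.sm hP.sm _ _ hb)
      rw [← h2, ← map_mul, T.cl_pull _ hP.isWeil hP'.isWeil,
        T.tr_iso _ ig hP.isWeil hP'.isWeil, h3]
    · have h2 := hφ (T.pullH f.inv v) (T.pullH f.inv w)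
      have h3 : T.pullH g.hom (T.cl (pullback x' x') a * T.pullH (pullback.snd x' x')
          (T.pullH f.inv v) * T.pullH (pullback.fst x' x') (T.pullH f.inv w)) =
          T.cl (pullback x x) (T.pull g.hom a) * T.pullH (pullback.snd x x) v *
            T.pullH (pullback.fst x x) w := by
        rw [map_mul, map_mul, T.cl_pull _ hP.isWeil hP'.isWeil,
          ← T.pullH_comp _ _ hP.isWeil hP'.isWeil hx'.isWeil,
          ← T.pullH_comp _ _ hP.isWeil hP'.isWeil hx'.isWeil, hg1, hg2,
          T.pullH_comp _ _ hP.isWeil hx.isWeil hx'.isWeil,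
          T.pullH_comp _ _ hP.isWeil hx.isWeil hx'.isWeil, hff, hff]
      rw [← h3, T.tr_iso _ ig hP.isWeil hP'.isWeil, ← h2,
        ← T.tr_iso f.hom if' hx.isWeil hx'.isWeil, map_mul (T.pullH f.hom), hff]
      rfl
  obtain ⟨N, hN⟩ := h1
  refine ⟨N, ?_⟩
  have h4 : ∀ (m : ℕ) (v : T.H X'), (φ ^ m) v = T.pullH f.inv
      ((((T.pullH f.hom).toLinearMap ∘ₗ φ ∘ₗ (T.pullH f.inv).toLinearMap :
        Module.End K (T.H X)) ^ m) (T.pullH f.hom v)) := by
    intro m
    induction m with
    | zero =>
      intro v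
      rw [pow_zero, pow_zero, Module.End.one_apply, Module.End.one_apply, hff']
    | succ m ih =>
      intro v
      rw [pow_succ, pow_succ, Module.End.mul_apply, Module.End.mul_apply, ih]
      congr 2
      change T.pullH f.hom (φ v) = T.pullH f.hom (φ (T.pullH f.inv (T.pullH f.hom v)))
      rw [hff']
  refine LinearMap.ext fun v => ?_
  rw [h4, hN, LinearMap.zero_apply, LinearMap.zero_apply, map_zero]

end Pool.Agent.Lib.MP_4ca46c_ag.NilGeo
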