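import Pool.Agent.Lib.MP_4ca46c_ag.Sign.OpV
import Pool.Agent.Lib.MP_4ca46c_ag.Nil.SpecL

/-!
# Numerically trivial correspondences and the structure `NilOp`
-/

set_option autoImplicit false

open CategoryTheory Limits AlgebraicGeometry MonoidalCategory CartesianMonoidalCategory
  TensorProduct

namespace Pool.Agent.Lib.MP_4ca46c_ag.NilGeo

open Pool.Agent.Lib.MP_4ca46c_ag.Sign Pool.Agent.Lib.MP_4ca46c_ag.Nil

section Abstract

variable {K : Type} [Field K] [CharZero K] {𝒱 : Type 1} [Category.{0} 𝒱]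
  [CartesianMonoidalCategory 𝒱] (W : Geo.WeilCohomology K 𝒱) {X Y : 𝒱}

/-- The trace pairing and composition. -/
theorem nilop_pair (u : W.H (X ⊗ Y)) (v : W.H (Y ⊗ X)) :
    W.tr (X ⊗ Y) (u * W.pull (lift (snd X Y) (fst X Y)) v) =
      LinearMap.trace K (W.H X) (W.op u ∘ₗ W.op v ∘ₗ W.eps X) := by
  refine W.ind_tm (P := fun u => W.tr (X ⊗ Y) (u * W.pull (lift (snd X Y) (fst X Y)) v) =
      LinearMap.trace K (W.H X) (W.op u ∘ₗ W.op v ∘ₗ W.eps X)) u ?_ (fun a b => ?_)
    (fun u u' h h' => ?_)
  · rw [zero_mul, map_zero, W.op_zero, LinearMap.zero_comp, map_zero]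
  · refine W.ind (P := fun a => W.tr (X ⊗ Y) (W.tm a b * W.pull (lift (snd X Y) (fst X Y)) v) =
      LinearMap.trace K (W.H X) (W.op (W.tm a b) ∘ₗ W.op v ∘ₗ W.eps X)) a ?_ (fun i a ha => ?_)
      (fun r s hr hs => ?_)
    · rw [W.tm_zero_left, zero_mul, map_zero, W.op_zero, LinearMap.zero_comp, map_zero]
    · refine W.ind (P := fun b => W.tr (X ⊗ Y) (W.tm a b *
        W.pull (lift (snd X Y) (fst X Y)) v) =
        LinearMap.trace K (W.H X) (W.op (W.tm a b) ∘ₗ W.op v ∘ₗ W.eps X)) b ?_
        (fun j b hb => ?_) (fun r s hr hs => ?_)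
      · rw [W.tm_zero_right, zero_mul, map_zero, W.op_zero, LinearMap.zero_comp, map_zero]
      · refine W.ind_tm (P := fun v => W.tr (X ⊗ Y) (W.tm a b *
          W.pull (lift (snd X Y) (fst X Y)) v) =
          LinearMap.trace K (W.H X) (W.op (W.tm a b) ∘ₗ W.op v ∘ₗ W.eps X)) v ?_ (fun c d => ?_)
          (fun v v' h h' => ?_)
        · rw [map_zero, mul_zero, map_zero, W.op_zero, LinearMap.zero_comp, LinearMap.comp_zero,
            map_zero]
        · refine W.ind (P := fun c => W.tr (X ⊗ Y) (W.tm a b *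
            W.pull (lift (snd X Y) (fst X Y)) (W.tm c d)) =
            LinearMap.trace K (W.H X) (W.op (W.tm a b) ∘ₗ W.op (W.tm c d) ∘ₗ W.eps X)) c ?_
            (fun k c hc => ?_) (fun r s hr hs => ?_)
          · rw [W.tm_zero_left, map_zero, mul_zero, map_zero, W.op_zero, LinearMap.zero_comp,
              LinearMap.comp_zero, map_zero]
          · refine W.ind (P := fun d => W.tr (X ⊗ Y) (W.tm a b *
              W.pull (lift (snd X Y) (fst X Y)) (W.tm c d)) =
              LinearMap.trace K (W.H X) (W.op (W.tm a b) ∘ₗ W.op (W.tm c d) ∘ₗ W.eps X)) d ?_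
              (fun l d hd => ?_) (fun r s hr hs => ?_)
            · rw [W.tm_zero_right, map_zero, mul_zero, map_zero, W.op_zero,
                LinearMap.zero_comp, LinearMap.comp_zero, map_zero]
            · have h1 : W.op (W.tm a b) ∘ₗ W.op (W.tm c d) ∘ₗ W.eps X =
                  W.tr Y (b * c) • (W.op (W.tm a d) ∘ₗ W.eps X) := by
                rw [← LinearMap.comp_assoc, ← W.op_comp, W.comp_tm, W.op_smul,
                  LinearMap.smul_comp]
              have h3 : W.pull (lift (𝟙 X) (𝟙 X)) (W.tm a d) = a * d := by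
                rw [W.pull_tm, W.pull_id, W.pull_id]
              rw [h1, map_smul, W.trace_eps, h3, W.pull_tm,
                W.comm_smul (W.pull_gr _ hc) (W.pull_gr _ hd)]
              change W.tr (X ⊗ Y) (W.tm a b * ((-1 : K) ^ (k * l)) • W.tm d c) = _
              rw [mul_smul_comm, map_smul, W.tr_four a d b c hd hb, smul_eq_mul, smul_eq_mul]
              by_cases hjk : j + k = 2 * W.dim Y
              · have h2 : ((-1 : K)) ^ (k * l) * (-1) ^ (j * l) = 1 := by
                  rw [← pow_add, ← add_mul, add_comm k j, hjk]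
                  exact Even.neg_one_pow ⟨W.dim Y * l, by ring⟩
                rw [← mul_assoc, h2, one_mul, mul_comm]
              · rw [W.tr_gr (SetLike.mul_mem_graded hb hc) hjk]
                ring
            · rw [W.tm_add_right, map_add, mul_add, map_add, hr, hs, W.op_add,
                LinearMap.add_comp, LinearMap.comp_add, map_add]
          · rw [W.tm_add_left, map_add, mul_add, map_add, hr, hs, W.op_add,
              LinearMap.add_comp, LinearMap.comp_add, map_add]
        · rw [map_add, mul_add, map_add, h, h', W.op_add, LinearMap.add_comp,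
            LinearMap.comp_add, map_add]
      · rw [W.tm_add_right, add_mul, map_add, hr, hs, W.op_add, LinearMap.add_comp, map_add]
    · rw [W.tm_add_left, add_mul, map_add, hr, hs, W.op_add, LinearMap.add_comp, map_add]
  · rw [add_mul, map_add, h, h', W.op_add, LinearMap.add_comp, map_add]

/-- The nilpotence conjecture for `X`. -/
def NilX (X : 𝒱) : Prop := ∀ u ∈ W.Alg (X ⊗ X) (W.dim X),
  (∀ v ∈ W.Alg (X ⊗ X) (W.dim X), W.tr (X ⊗ X) (u * v) = 0) →
    IsNilpotent (W.op u : Module.End K (W.H X))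

theorem nilop_comm {f : Module.End K (W.H X)} (hf : f ∈ W.Cor X X 0) :
    f * W.eps X = W.eps X * f := by
  refine W.hom_ext fun i x hx => ?_
  rw [Module.End.mul_apply, Module.End.mul_apply, W.eps_gr hx, map_smul,
    W.eps_gr (W.cor_gr hf hx (m := i) (by ring))]

theorem nilop_of {X : 𝒱} (h : NilX W X) {f : Module.End K (W.H X)} (hf : f ∈ W.Cor X X 0)
    (h0 : ∀ g ∈ W.Cor X X 0, LinearMap.trace K (W.H X) (g * f * W.eps X) = 0) :
    IsNilpotent f := by
  rcases W.mem_cor.1 hf with rfl | ⟨c, u, hc, hu, rfl⟩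
  · exact IsNilpotent.zero
  obtain rfl : c = W.dim X := by omega
  refine h u hu fun v hv => ?_
  set s : X ⊗ X ⟶ X ⊗ X := lift (snd X X) (fst X X) with hs
  have hss : s ≫ s = 𝟙 _ := by
    apply CartesianMonoidalCategory.hom_ext
    · rw [hs, Category.assoc, lift_fst, lift_snd, Category.id_comp]
    · rw [hs, Category.assoc, lift_snd, lift_fst, Category.id_comp]
  have hv' : W.pull s v ∈ W.Alg (X ⊗ X) (W.dim X) := W.alg_pull s hv
  have hg : (W.op (W.pull s v) : Module.End K (W.H X)) ∈ W.Cor X X 0 :=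
    W.mem_cor.2 (Or.inr ⟨W.dim X, _, by omega, hv', rfl⟩)
  have h1 := nilop_pair W u (W.pull s v)
  rw [← hs, ← W.pull_comp, hss, W.pull_id] at h1
  rw [h1]
  have h2 := h0 _ hg
  have h3 : LinearMap.trace K (W.H X) (W.op u ∘ₗ W.op (W.pull s v) ∘ₗ W.eps X) =
      LinearMap.trace K (W.H X) ((W.op (W.pull s v) : Module.End K (W.H X)) *
        (W.op u : Module.End K (W.H X)) * W.eps X) := by
    change LinearMap.trace K (W.H X) ((W.op u : Module.End K (W.H X)) *
      ((W.op (W.pull s v) : Module.End K (W.H X)) * W.eps X)) = _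
    rw [LinearMap.trace_mul_comm, mul_assoc, mul_assoc, ← nilop_comm W hf]
  rw [h3, h2]

theorem nilop_B {X : 𝒱} (h : NilX W (X ⊗ X)) {f : Module.End K (W.H X ⊗[K] W.H X)}
    (hf : SNum (fun r => (W.Cor (X ⊗ X) (X ⊗ X) r).comap
        ((W.kun X X).conj.toLinearMap.toAddMonoidHom))
      (TensorProduct.map (sgn (W.dim X) (opv_pr W X)) (sgn (W.dim X) (opv_pr W X))) 0 f) :
    IsNilpotent f := by
  obtain ⟨h1, h2⟩ := hf
  have h3 : IsNilpotent ((W.kun X X).conj f) := by
    refine nilop_of W h h1 fun g hg => ?_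
    have h4 : (W.kun X X).symm.conj g ∈ (fun r => (W.Cor (X ⊗ X) (X ⊗ X) r).comap
        ((W.kun X X).conj.toLinearMap.toAddMonoidHom)) (-0 : ℤ) := by
      change (W.kun X X).conj ((W.kun X X).symm.conj g) ∈ W.Cor (X ⊗ X) (X ⊗ X) (-0)
      rw [neg_zero]
      have h6 : (W.kun X X).conj ((W.kun X X).symm.conj g) = g := by
        ext x
        simp [LinearEquiv.conj_apply]
      rw [h6]
      exact hg
    have h5 := h2 _ h4
    rw [← LinearMap.trace_conj' _ (W.kun X X), opv_conj_mul, opv_conj_mul, opv_conj_map, opv_sgn,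
      W.tens_eps] at h5
    have h6 : (W.kun X X).conj ((W.kun X X).symm.conj g) = g := by
      ext x
      simp [LinearEquiv.conj_apply]
    rw [h6] at h5
    exact h5
  obtain ⟨N, hN⟩ := h3
  refine ⟨N, ?_⟩
  apply (W.kun X X).conj.injective
  rw [map_zero]
  have h7 : ∀ m : ℕ, (W.kun X X).conj (f ^ m) = ((W.kun X X).conj f) ^ m := by
    intro m
    induction m with
    | zero =>
      rw [pow_zero, pow_zero]
      exact LinearEquiv.conj_id _
    | succ m ih => rw [pow_succ, pow_succ, opv_conj_mul, ih]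
  rw [h7, hN]

end Abstract

variable {k₀ K : Type} [Field k₀] [Field K] [CharZero K]

/-- The structure `NilOp` for a polarised variety. -/
theorem nilOp_of {T : WeilTheory k₀ K} (V : PVar T) (h1 : NilX (weil T V.k) V.var)
    (h2 : NilX (weil T V.k) (V.var ⊗ V.var)) : NilOp V.n V.proj V.lef V.opA V.opB where
  op := tOpV k₀ K T V
  nilA f hf := by
    refine nilop_of (weil T V.k) h1 hf.1 fun g hg => ?_
    have h3 := hf.2 g (by rw [neg_zero]; exact hg)
    have h4 : sgn V.n V.proj = (weil T V.k).eps V.var := opv_sgn (weil T V.k) (X := V.var)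
    rw [h4] at h3
    exact h3
  nilB f hf := nilop_B (weil T V.k) h2 hf

end Pool.Agent.Lib.MP_4ca46c_ag.NilGeo
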