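import Pool.Agent.Lib.MP_4ca46c_ag.NilGeo.NilOp
import Pool.Agent.Lib.MP_4ca46c_ag.NilGeo.ConvN
import Pool.Agent.Lib.MP_4ca46c_ag.NilGeo.Spec2

/-!
# Nilpotence on `V` and `V ⊗ V`
-/

set_option autoImplicit false

open CategoryTheory Limits AlgebraicGeometry MonoidalCategory CartesianMonoidalCategory
  TensorProduct

namespace Pool.Agent.Lib.MP_4ca46c_ag.NilGeo

open Pool.Agent.Lib.MP_4ca46c_ag.Sign Pool.Agent.Lib.MP_4ca46c_ag.Nil

variable {k₀ K : Type} [Field k₀] [Field K] [CharZero K]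

section

variable (T : WeilTheory k₀ K) {k : Type} [Field k] [Algebra k₀ k] [IsAlgClosed k] (X : Var k₀ k)

omit [CharZero K] [IsAlgClosed k] in
theorem nilopq_mul (a b : T.CH (X ⊗ X).X) :
    T.cl (X ⊗ X).X (a * b) = T.cl (X ⊗ X).X a * T.cl (X ⊗ X).X b := map_mul _ a b

/-- The two forms of the nilpotence conjecture. -/
theorem nilX_iff : NilX (weil T k) X ↔ NilQ T X.str X.dim := by
  constructor
  · intro H a ha h0 φ hφ
    have h5 : (weil T k).op (X := X) (Y := X) (T.cl _ a) = φ := by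
      refine LinearMap.ext fun v => ?_
      refine (weil T k).ext_tr (X := X) fun w => ?_
      rw [(weil T k).op_spec]
      exact (hφ v w).symm
    have h6 : IsNilpotent ((weil T k).op (X := X) (Y := X) (T.cl _ a) : Module.End K _) := by
      refine H _ ⟨a, ha, rfl⟩ ?_
      rintro _ ⟨b, hb, rfl⟩
      exact (congrArg (T.tr (X ⊗ X).X) (nilopq_mul T X a b)).symm.trans (h0 b hb)
    rw [h5] at h6
    exact h6
  · rintro H _ ⟨a, ha, rfl⟩ h0
    refine H a ha (fun b hb => ?_) _ fun v w => ?_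
    · exact (congrArg (T.tr (X ⊗ X).X) (nilopq_mul T X a b)).trans (h0 _ ⟨b, hb, rfl⟩)
    · exact (weil T k).op_spec (X := X) (Y := X) (T.cl _ a) v w

end

variable (k₀ K)

theorem tNilOp : StNilOp k₀ K := fun T V h1 h2 =>
  nilOp_of V ((nilX_iff T V.var).2 h1) ((nilX_iff T (V.var ⊗ V.var)).2 h2)

theorem tConvQ : StConvQ k₀ K := fun T V h => (nilX_iff T V.var).1 (nilX_of_sign V h)

end Pool.Agent.Lib.MP_4ca46c_ag.NilGeo
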