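import Pool.Agent.Lib.MP_4ca46c_ag.NilGeo.Spec2

/-!
# Linear algebra over the rational numbers
-/

namespace Pool.Agent.Lib.MP_4ca46c_ag.NilGeo

open Pool.Agent.Lib.MP_4ca46c_ag.Sign Pool.Agent.Lib.MP_4ca46c_ag.Hyp
open Pool.Agent.Lib.MP_4ca46c_ag.Std Pool.Agent.Lib.MP_4ca46c_ag.Nil
open Pool.Agent.Lib.MP_4ca46c_ag.Nil.PreWeil

theorem tQSpan : StQSpan := by
  intro K H _ _ _ _ β A hA hβ x hx hx0
  obtain ⟨n, f, g, rfl⟩ := Submodule.mem_span_set'.mp hx
  let S : Submodule ℚ K := Submodule.span ℚ (Set.range f)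
  have hfS : ∀ i, f i ∈ S := fun i => Submodule.subset_span ⟨i, rfl⟩
  have : FiniteDimensional ℚ S := FiniteDimensional.span_of_finite ℚ (Set.finite_range f)
  let e := Module.finBasis ℚ S
  obtain ⟨Q, he⟩ : ∃ Q : Fin n → Fin (Module.finrank ℚ S) → ℚ,
      ∀ i, f i = ∑ j, (Q i j : K) * (e j : K) := by
    refine ⟨fun i => e.repr ⟨f i, hfS i⟩, fun i => ?_⟩
    have h1 := congrArg (Subtype.val) (e.sum_repr ⟨f i, hfS i⟩)
    refine h1.symm.trans ?_
    rw [AddSubmonoidClass.coe_finsetSum]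
    refine Finset.sum_congr rfl fun j _ => ?_
    rw [Submodule.coe_smul, Algebra.smul_def, eq_ratCast]
  let a : Fin (Module.finrank ℚ S) → H := fun j => ∑ i, (Q i j : K) • (g i : H)
  have ha : ∀ j, a j ∈ A := fun j => sum_mem fun i _ => hA _ _ (g i).2
  have hxa : ∑ i, f i • (g i : H) = ∑ j, (e j : K) • a j := by
    simp only [a, Finset.smul_sum]
    rw [Finset.sum_comm]
    refine Finset.sum_congr rfl fun i _ => ?_
    rw [he i, Finset.sum_smul]
    refine Finset.sum_congr rfl fun j _ => ?_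
    rw [smul_smul, mul_comm]
  have ha0 : ∀ y ∈ A, ∀ j, β (a j) y = 0 := by
    intro y hy
    choose r hr using fun j => hβ (a j) (ha j) y hy
    have h1 := hx0 y hy
    rw [hxa, map_sum, LinearMap.sum_apply] at h1
    have h2 : ∑ j, r j • e j = 0 := by
      apply Subtype.ext
      rw [AddSubmonoidClass.coe_finsetSum, ZeroMemClass.coe_zero, ← h1]
      refine Finset.sum_congr rfl fun j _ => ?_
      rw [Submodule.coe_smul, Algebra.smul_def, eq_ratCast, map_smul, LinearMap.smul_apply, hr j,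
        smul_eq_mul, mul_comm]
    intro j
    rw [hr j, Fintype.linearIndependent_iff.mp e.linearIndependent r h2 j, Rat.cast_zero]
  rw [hxa]
  exact sum_mem fun j _ => Submodule.smul_mem _ _ (Submodule.subset_span ⟨ha j, fun y hy =>
    ha0 y hy j⟩)

end Pool.Agent.Lib.MP_4ca46c_ag.NilGeo
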