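import Pool.Agent.Lib.MP_4ca46c_ag.Geo.Trace

/-!
# The trace formula for the composition of two correspondences
-/

set_option autoImplicit false

namespace Pool.Agent.Lib.MP_4ca46c_ag.NilGeo

open CategoryTheory MonoidalCategory CartesianMonoidalCategory TensorProduct

universe v u

variable {K : Type} [Field K] [CharZero K] {𝒱 : Type u} [Category.{v} 𝒱]
  [CartesianMonoidalCategory 𝒱] (W : Geo.WeilCohomology K 𝒱) {X : 𝒱}

/-- The supertrace of `op v ∘ op u` is the intersection number of `u` with the transpose
of `v`. -/
theorem trF {m : ℕ} {u : W.H (X ⊗ X)} (hu : u ∈ W.gr (X ⊗ X) (2 * m)) (v : W.H (X ⊗ X)) :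
    LinearMap.trace K (W.H X) (W.op v ∘ₗ W.op u ∘ₗ W.eps X) =
      W.tr (X ⊗ X) (u * W.pull (lift (snd X X) (fst X X)) v) := by
  refine W.ind_gr (P := fun u => LinearMap.trace K (W.H X) (W.op v ∘ₗ W.op u ∘ₗ W.eps X) =
    W.tr (X ⊗ X) (u * W.pull (lift (snd X X) (fst X X)) v)) hu ?_ (fun i j a b hij ha hb => ?_)
    (fun u u' h h' => ?_)
  · rw [W.op_zero, LinearMap.zero_comp, LinearMap.comp_zero, map_zero, zero_mul, map_zero]
  · refine W.ind_tm (P := fun v => LinearMap.trace K (W.H X)
      (W.op v ∘ₗ W.op (W.tm a b) ∘ₗ W.eps X) =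
      W.tr (X ⊗ X) (W.tm a b * W.pull (lift (snd X X) (fst X X)) v)) v ?_ (fun c d => ?_)
      (fun u u' h h' => ?_)
    · rw [W.op_zero, LinearMap.zero_comp, map_zero, map_zero, mul_zero, map_zero]
    · refine W.ind (P := fun c => LinearMap.trace K (W.H X)
        (W.op (W.tm c d) ∘ₗ W.op (W.tm a b) ∘ₗ W.eps X) =
        W.tr (X ⊗ X) (W.tm a b * W.pull (lift (snd X X) (fst X X)) (W.tm c d))) c ?_
        (fun k c hc => ?_) (fun u u' h h' => ?_)
      · rw [Geo.WeilCohomology.tm, map_zero, zero_mul, W.op_zero, LinearMap.zero_comp, map_zero,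
          map_zero, mul_zero, map_zero]
      · refine W.ind (P := fun d => LinearMap.trace K (W.H X)
          (W.op (W.tm c d) ∘ₗ W.op (W.tm a b) ∘ₗ W.eps X) =
          W.tr (X ⊗ X) (W.tm a b * W.pull (lift (snd X X) (fst X X)) (W.tm c d))) d ?_
          (fun l d hd => ?_) (fun u u' h h' => ?_)
        · rw [Geo.WeilCohomology.tm, map_zero, mul_zero, W.op_zero, LinearMap.zero_comp, map_zero,
            map_zero, mul_zero, map_zero]
        · have e1 : W.op (W.tm c d) ∘ₗ W.op (W.tm a b) ∘ₗ W.eps X =
              W.tr X (d * a) • ((W.tr X ∘ₗ LinearMap.mulLeft K b ∘ₗ W.eps X).smulRight c) := by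
            ext x
            simp only [LinearMap.comp_apply, W.op_tm, LinearMap.smul_apply,
              LinearMap.smulRight_apply, LinearMap.mulLeft_apply, mul_smul_comm, map_smul,
              smul_eq_mul]
            rw [smul_smul, mul_comm]
          have e2 : W.pull (lift (snd X X) (fst X X)) (W.tm c d) =
              W.pull (snd X X) c * W.pull (fst X X) d := W.pull_tm _ _ _ _
          have e3 : W.tm a b * (W.pull (snd X X) c * W.pull (fst X X) d) =
              W.pull (fst X X) a * W.pull (snd X X) (b * c) * W.pull (fst X X) d := by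
            rw [Geo.WeilCohomology.tm, map_mul]
            simp only [mul_assoc]
          rw [e1, map_smul, LinearMap.trace_smulRight, e2, e3, W.tr_snd]
          change W.tr X (d * a) * W.tr X (b * W.eps X c) = _
          rw [W.tr_eps c b, W.tr_comm hd ha, W.tr_comm hc hb]
          by_cases h1 : i + l = 2 * W.dim X
          · by_cases h2 : j + k = 2 * W.dim X
            · have h3 : ((-1 : K)) ^ (l * i) * (-1) ^ (k * j) = 1 := by
                rw [← pow_add]
                refine Even.neg_one_pow ?_
                rcases Nat.even_or_odd i with hi | hi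
                · have hj : Even j := by
                    by_contra hj
                    rw [Nat.not_even_iff_odd] at hj
                    exact (Nat.not_even_iff_odd.2 (hi.add_odd hj)) (hij ▸ ⟨m, by ring⟩)
                  exact (hi.mul_left l).add (hj.mul_left k)
                · have hj : Odd j := by
                    by_contra hj
                    rw [Nat.not_odd_iff_even] at hj
                    exact (Nat.not_even_iff_odd.2 (hi.add_even hj)) (hij ▸ ⟨m, by ring⟩)
                  have hl : Odd l := by
                    by_contra hl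
                    rw [Nat.not_odd_iff_even] at hl
                    exact (Nat.not_even_iff_odd.2 (hi.add_even hl)) (h1 ▸ ⟨W.dim X, by ring⟩)
                  have hk : Odd k := by
                    by_contra hk
                    rw [Nat.not_odd_iff_even] at hk
                    exact (Nat.not_even_iff_odd.2 (hj.add_even hk)) (h2 ▸ ⟨W.dim X, by ring⟩)
                  exact (hl.mul hi).add_odd (hk.mul hj)
              linear_combination (W.tr X (a * d) * W.tr X (b * c)) * h3
            · rw [W.tr_gr (SetLike.mul_mem_graded hb hc) h2]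
              ring
          · rw [W.tr_gr (SetLike.mul_mem_graded ha hd) h1]
            ring
        · simp only [Geo.WeilCohomology.tm, map_add, mul_add, W.op_add, LinearMap.add_comp] at h h' ⊢
          rw [h, h']
      · simp only [Geo.WeilCohomology.tm, map_add, add_mul, mul_add, W.op_add,
          LinearMap.add_comp] at h h' ⊢
        rw [h, h']
    · simp only [map_add, mul_add, W.op_add, LinearMap.add_comp, h, h']
  · simp only [map_add, add_mul, W.op_add, LinearMap.add_comp, LinearMap.comp_add, h, h']

theorem swap_swap (v : W.H (X ⊗ X)) : W.pull (lift (snd X X) (fst X X))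
    (W.pull (lift (snd X X) (fst X X)) v) = v := by
  have h : lift (snd X X) (fst X X) ≫ lift (snd X X) (fst X X) = 𝟙 (X ⊗ X) := by
    ext
    · simp
    · simp
  rw [← W.pull_comp, h, W.pull_id]

/-- Numerical triviality in terms of supertraces. -/
theorem numF {u : W.H (X ⊗ X)} (hu : u ∈ W.Alg (X ⊗ X) (W.dim X)) :
    (∀ v ∈ W.Alg (X ⊗ X) (W.dim X), W.tr (X ⊗ X) (u * v) = 0) ↔
      ∀ g ∈ W.Cor X X 0, LinearMap.trace K (W.H X) (g ∘ₗ W.op u ∘ₗ W.eps X) = 0 := by
  constructor
  · intro h g hg
    rcases W.mem_cor.1 hg with rfl | ⟨c, v, hc, hv, rfl⟩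
    · rw [LinearMap.zero_comp, map_zero]
    · rw [trF W (W.alg_gr hu)]
      have hc' : c = W.dim X := by omega
      subst hc'
      exact h _ (W.alg_pull _ hv)
  · intro h v hv
    have h1 := h (W.op (W.pull (lift (snd X X) (fst X X)) v))
      (W.mem_cor.2 (Or.inr ⟨W.dim X, _, by omega, W.alg_pull _ hv, rfl⟩))
    rwa [trF W (W.alg_gr hu), swap_swap] at h1

end Pool.Agent.Lib.MP_4ca46c_ag.NilGeo
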