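import Pool.Agent.Lib.MP_4ca46c_ag.NilGeo.NilOpQ
import Pool.Agent.Lib.MP_4ca46c_ag.NilGeo.Norm
import Pool.Agent.Lib.MP_4ca46c_ag.NilGeo.QSpan
import Pool.Agent.Lib.MP_4ca46c_ag.NilGeo.NilSpan
import Pool.Agent.Lib.MP_4ca46c_ag.NilGeo.TrF

/-!
# Nilpotence over a field which is not algebraically closed
-/

set_option autoImplicit false

open CategoryTheory Limits AlgebraicGeometry MonoidalCategory CartesianMonoidalCategory
  TensorProduct

namespace Pool.Agent.Lib.MP_4ca46c_ag.NilGeo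

open Pool.Agent.Lib.MP_4ca46c_ag.Sign Pool.Agent.Lib.MP_4ca46c_ag.Nil

section Abstract

variable {K : Type} [Field K] [CharZero K] {𝒱 : Type 1} [Category.{0} 𝒱]
  [CartesianMonoidalCategory 𝒱] (W : Geo.WeilCohomology K 𝒱) (X : 𝒱)

/-- The operators of the numerically trivial correspondences of degree `0`. -/
def nilpowS : Set (Module.End K (W.H X)) :=
  {f | ∃ u ∈ W.Alg (X ⊗ X) (W.dim X), (∀ v ∈ W.Alg (X ⊗ X) (W.dim X), W.tr (X ⊗ X) (u * v) = 0) ∧
    f = W.op u}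

variable {X}

theorem nilpow_mul {f g : Module.End K (W.H X)} (hf : f ∈ nilpowS W X) (hg : g ∈ nilpowS W X) :
    f * g ∈ nilpowS W X := by
  obtain ⟨u, hu, -, rfl⟩ := hf
  obtain ⟨v, hv, hv0, rfl⟩ := hg
  have hc : W.comp u v ∈ W.Alg (X ⊗ X) (W.dim X) := W.comp_alg hu hv rfl
  refine ⟨W.comp u v, hc, ?_, (W.op_comp u v).symm⟩
  rw [numF W hc]
  intro g hg
  have h1 : (W.op u : W.H X →ₗ[K] W.H X) ∈ W.Cor X X 0 :=
    W.mem_cor.2 (Or.inr ⟨W.dim X, u, by omega, hu, rfl⟩)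
  have h2 := W.cor_comp hg h1
  rw [add_zero] at h2
  have h3 := (numF W hv).1 hv0 _ h2
  rw [W.op_comp]
  exact h3

end Abstract

section

variable {k₀ K : Type} [Field k₀] [Field K] [CharZero K] (T : WeilTheory k₀ K)

omit [CharZero K] in
theorem nilpow_tr {S P Y : Sch k₀} (hS : IsWeil S) (hP : IsWeil P) (hY : IsWeil Y) (θ : S ⟶ P)
    (hθ : IsIso θ) (p q : P ⟶ Y) (p' q' : S ⟶ Y) (hp : θ ≫ p = p') (hq : θ ≫ q = q')
    (v : T.H P) (x y : T.H Y) :
    T.tr S (T.pullH θ v * T.pullH p' x * T.pullH q' y) =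
      T.tr P (v * T.pullH p x * T.pullH q y) := by
  subst hp
  subst hq
  rw [T.pullH_comp _ _ hS hP hY, T.pullH_comp _ _ hS hP hY, ← map_mul, ← map_mul,
    T.tr_iso _ hθ hS hP]

variable {F : Type} [Field F] [Algebra k₀ F] (L : Type) [Field L] [Algebra k₀ L] [Algebra F L]
  [IsScalarTower k₀ F L] [IsAlgClosed L] (X : Var k₀ F)

/-- The base change of `X × X`. -/
noncomputable def nilpowT : bcX L (X ⊗ X) ≅ (bcV L X ⊗ bcV L X).X := (bcM_prod L X X).isoPullback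

/-- The operator of a class on the base change of `X × X`. -/
theorem nilpow_op (v : T.H (bcV L X ⊗ bcV L X).X) :
    (pre T L).op (X := X) (Y := X) (T.pullH (nilpowT L X).hom v) =
      (weil T L).op (X := bcV L X) (Y := bcV L X) v := by
  refine LinearMap.ext fun x => (weil T L).ext_tr (X := bcV L X) fun y => ?_
  refine ((pre T L).op_spec (X := X) (Y := X) _ x y).trans ?_
  refine Eq.trans ?_ ((weil T L).op_spec (X := bcV L X) (Y := bcV L X) v x y).symm
  exact nilpow_tr T (bc_var L (X ⊗ X)).isWeil (bcV L X ⊗ bcV L X).isVar.isWeil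
    (bc_var L X).isWeil (nilpowT L X).hom inferInstance _ _ _ _
    (bcM_prod L X X).isoPullback_hom_snd (bcM_prod L X X).isoPullback_hom_fst v x y

omit [CharZero K] in
/-- Numerical triviality is invariant under isomorphisms. -/
theorem nilpow_num {S P : Sch k₀} (hS : IsWeil S) (hP : IsWeil P) (hS' : Sm S) (hP' : Sm P)
    (θ : S ≅ P) {d : ℕ} {a : T.CH S} (ha : a ∈ T.codim S d)
    (h0 : ∀ b ∈ T.codim S d, T.tr S (T.cl S (a * b)) = 0) :
    ∃ a' ∈ T.codim P d, T.pull θ.hom a' = a ∧ ∀ b ∈ T.codim P d, T.tr P (T.cl P (a' * b)) = 0 := by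
  have h1 : T.pull θ.hom (T.pull θ.inv a) = a := by
    rw [← T.pull_comp _ _ hS' hP' hS', θ.hom_inv_id, T.pull_id hS']
  refine ⟨T.pull θ.inv a, T.pull_mem _ hP' hS' _ _ ha, h1, fun b hb => ?_⟩
  rw [← T.tr_iso θ.hom inferInstance hS hP, ← T.cl_pull _ hS hP, map_mul, h1]
  exact h0 _ (T.pull_mem _ hS' hP' _ _ hb)

/-- The operator of a numerically trivial cycle over `F` is numerically trivial over `L`. -/
theorem nilpow_mem (hNorm : StNorm k₀ K) [IsAlgClosure F L] {a : (pre T L).H (X ⊗ X)}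
    (ha : a ∈ (pre T L).Alg (X ⊗ X) X.dim)
    (h0 : ∀ b ∈ (pre T L).Alg (X ⊗ X) X.dim, (pre T L).tr (X ⊗ X) (a * b) = 0) :
    (pre T L).op (X := X) (Y := X) a ∈ nilpowS (weil T L) (bcV L X) := by
  obtain ⟨a₀, ha₀, rfl⟩ := (mem_alg T L).1 ha
  have hS := bc_var L (X ⊗ X)
  have hP := (bcV L X ⊗ bcV L X).isVar
  have h1 := hNorm T F L (X ⊗ X) X.dim a₀ (fun b hb => by
    have h2 := h0 (cls T L (X ⊗ X) b) ((mem_alg T L).2 ⟨b, hb, rfl⟩)
    rw [← map_mul] at h2
    exact h2)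
  obtain ⟨a', ha', ha2, ha3⟩ := nilpow_num T hS.isWeil hP.isWeil hS.sm hP.sm (nilpowT L X)
    (T.pull_mem _ hS.sm (X ⊗ X).isVar.sm _ _ ha₀) h1
  refine ⟨T.cl _ a', ⟨a', ha', rfl⟩, ?_, ?_⟩
  · rintro _ ⟨b, hb, rfl⟩
    exact (congrArg (T.tr (bcV L X ⊗ bcV L X).X)
      (nilopq_mul T (bcV L X) a' b)).symm.trans (ha3 b hb)
  · rw [← nilpow_op, ← T.cl_pull _ hS.isWeil hP.isWeil, ha2]
    rfl

end

/-- **Nilpotence over `F`.** -/
theorem tNilPow (k₀ K : Type) [Field k₀] [Field K] [CharZero K] : StNilPowG k₀ K := by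
  intro T F L _ _ _ _ _ _ _ _ X hQ n hn h0
  have hd : (pre T L).dim (X ⊗ X) = X.dim + X.dim := rfl
  have h1 := tQSpan K ((pre T L).H (X ⊗ X))
    ((LinearMap.mul K ((pre T L).H (X ⊗ X))).compr₂ ((pre T L).tr (X ⊗ X)))
    ((pre T L).Alg (X ⊗ X) X.dim) (fun q x hx => (pre T L).alg_rat q hx)
    (fun x hx y hy => (pre T L).alg_tr ((pre T L).alg_mul hx hy)) n hn
    (fun y hy => h0 y (Submodule.subset_span hy))
  have h2 : (pre T L).op (X := X) (Y := X) n ∈
      Submodule.span K (nilpowS (weil T L) (bcV L X)) := by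
    refine Submodule.span_induction (p := fun x _ => (pre T L).op (X := X) (Y := X) x ∈
      Submodule.span K (nilpowS (weil T L) (bcV L X))) ?_ ?_ ?_ ?_ h1
    · rintro a ⟨ha, ha0⟩
      exact Submodule.subset_span (nilpow_mem T L X (tNorm k₀ K) ha ha0)
    · rw [(pre T L).op_zero]
      exact Submodule.zero_mem _
    · intro a b _ _ ha hb
      rw [(pre T L).op_add]
      exact Submodule.add_mem _ ha hb
    · intro t a _ ha
      rw [(pre T L).op_smul]
      exact Submodule.smul_mem _ _ ha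
  have hN := (nilX_iff T (bcV L X)).2 hQ
  have hfin : FiniteDimensional K ((weil T L).H (bcV L X)) := (weil T L).finite _
  exact tNilSpan K ((weil T L).H (bcV L X)) (nilpowS (weil T L) (bcV L X))
    (fun f hf g hg => nilpow_mul _ hf hg) (by
      rintro _ ⟨u, hu, hu0, rfl⟩
      exact hN u hu hu0) _ h2

end Pool.Agent.Lib.MP_4ca46c_ag.NilGeo
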