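import Pool.Agent.Lib.MP_4ca46c_ag.NilGeo.Spec2
import Pool.Agent.Lib.MP_4ca46c_ag.NilGeo.NilOp

/-!
# The two forms of the nilpotence conjecture
-/

set_option autoImplicit false

open CategoryTheory Limits AlgebraicGeometry MonoidalCategory CartesianMonoidalCategory
  TensorProduct

namespace Pool.Agent.Lib.MP_4ca46c_ag.NilGeo

open Pool.Agent.Lib.MP_4ca46c_ag.Sign Pool.Agent.Lib.MP_4ca46c_ag.Nil

variable {k₀ K : Type} [Field k₀] [Field K] [CharZero K] (T : WeilTheory k₀ K) {L : Type} [Field L]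
  [Algebra k₀ L] [IsAlgClosed L] (X : Var k₀ L)

theorem nilQ_of_nilX (h : NilX (weil T L) X) : NilQ T X.str X.dim := by
  intro a ha h0 φ hφ
  have h1 : (weil T L).op (X := X) (Y := X) (T.cl (pullback X.str X.str) a) = φ := by
    refine LinearMap.ext fun v => (weil T L).ext_tr (X := X) fun w => ?_
    exact ((weil T L).op_spec (X := X) (Y := X) (T.cl (pullback X.str X.str) a) v w).trans
      (hφ v w).symm
  have h2 := h (T.cl (pullback X.str X.str) a) ⟨a, ha, rfl⟩ (by
    rintro _ ⟨b, hb, rfl⟩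
    have h3 : T.tr (pullback X.str X.str) (T.cl (pullback X.str X.str) a *
        T.cl (pullback X.str X.str) b) = 0 :=
      (congrArg (T.tr _) (map_mul (T.cl (pullback X.str X.str)) a b)).symm.trans (h0 b hb)
    exact h3)
  rw [h1] at h2
  exact h2

end Pool.Agent.Lib.MP_4ca46c_ag.NilGeo
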