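import Pool.Agent.Lib.MP_4ca46c_ag.NilGeo.Spec2
import Pool.Agent.Lib.MP_4ca46c_ag.Sign.Key

/-!
# The relation for the generic hyperplane section

The computation is done for a morphism `r : Y ⟶ Z` of varieties over a field `F` and a map `z` of
`Z` to a variety `X` over an algebraically closed field.
-/

set_option autoImplicit false

namespace Pool.Agent.Lib.MP_4ca46c_ag.NilGeo

open CategoryTheory Limits AlgebraicGeometry TensorProduct MonoidalCategory
  CartesianMonoidalCategory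
open Pool.Agent.Lib.MP_4ca46c_ag.Sign Pool.Agent.Lib.MP_4ca46c_ag.Hyp
open Pool.Agent.Lib.MP_4ca46c_ag.Std Pool.Agent.Lib.MP_4ca46c_ag.Nil
open Pool.Agent.Lib.MP_4ca46c_ag.Nil.PreWeil

section

variable {k₀ : Type} [Field k₀] {F : Type} [Field F] [Algebra k₀ F] (L : Type) [Field L]
  [Algebra k₀ L] [Algebra F L] [IsScalarTower k₀ F L] {Y Z : Var k₀ F} (r : Y ⟶ Z)
  {k : Type} [Field k] [Algebra k₀ k] {X : Sch k₀} (v : X ⟶ pt k₀ k) (z : Z.X ⟶ X)
  (u : (Z ⊗ Z).X ⟶ pullback v v)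

/-- the inclusion of the square of the section -/
noncomputable def relg_l : Y ⊗ Y ⟶ Z ⊗ Z := lift (fst Y Y ≫ r) (snd Y Y ≫ r)

/-- the map of the section to `X` -/
noncomputable def relg_q : bcX L Y ⟶ X := bcPr L Y ≫ r.hom ≫ z

/-- the map of the square of the section to the square of `X` -/
noncomputable def relg_R : bcX L (Y ⊗ Y) ⟶ pullback v v := bcPr L (Y ⊗ Y) ≫ (relg_l r).hom ≫ u

theorem relg_l_fst : (relg_l r).hom ≫ (fst Z Z).hom = (fst Y Y).hom ≫ r.hom := by
  rw [← Var.comp_hom, ← Var.comp_hom]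
  unfold relg_l
  rw [lift_fst]

theorem relg_l_snd : (relg_l r).hom ≫ (snd Z Z).hom = (snd Y Y).hom ≫ r.hom := by
  rw [← Var.comp_hom, ← Var.comp_hom]
  unfold relg_l
  rw [lift_snd]

theorem relg_fst (h : u ≫ pullback.fst v v = (fst Z Z).hom ≫ z) :
    relg_R L r v u ≫ pullback.fst v v = bcM L (fst Y Y) ≫ relg_q L r z := by
  unfold relg_R relg_q
  rw [Category.assoc, Category.assoc, h, ← Category.assoc (relg_l r).hom,
    relg_l_fst, Category.assoc, ← Category.assoc (bcM L (fst Y Y)), bcM_pr, Category.assoc]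

theorem relg_snd (h : u ≫ pullback.snd v v = (snd Z Z).hom ≫ z) :
    relg_R L r v u ≫ pullback.snd v v = bcM L (snd Y Y) ≫ relg_q L r z := by
  unfold relg_R relg_q
  rw [Category.assoc, Category.assoc, h, ← Category.assoc (relg_l r).hom,
    relg_l_snd, Category.assoc, ← Category.assoc (bcM L (snd Y Y)), bcM_pr, Category.assoc]

variable [IsAlgClosed k] [IsAlgClosed L] {K : Type} [Field K] [CharZero K] (T : WeilTheory k₀ K)
  (n : ℕ) (hv : IsVar v n)

/-- the pull-back to the section -/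
noncomputable def relg_Q (x : T.H X) : (pre T L).H Y := T.pullH (relg_q L r z) x

/-- the pull-back to the square of the section -/
noncomputable def relg_C (w : T.H (pullback v v)) : (pre T L).H (Y ⊗ Y) :=
  T.pullH (relg_R L r v u) w

omit [IsAlgClosed k] in
include hv in
theorem relg_var2 : IsVar (pullback.fst v v ≫ v) (n + n) := Var.isVar_prod hv hv

omit [CharZero K] in
/-- the trace on the square of the section -/
theorem relg_trR (hu1 : u ≫ pullback.fst v v = (fst Z Z).hom ≫ z)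
    (hu2 : u ≫ pullback.snd v v = (snd Z Z).hom ≫ z) (hv : IsVar v n) (H : T.H X)
    (hHdeg : H ∈ T.deg X (2 * 1))
    (hcls : ∀ a, T.tr (bcX L Y) (T.pullH (relg_q L r z) a) = T.tr X (H * a))
    (w : T.H (pullback v v)) :
    T.tr (bcX L (Y ⊗ Y)) (T.pullH (relg_R L r v u) w) =
      T.tr _ (T.pullH (pullback.fst v v) H * (T.pullH (pullback.snd v v) H * w)) := by
  have wYY : IsWeil (bcX L (Y ⊗ Y)) := (bc_var L _).isWeil
  have wY : IsWeil (bcX L Y) := (bc_var L _).isWeil
  have wZ : IsWeil X := hv.isWeil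
  have wZZ : IsWeil (pullback v v) := (relg_var2 v n hv).isWeil
  have hpZ : IsPullback (pullback.fst v v) (pullback.snd v v) v v :=
    IsPullback.of_hasPullback v v
  have hR1 : ∀ a, T.pullH (relg_R L r v u) (T.pullH (pullback.fst v v) a) =
      T.pullH (bcM L (fst Y Y)) (T.pullH (relg_q L r z) a) := by
    intro a
    rw [← T.pullH_comp _ _ wYY wZZ wZ, ← T.pullH_comp _ _ wYY wY wZ, relg_fst L r v z u hu1]
  have hR2 : ∀ a, T.pullH (relg_R L r v u) (T.pullH (pullback.snd v v) a) =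
      T.pullH (bcM L (snd Y Y)) (T.pullH (relg_q L r z) a) := by
    intro a
    rw [← T.pullH_comp _ _ wYY wZZ wZ, ← T.pullH_comp _ _ wYY wY wZ, relg_snd L r v z u hu2]
  have hH1 : ∀ v', T.pullH (pullback.fst v v) H * v' = v' * T.pullH (pullback.fst v v) H :=
    key_central T wZZ (T.pullH_mem _ wZZ wZ _ _ hHdeg)
  have hH2 : ∀ v', T.pullH (pullback.snd v v) H * v' = v' * T.pullH (pullback.snd v v) H :=
    key_central T wZZ (T.pullH_mem _ wZZ wZ _ _ hHdeg)
  refine key_ind T v v (pullback.fst v v) (pullback.snd v v) _ _ hv hv hpZ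
    (C := fun w => T.tr (bcX L (Y ⊗ Y)) (T.pullH (relg_R L r v u) w) =
      T.tr _ (T.pullH (pullback.fst v v) H * (T.pullH (pullback.snd v v) H * w))) ?_ ?_ ?_ w
  · rw [map_zero, map_zero, mul_zero, mul_zero, map_zero]
  · intro u v hu hv
    rw [map_add, map_add, hu, hv, mul_add, mul_add, map_add]
  · intro i j a _ c _
    have e1 : T.pullH (pullback.fst v v) H * (T.pullH (pullback.snd v v) H *
        (T.pullH (pullback.fst v v) a * T.pullH (pullback.snd v v) c)) =
        T.pullH (pullback.fst v v) (H * a) * T.pullH (pullback.snd v v) (H * c) := by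
      rw [map_mul (T.pullH (pullback.fst v v)), map_mul (T.pullH (pullback.snd v v))]
      have := key_alg hH1 hH2 1 (T.pullH (pullback.fst v v) a) (T.pullH (pullback.snd v v) c)
      rwa [one_mul, one_mul] at this
    rw [map_mul (T.pullH (relg_R L r v u)), hR1, hR2,
      T.tr_kunneth (bcStr L Y) (bcStr L Y) _ _ _ _ (bc_var L _) (bc_var L _) (bcM_prod L _ _),
      hcls, hcls, e1, T.tr_kunneth v v _ _ _ _ hv hv hpZ]

/-- the pull-back of the class of a cycle on the square of `X` -/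
theorem relg_cls (hv : IsVar v n) (w : T.CH (pullback v v)) :
    (pre T L).pull (relg_l r) (cls T L (Z ⊗ Z) (T.pull u w)) =
      relg_C L r v u T (T.cl _ w) := by
  have sYY : Sm (bcX L (Y ⊗ Y)) := (bc_var L _).sm
  have sYY0 : Sm (Y ⊗ Y).X := (Y ⊗ Y).isVar.sm
  have sZZ0 : Sm (Z ⊗ Z).X := (Z ⊗ Z).isVar.sm
  have sP : Sm (pullback v v) := (relg_var2 v n hv).sm
  have wYY : IsWeil (bcX L (Y ⊗ Y)) := (bc_var L _).isWeil
  rw [← cls_pull, cls_apply, ← T.pull_comp _ _ sYY0 sZZ0 sP, ← T.pull_comp _ _ sYY sYY0 sP]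
  exact T.cl_pull (relg_R L r v u) wYY (relg_var2 v n hv).isWeil w

/-- The computation for one cycle. -/
theorem relg_one (h2 : StOpR) (hu1 : u ≫ pullback.fst v v = (fst Z Z).hom ≫ z)
    (hu2 : u ≫ pullback.snd v v = (snd Z Z).hom ≫ z) (hv : IsVar v n) (H : T.H X)
    (hHdeg : H ∈ T.deg X (2 * 1))
    (hcls : ∀ a, T.tr (bcX L Y) (T.pullH (relg_q L r z) a) = T.tr X (H * a))
    (w : T.CH (pullback v v)) (x x' : T.H X) :
    (pre T L).tr Y ((pre T L).pull r ((pre T L).op (cls T L (Z ⊗ Z) (T.pull u w))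
        ((pre T L).push r (relg_Q L r z T x))) * relg_Q L r z T x') =
      T.tr (pullback v v) (T.cl _ w * T.pullH (pullback.snd v v) (H * x) *
        T.pullH (pullback.fst v v) (H * x')) := by
  have wYY : IsWeil (bcX L (Y ⊗ Y)) := (bc_var L _).isWeil
  have wY : IsWeil (bcX L Y) := (bc_var L _).isWeil
  have wZ : IsWeil X := hv.isWeil
  have wZZ : IsWeil (pullback v v) := (relg_var2 v n hv).isWeil
  have h3 := LinearMap.congr_fun (h2 K (Var k₀ F) (pre T L) Y Z r
    (cls T L (Z ⊗ Z) (T.pull u w))) (relg_Q L r z T x)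
  have h4 : (pre T L).pull r ((pre T L).op (cls T L (Z ⊗ Z) (T.pull u w))
        ((pre T L).push r (relg_Q L r z T x))) =
      (pre T L).op (relg_C L r v u T (T.cl _ w)) (relg_Q L r z T x) := by
    rw [← relg_cls L r v u T n hv]
    exact h3.symm
  rw [h4, op_spec]
  have hR1 : ∀ a, T.pullH (relg_R L r v u) (T.pullH (pullback.fst v v) a) =
      T.pullH (bcM L (fst Y Y)) (T.pullH (relg_q L r z) a) := by
    intro a
    rw [← T.pullH_comp _ _ wYY wZZ wZ, ← T.pullH_comp _ _ wYY wY wZ, relg_fst L r v z u hu1]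
  have hR2 : ∀ a, T.pullH (relg_R L r v u) (T.pullH (pullback.snd v v) a) =
      T.pullH (bcM L (snd Y Y)) (T.pullH (relg_q L r z) a) := by
    intro a
    rw [← T.pullH_comp _ _ wYY wZZ wZ, ← T.pullH_comp _ _ wYY wY wZ, relg_snd L r v z u hu2]
  change T.tr (bcX L (Y ⊗ Y)) (T.pullH (relg_R L r v u) (T.cl _ w) *
    T.pullH (bcM L (snd Y Y)) (T.pullH (relg_q L r z) x) *
    T.pullH (bcM L (fst Y Y)) (T.pullH (relg_q L r z) x')) = _
  rw [← hR1, ← hR2, ← map_mul, ← map_mul, relg_trR L r v z u T n hu1 hu2 hv H hHdeg hcls]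
  have hH1 : ∀ v', T.pullH (pullback.fst v v) H * v' = v' * T.pullH (pullback.fst v v) H :=
    key_central T wZZ (T.pullH_mem _ wZZ wZ _ _ hHdeg)
  have hH2 : ∀ v', T.pullH (pullback.snd v v) H * v' = v' * T.pullH (pullback.snd v v) H :=
    key_central T wZZ (T.pullH_mem _ wZZ wZ _ _ hHdeg)
  congr 1
  rw [map_mul (T.pullH (pullback.fst v v)), map_mul (T.pullH (pullback.snd v v)), ← mul_assoc,
    hH1, mul_assoc]
  exact key_alg hH2 hH1 _ _ _

/-- The relation. -/
theorem relg_main (h2 : StOpR) (hu1 : u ≫ pullback.fst v v = (fst Z Z).hom ≫ z)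
    (hu2 : u ≫ pullback.snd v v = (snd Z Z).hom ≫ z) (hv : IsVar v n) (H : T.H X)
    (hHdeg : H ∈ T.deg X (2 * 1))
    (hcls : ∀ a, T.tr (bcX L Y) (T.pullH (relg_q L r z) a) = T.tr X (H * a))
    (m : ℕ) (hm : Z.dim = m + 1)
    (h1 : ∀ a ∈ T.codim (Z ⊗ Z).X m, ∃ w ∈ T.codim (pullback v v) m, T.pull u w = a)
    (P : ℕ → Prop) (s : (pre T L).H Z →ₗ[K] (pre T L).H Z) (hs : s ∈ (pre T L).CK Z Z (-1))
    (hP : ∀ i, P i → ∀ y ∈ (pre T L).gr Y i, (pre T L).pull r (s ((pre T L).push r y)) = y) :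
    ∃ t ∈ Submodule.span K (T.cl (pullback v v) '' T.codim (pullback v v) m),
    ∀ i, P i → ∀ x ∈ T.deg X i, ∀ x', T.tr (pullback v v)
      (t * T.pullH (pullback.snd v v) (H * x) * T.pullH (pullback.fst v v) (H * x')) =
      T.tr X (H * x * x') := by
  have wY : IsWeil (bcX L Y) := (bc_var L _).isWeil
  have wZ : IsWeil X := hv.isWeil
  have key : ∃ t ∈ Submodule.span K
      (T.cl (pullback v v) '' T.codim (pullback v v) m), ∀ x x' : T.H X,
      (pre T L).tr Y ((pre T L).pull r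
        (s ((pre T L).push r (relg_Q L r z T x))) * relg_Q L r z T x') =
      T.tr (pullback v v) (t * T.pullH (pullback.snd v v) (H * x) *
        T.pullH (pullback.fst v v) (H * x')) := by
    clear hP
    refine Submodule.span_induction (p := fun s _ => ∃ t ∈ Submodule.span K
      (T.cl (pullback v v) '' T.codim (pullback v v) m), ∀ x x' : T.H X,
      (pre T L).tr Y ((pre T L).pull r
        (s ((pre T L).push r (relg_Q L r z T x))) * relg_Q L r z T x') =
      T.tr (pullback v v) (t * T.pullH (pullback.snd v v) (H * x) *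
        T.pullH (pullback.fst v v) (H * x'))) ?_ ?_ ?_ ?_ hs
    · intro s hs
      rcases (pre T L).mem_cor.1 hs with rfl | ⟨c, b, hc, hb, rfl⟩
      · refine ⟨0, Submodule.zero_mem _, fun x x' => ?_⟩
        rw [zero_mul, zero_mul, map_zero, LinearMap.zero_apply, map_zero, zero_mul, map_zero]
      · have hdim : (pre T L).dim Z = m + 1 := hm
        have hcm : c = m := by
          rw [hdim] at hc
          push_cast at hc
          omega
        subst hcm
        obtain ⟨a, ha, rfl⟩ := (mem_alg T L).1 hb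
        obtain ⟨w, hw, rfl⟩ := h1 a ha
        exact ⟨T.cl _ w, Submodule.subset_span ⟨w, hw, rfl⟩,
          relg_one L r v z u T n h2 hu1 hu2 hv H hHdeg hcls w⟩
    · refine ⟨0, Submodule.zero_mem _, fun x x' => ?_⟩
      rw [zero_mul, zero_mul, map_zero, LinearMap.zero_apply, map_zero, zero_mul, map_zero]
    · rintro s s' - - ⟨t, ht, h⟩ ⟨t', ht', h'⟩
      refine ⟨t + t', Submodule.add_mem _ ht ht', fun x x' => ?_⟩
      rw [add_mul, add_mul, map_add, ← h, ← h', LinearMap.add_apply, map_add, add_mul, map_add]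
    · rintro c s - ⟨t, ht, h⟩
      refine ⟨c • t, Submodule.smul_mem _ _ ht, fun x x' => ?_⟩
      rw [smul_mul_assoc, smul_mul_assoc, map_smul, ← h, LinearMap.smul_apply, map_smul,
        smul_mul_assoc, map_smul]
  obtain ⟨t, ht, ht'⟩ := key
  refine ⟨t, ht, fun i hi x hx x' => ?_⟩
  rw [← ht', hP i hi (relg_Q L r z T x) (T.pullH_mem _ wY wZ i _ hx)]
  change T.tr (bcX L Y) (T.pullH (relg_q L r z) x * T.pullH (relg_q L r z) x') = _
  rw [← map_mul, hcls, mul_assoc]

end

section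

variable {k₀ : Type} [Field k₀] {K : Type} [Field K] {k : Type} [Field k] [Algebra k₀ k]

theorem relg_uZZ_fst (V : ProjVar k₀ k) : uZZ V ≫ pullback.fst V.str V.str =
    (fst (gZ V) (gZ V)).hom ≫ bcPr V.F (pv V) := pullback.lift_fst _ _ _

theorem relg_uZZ_snd (V : ProjVar k₀ k) : uZZ V ≫ pullback.snd V.str V.str =
    (snd (gZ V) (gZ V)).hom ≫ bcPr V.F (pv V) := pullback.lift_snd _ _ _

variable [IsAlgClosed k] {T : WeilTheory k₀ K} (E : Extra T) (V : ProjVar k₀ k)
  (m : ℕ) (hm : 1 ≤ m) (hn : V.n = m + 1)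

theorem relg_q_eq : relg_q V.L (gR E V m hm hn) (bcPr V.F (pv V)) = V.p ≫ V.r₀ := by
  unfold relg_q
  rw [gR_pr]
  rfl

theorem relg_tr (a : T.H V.X) : T.tr (bcX V.L (gY E V m hm hn))
    (T.pullH (relg_q V.L (gR E V m hm hn) (bcPr V.F (pv V))) a) =
      T.tr V.X (T.cl V.X (V.h T) * a) := by
  rw [relg_q_eq]
  exact (V.genClass E m hn).2 (V.isVar_y E m hm hn) a

end

theorem tRelG (k₀ K : Type) [Field k₀] [Field K] [CharZero K] (h1 : StDescG k₀ K)
    (h2 : StOpR) : StRelG k₀ K := by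
  intro T E k _ _ _ V m hm hn P s hs hP
  exact relg_main V.L (gR E V m hm hn) V.str (bcPr V.F (pv V)) (uZZ V) T V.n h2
    (relg_uZZ_fst V) (relg_uZZ_snd V) V.isVar (T.cl V.X (V.h T))
    (T.cl_mem _ V.isVar.isWeil 1 _ (V.h_mem T tPS tHyp)) (relg_tr E V m hm hn) m hn
    (h1 T k V m) P s hs hP

end Pool.Agent.Lib.MP_4ca46c_ag.NilGeo
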