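import Pool.Agent.Lib.MP_4ca46c_ag.Sign.Rel
import Pool.Agent.Lib.MP_4ca46c_ag.Nil.Inst

/-!
# From the generic section to the relation on `X × X`
-/

set_option autoImplicit false

open CategoryTheory Limits AlgebraicGeometry MonoidalCategory CartesianMonoidalCategory
  TensorProduct

namespace Pool.Agent.Lib.MP_4ca46c_ag.NilGeo

open Pool.Agent.Lib.MP_4ca46c_ag.Sign Pool.Agent.Lib.MP_4ca46c_ag.Nil

section Pre

variable {K : Type} [Field K] [CharZero K] {𝒱 : Type 1} [Category.{0} 𝒱]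
  [CartesianMonoidalCategory 𝒱] (W : PreWeil K 𝒱) {X Y Z : 𝒱}

/-- An element of `CK` is the operator of a `K`-combination of algebraic classes. -/
theorem transfer_ck {m : ℤ} {c : ℕ} (hc : (c : ℤ) = W.dim Y + m) {f : W.H Y →ₗ[K] W.H X}
    (hf : f ∈ W.CK X Y m) : ∃ u ∈ W.AK (X ⊗ Y) c, f = W.op u := by
  refine Submodule.span_induction (p := fun f _ => ∃ u ∈ W.AK (X ⊗ Y) c, f = W.op u) ?_ ?_ ?_ ?_ hf
  · intro f hf
    rcases W.mem_cor.1 hf with rfl | ⟨c', u, hc', hu, rfl⟩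
    · exact ⟨0, Submodule.zero_mem _, W.op_zero.symm⟩
    · obtain rfl : c' = c := by omega
      exact ⟨u, Submodule.subset_span hu, rfl⟩
  · exact ⟨0, Submodule.zero_mem _, W.op_zero.symm⟩
  · rintro _ _ _ _ ⟨u, hu, rfl⟩ ⟨v, hv, rfl⟩
    exact ⟨u + v, Submodule.add_mem _ hu hv, (W.op_add u v).symm⟩
  · rintro a _ _ ⟨u, hu, rfl⟩
    exact ⟨a • u, Submodule.smul_mem _ _ hu, (W.op_smul a u).symm⟩

/-- Classes of degree `2` are central. -/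
theorem transfer_central {h : W.H X} (hh : h ∈ W.gr X 2) (y : W.H X) : h * y = y * h := by
  refine W.ind (P := fun y => h * y = y * h) y (by simp) (fun i y hy => ?_)
    (fun r s hr hs => by simp only [mul_add, add_mul, hr, hs])
  rw [W.comm hh hy, Even.neg_one_pow ⟨i, by ring⟩, one_mul]

end Pre

section Abstract

variable {K : Type} [Field K] [CharZero K] {𝒱 : Type 1} [Category.{0} 𝒱]
  [CartesianMonoidalCategory 𝒱] (W₀ : Geo.WeilCohomology K 𝒱) {𝒱' : Type 1} [Category.{0} 𝒱']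
  [CartesianMonoidalCategory 𝒱'] (W : PreWeil K 𝒱') {X : 𝒱} {Y Z : 𝒱'}

/-- The relation on `X × X`, in terms of traces. -/
theorem transfer_rel (r : Y ⟶ Z) (β : W₀.H (X ⊗ X) →ₐ[K] W.H Z)
    (β₂ : W₀.H ((X ⊗ X) ⊗ (X ⊗ X)) →ₐ[K] W.H (Z ⊗ Z))
    (hβ1 : ∀ z, β₂ (W₀.pull (fst (X ⊗ X) (X ⊗ X)) z) = W.pull (fst Z Z) (β z))
    (hβ2 : ∀ z, β₂ (W₀.pull (snd (X ⊗ X) (X ⊗ X)) z) = W.pull (snd Z Z) (β z))
    (hgr : ∀ i, ∀ z ∈ W₀.gr (X ⊗ X) i, β z ∈ W.gr Z i)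
    (htr1 : ∀ z, W.tr Z (β z) = W₀.tr (X ⊗ X) z)
    (htr2 : ∀ z, W.tr (Z ⊗ Z) (β₂ z) = W₀.tr ((X ⊗ X) ⊗ (X ⊗ X)) z)
    {h : W₀.H X} (hh : h ∈ W₀.gr X 2) {m : K} (hm : m ≠ 0)
    (hG : ∀ t, W.tr Y (W.pull r t) = W.tr Z (β (m • relH W₀ h) * t)) {D : ℕ}
    (hD : W.dim Z = D + 1)
    (h5 : ∀ u ∈ W.Alg (Z ⊗ Z) D, ∃ u₀ ∈ W₀.Alg ((X ⊗ X) ⊗ (X ⊗ X)) D, β₂ u₀ = u)
    (P : ℕ → Prop) {s : W.H Z →ₗ[K] W.H Z} (hs : s ∈ W.CK Z Z (-1))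
    (hsr : ∀ i, P i → ∀ x ∈ W.gr Y i, W.pull r (s (W.push r x)) = x) :
    ∃ u ∈ Submodule.span K (W₀.Alg ((X ⊗ X) ⊗ (X ⊗ X)) D : Set (W₀.H ((X ⊗ X) ⊗ (X ⊗ X)))),
      ∀ i, P i → ∀ z ∈ W₀.gr (X ⊗ X) i, ∀ z', W₀.tr ((X ⊗ X) ⊗ (X ⊗ X))
        (u * W₀.pull (snd (X ⊗ X) (X ⊗ X)) (relH W₀ h * z) *
          W₀.pull (fst (X ⊗ X) (X ⊗ X)) (relH W₀ h * z')) =
        W₀.tr (X ⊗ X) (relH W₀ h * z * z') := by
  obtain ⟨u, hu, rfl⟩ := transfer_ck W (c := D) (by rw [hD]; push_cast; ring) hs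
  -- descent of the class
  have hu0 : ∃ u₀ ∈ Submodule.span K (W₀.Alg ((X ⊗ X) ⊗ (X ⊗ X)) D :
      Set (W₀.H ((X ⊗ X) ⊗ (X ⊗ X)))), β₂ u₀ = u := by
    refine Submodule.span_induction (p := fun u _ => ∃ u₀ ∈ Submodule.span K
      (W₀.Alg ((X ⊗ X) ⊗ (X ⊗ X)) D : Set (W₀.H ((X ⊗ X) ⊗ (X ⊗ X)))), β₂ u₀ = u) ?_ ?_ ?_ ?_ hu
    · intro u hu
      obtain ⟨u₀, h1, h2⟩ := h5 u hu
      exact ⟨u₀, Submodule.subset_span h1, h2⟩
    · exact ⟨0, Submodule.zero_mem _, map_zero _⟩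
    · rintro _ _ _ _ ⟨u, hu, rfl⟩ ⟨v, hv, rfl⟩
      exact ⟨u + v, Submodule.add_mem _ hu hv, map_add _ _ _⟩
    · rintro a _ _ ⟨u, hu, rfl⟩
      exact ⟨a • u, Submodule.smul_mem _ _ hu, map_smul _ _ _⟩
  obtain ⟨u₀, hu₀, rfl⟩ := hu0
  set H := relH W₀ h with hH
  have hHgr : H ∈ W₀.gr (X ⊗ X) 2 := relH_gr W₀ hh
  have hc : ∀ y : W.H Z, β (m • H) * y = y * β (m • H) :=
    transfer_central W (hgr 2 _ (Submodule.smul_mem _ _ hHgr))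
  have hpush : ∀ z, W.push r (W.pull r z) = β (m • H) * z := by
    intro z
    refine W.push_eq r _ _ fun t => ?_
    rw [← map_mul, hG, mul_assoc]
  refine ⟨m • u₀, Submodule.smul_mem _ _ hu₀, fun i hi z hz z' => ?_⟩
  have h1 := hsr i hi (W.pull r (β z)) (W.pull_gr r (hgr i z hz))
  rw [hpush] at h1
  have h2 : W.tr Y (W.pull r (β z) * W.pull r (β z')) = m * W₀.tr (X ⊗ X) (H * z * z') := by
    rw [← map_mul, ← map_mul, hG, ← map_mul, htr1, smul_mul_assoc, map_smul, smul_eq_mul,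
      mul_assoc]
  have h3 : W.tr Y (W.pull r (β z) * W.pull r (β z')) =
      W₀.tr ((X ⊗ X) ⊗ (X ⊗ X)) (u₀ * W₀.pull (snd (X ⊗ X) (X ⊗ X)) ((m • H) * z) *
        W₀.pull (fst (X ⊗ X) (X ⊗ X)) ((m • H) * z')) := by
    rw [← htr2, map_mul β₂, map_mul β₂, hβ1, hβ2, ← W.op_spec]
    conv_lhs => rw [← h1]
    rw [← map_mul (W.pull r), hG, ← mul_assoc, hc, mul_assoc, ← map_mul β, ← map_mul β]
  rw [h3] at h2
  simp only [smul_mul_assoc, map_smul, mul_smul_comm, smul_eq_mul] at h2 ⊢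
  exact mul_left_cancel₀ hm h2

/-- the relation for a class `u` on `Z × Z`, in one degree -/
theorem transfer_main {h : W₀.H X} (hh : h ∈ W₀.gr X 2) {u : W₀.H ((X ⊗ X) ⊗ (X ⊗ X))}
    {z : W₀.H (X ⊗ X)} (hu : ∀ z', W₀.tr ((X ⊗ X) ⊗ (X ⊗ X))
      (u * W₀.pull (snd (X ⊗ X) (X ⊗ X)) (relH W₀ h * z) *
        W₀.pull (fst (X ⊗ X) (X ⊗ X)) (relH W₀ h * z')) =
      W₀.tr (X ⊗ X) (relH W₀ h * z * z')) :
    relH W₀ h * W₀.op u (relH W₀ h * z) = relH W₀ h * z := by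
  refine W₀.ext_tr fun z' => ?_
  have h1 := hu z'
  rw [← W₀.op_spec] at h1
  rw [rel_central W₀ (relH_gr W₀ hh), mul_assoc, h1]

theorem transfer_op {pr : ℤ → Module.End K (W₀.H X)}
    (hpr : ∀ i : ℤ, pr i = if 0 ≤ i then W₀.pi X i.toNat else 0)
    {h : W₀.H X} (hh : h ∈ W₀.gr X 2) (u : W₀.H ((X ⊗ X) ⊗ (X ⊗ X))) (P : ℕ → Prop)
    (hu : ∀ i, P i → ∀ z ∈ W₀.gr (X ⊗ X) i, ∀ z', W₀.tr ((X ⊗ X) ⊗ (X ⊗ X))
      (u * W₀.pull (snd (X ⊗ X) (X ⊗ X)) (relH W₀ h * z) *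
        W₀.pull (fst (X ⊗ X) (X ⊗ X)) (relH W₀ h * z')) =
      W₀.tr (X ⊗ X) (relH W₀ h * z * z')) (c : ℤ) (hc : ∀ i : ℕ, (i : ℤ) = c → P i) :
    LL (LinearMap.mulLeft K h) * (W₀.kun X X).symm.conj (W₀.op u) *
      LL (LinearMap.mulLeft K h) * prT (W₀.dim X) pr c =
    LL (LinearMap.mulLeft K h) * prT (W₀.dim X) pr c := by
  refine rel_ext W₀ fun i j a b ha hb => ?_
  simp only [Module.End.mul_apply]
  rw [rel_prT W₀ hpr ha hb c]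
  by_cases hij : (i : ℤ) + j = c
  · have h2 : W₀.tm a b ∈ W₀.gr (X ⊗ X) (i + j) := W₀.tm_gr ha hb
    have h3 := transfer_main W₀ hh (hu (i + j) (hc (i + j) (by push_cast; exact hij)) _ h2)
    rw [if_pos hij]
    apply (W₀.kun X X).injective
    rw [rel_LL W₀ hh]
    have h5 : (W₀.kun X X) (((W₀.kun X X).symm.conj (W₀.op u)) ((LL (LinearMap.mulLeft K h))
        (a ⊗ₜ b))) = W₀.op u (W₀.kun X X (LL (LinearMap.mulLeft K h) (a ⊗ₜ b))) := by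
      rw [LinearEquiv.conj_apply]
      simp
    rw [h5, rel_LL W₀ hh, W₀.kun_tmul, h3]
  · simp only [if_neg hij, map_zero]

end Abstract

variable {k₀ K : Type} [Field k₀] [Field K] [CharZero K]

/-- The relation on `V ⊗ V` for a polarised variety. -/
theorem transfer {T : WeilTheory k₀ K} (V : PVar T) {𝒱' : Type 1} [Category.{0} 𝒱']
    [CartesianMonoidalCategory 𝒱'] (W : PreWeil K 𝒱') {Y Z : 𝒱'} (r : Y ⟶ Z)
    (β : (weil T V.k).H (V.var ⊗ V.var) →ₐ[K] W.H Z)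
    (β₂ : (weil T V.k).H ((V.var ⊗ V.var) ⊗ (V.var ⊗ V.var)) →ₐ[K] W.H (Z ⊗ Z))
    (hβ1 : ∀ z, β₂ ((weil T V.k).pull (fst (V.var ⊗ V.var) (V.var ⊗ V.var)) z) =
      W.pull (fst Z Z) (β z))
    (hβ2 : ∀ z, β₂ ((weil T V.k).pull (snd (V.var ⊗ V.var) (V.var ⊗ V.var)) z) =
      W.pull (snd Z Z) (β z))
    (hgr : ∀ i, ∀ z ∈ (weil T V.k).gr (V.var ⊗ V.var) i, β z ∈ W.gr Z i)
    (htr1 : ∀ z, W.tr Z (β z) = (weil T V.k).tr (V.var ⊗ V.var) z)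
    (htr2 : ∀ z, W.tr (Z ⊗ Z) (β₂ z) =
      (weil T V.k).tr ((V.var ⊗ V.var) ⊗ (V.var ⊗ V.var)) z)
    {m : K} (hm : m ≠ 0)
    (hG : ∀ t, W.tr Y (W.pull r t) =
      W.tr Z (β (m • relH (weil T V.k) (X := V.var) (T.cl V.X V.h)) * t)) {D : ℕ}
    (hD : W.dim Z = D + 1) (hV : V.n + V.n = D + 1)
    (h5 : ∀ u ∈ W.Alg (Z ⊗ Z) D, ∃ u₀ ∈ (weil T V.k).Alg
      ((V.var ⊗ V.var) ⊗ (V.var ⊗ V.var)) D, β₂ u₀ = u)
    (P : ℕ → Prop) {s : W.H Z →ₗ[K] W.H Z} (hs : s ∈ W.CK Z Z (-1))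
    (hsr : ∀ i, P i → ∀ x ∈ W.gr Y i, W.pull r (s (W.push r x)) = x) :
    ∃ w ∈ Submodule.span K (V.opB (-1) : Set (Module.End K (V.HX ⊗[K] V.HX))),
      ∀ c : ℤ, (∀ i : ℕ, (i : ℤ) = c → P i) →
        LL V.lef * w * LL V.lef * prT V.n V.proj c = LL V.lef * prT V.n V.proj c := by
  have hh : T.cl V.X V.h ∈ (weil T V.k).gr V.var 2 :=
    T.cl_mem V.X V.isVar.isWeil 1 V.h V.h_mem
  obtain ⟨u, hu, h1⟩ := transfer_rel (weil T V.k) W r β β₂ hβ1 hβ2 hgr htr1 htr2 hh hm hG hD h5 P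
    hs hsr
  refine ⟨((weil T V.k).kun V.var V.var).symm.conj ((weil T V.k).op
    (X := V.var ⊗ V.var) (Y := V.var ⊗ V.var) u), ?_, fun c hc => ?_⟩
  · refine Submodule.span_induction (p := fun u _ =>
      ((weil T V.k).kun V.var V.var).symm.conj ((weil T V.k).op
        (X := V.var ⊗ V.var) (Y := V.var ⊗ V.var) u) ∈
      Submodule.span K (V.opB (-1) : Set (Module.End K (V.HX ⊗[K] V.HX)))) ?_ ?_ ?_ ?_ hu
    · intro u hu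
      refine Submodule.subset_span ?_
      change ((weil T V.k).kun V.var V.var).conj
        (((weil T V.k).kun V.var V.var).symm.conj _) ∈
          (weil T V.k).Cor (V.var ⊗ V.var) (V.var ⊗ V.var) (-1)
      rw [rel_conj]
      refine (weil T V.k).mem_cor.2 (Or.inr ⟨D, _, ?_, hu, rfl⟩)
      change (D : ℤ) = ((V.n + V.n : ℕ) : ℤ) + -1
      rw [hV]
      push_cast
      ring
    · rw [(weil T V.k).op_zero, map_zero]
      exact Submodule.zero_mem _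
    · intro u v _ _ h2 h3
      rw [(weil T V.k).op_add, map_add]
      exact Submodule.add_mem _ h2 h3
    · intro a u _ h2
      rw [(weil T V.k).op_smul, map_smul]
      exact Submodule.smul_mem _ _ h2
  · exact transfer_op (weil T V.k) (X := V.var) (pr := V.proj) (fun i => rfl) hh u P h1 c hc

end Pool.Agent.Lib.MP_4ca46c_ag.NilGeo
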